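import Pool.Agent.Lib.MP_b0c2b5_co.Mg.G001

/-!
# R3, ChB: consequences of (C) and (P) in a chain

PROOF of `Chn.nn`. For `d ∈ D` let `Z d ⊆ Vs i`, `|Z d| ≤ K`, be the set of (P) of the step `i` (`Stp.p` for `Vs i`, `Vs (i+1)`): all `y ∈ Vs (i+1)` with `r y d` are in `(Z d).biUnion (oN r)`. `D' := D ∪ D.biUnion Z`, at most `g + g * K` elements, in `Vs i`. `y ∈ Vs (i+1)`, `y ∈ aN r d`: `r d y` (then `y ∈ oN r d`) or `r y d`.
PROOF of `Chn.cn`. (C) of the step `i + 1` at `g ∈ Vs (i+2)`: `D ⊆ Vs (i+1)`, `|D| ≤ K`, `|(aN r v ∩ Vs (i+1)) \ D.biUnion (aN r)| ≤ K` for all `v ∈ Vs (i+2)` with `v ∈ aN r g`. Replace `D` by the `D'` of `Chn.nn`: `(aN r v ∩ Vs (i+1)) \ D'.biUnion (oN r) ⊆ (aN r v ∩ Vs (i+1)) \ D.biUnion (aN r)`.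
`|D'| ≤ K + K * K = K * (K + 1)`.
-/

set_option autoImplicit false

namespace Pool.Agent.Lib.MP_b0c2b5_co.R3

open Finset LS
open scoped Classical

universe u

variable {V : Type u} [Fintype V] {r : V → V → Prop} {K n : ℕ} {Vs : ℕ → Finset V}

theorem Chn.nn (hc : Chn r K n Vs) {i g : ℕ} (hi : i < n) (D : Finset V) (hD : D ⊆ Vs (i+1)) (hg : D.card ≤ g) :
    ∃ D' ⊆ Vs i, D'.card ≤ g * (K + 1) ∧ D.biUnion (aN r) ∩ Vs (i+1) ⊆ D'.biUnion (oN r) := by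
  have hZ := (hc.stp i hi).p
  choose! Z hZ1 hZ2 hZ3 using hZ
  refine ⟨D ∪ D.biUnion Z, ?_, ?_, ?_⟩
  · refine Finset.union_subset (hD.trans (hc.stp i hi).sub) ?_
    refine Finset.biUnion_subset.2 fun d hd => hZ1 d (hD hd)
  · have h1 : (D.biUnion Z).card ≤ D.card * K :=
      Finset.card_biUnion_le_card_mul D Z K fun d hd => hZ2 d (hD hd)
    have h2 := Finset.card_union_le D (D.biUnion Z)
    have h3 : D.card * K ≤ g * K := Nat.mul_le_mul_right K hg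
    calc (D ∪ D.biUnion Z).card ≤ D.card + (D.biUnion Z).card := h2
      _ ≤ g + g * K := by omega
      _ = g * (K + 1) := by ring
  · intro y hy
    obtain ⟨hy1, hy2⟩ := Finset.mem_inter.1 hy
    obtain ⟨d, hd, hyd⟩ := Finset.mem_biUnion.1 hy1
    rcases mem_aN.1 hyd with h | h
    · exact Finset.mem_biUnion.2 ⟨d, Finset.mem_union_left _ hd, mem_oN.2 h⟩
    · obtain ⟨z, hz, hyz⟩ := Finset.mem_biUnion.1 (hZ3 d (hD hd) y hy2 h)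
      exact Finset.mem_biUnion.2 ⟨z, Finset.mem_union_right _ (Finset.mem_biUnion.2 ⟨d, hd, hz⟩), hyz⟩

theorem Chn.cn (hc : Chn r K n Vs) {i : ℕ} (hi : i + 1 < n) {g : V} (hg : g ∈ Vs (i+2)) :
    ∃ D' ⊆ Vs i, D'.card ≤ K * (K + 1) ∧ ∀ v ∈ Vs (i+2), v ∈ aN r g →
      ((aN r v ∩ Vs (i+1)) \ D'.biUnion (oN r)).card ≤ K := by
  obtain ⟨D, hD, hDK, hDv⟩ := (hc.stp (i+1) hi).c g hg
  obtain ⟨D', hD', hDK', hcov⟩ := hc.nn (Nat.lt_of_succ_lt hi) D hD hDK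
  refine ⟨D', hD', hDK', fun v hv hvg => (Finset.card_le_card fun x hx => ?_).trans (hDv v hv hvg)⟩
  obtain ⟨hx1, hx2⟩ := Finset.mem_sdiff.1 hx
  refine Finset.mem_sdiff.2 ⟨hx1, fun h => hx2 (hcov ?_)⟩
  exact Finset.mem_inter.2 ⟨h, (Finset.mem_inter.1 hx1).2⟩

end Pool.Agent.Lib.MP_b0c2b5_co.R3
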