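import Mathlib

/-!
# R3, MWU: multiplicative weights

PROOF. `T0` with `T0 * α * (2 - 1 / log 2) ≥ log (N+1) / log 2` (`1 / log 2 < 1.45` by `Real.log_two_gt_d9`). Choose the actions one after the other: given `o 0, .., o (s-1)` let `x i = ∑ s' < s, a (o s') i`, `w i = 2 ^ (x i)` (`Real.rpow`), and let `o s` be an action from `h` for this `w`.
(An infinite sequence `o : ℕ → Act` by strong recursion or, simpler: prove by induction on `s` that there is `o : Fin s → Act` (or a list) with `∑ i, 2 ^ (∑ s', a (o s') i) ≤ card I * (1 + α) ^ s`; step: `Fin.snoc`.) For `x ∈ [0,1]`: `2 ^ x ≤ 1 + x` (convexity: `Real.rpow_le_one_add..` or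
`one_add_mul_self_le_rpow_one_add` for exponent at most one: Bernoulli `(1 + 1) ^ x ≤ 1 + x * 1`, `Real.rpow_one_add_le_one_add_mul_self`). So the potential `Φ s = ∑ i, 2 ^ (x i)` satisfies `Φ (s+1) ≤ ∑ w i (1 + a (o s) i) ≤ (1 + α) Φ s`. Hence `2 ^ (∑ s, a (o s) i) ≤ Φ T ≤ card I * (1 + α) ^ T
≤ N * exp (α T)`, and taking logarithms `∑ s, a (o s) i ≤ (log N + α T) / log 2 ≤ 2 α T` for `T ≥ T0`. (If `I` is empty only the existence of the actions matters: `h` for the empty weight.)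
-/

set_option autoImplicit false

namespace Pool.Agent.Lib.MP_b0c2b5_co.R3

open Finset

universe u v

/-- `2 ^ x ≤ 1 + x` on `[0, 1]`. -/
private theorem MWU_two_rpow_le {x : ℝ} (h0 : 0 ≤ x) (h1 : x ≤ 1) : (2 : ℝ) ^ x ≤ 1 + x := by
  have h := rpow_one_add_le_one_add_mul_self (s := 1) (by norm_num) h0 h1
  norm_num at h
  linarith

/-- The potential. -/
private theorem MWU_potential {α : ℝ} (hα : 0 < α) (I : Type u) (Act : Type v) [Fintype I]
    (a : Act → I → ℝ) (ha0 : ∀ o i, 0 ≤ a o i) (ha1 : ∀ o i, a o i ≤ 1)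
    (h : ∀ w : I → ℝ, (∀ i, 0 ≤ w i) → ∃ o, ∑ i, w i * a o i ≤ α * ∑ i, w i) (s : ℕ) :
    ∃ o : Fin s → Act, ∑ i, (2 : ℝ) ^ (∑ t, a (o t) i) ≤ Fintype.card I * (1 + α) ^ s := by
  induction s with
  | zero => exact ⟨Fin.elim0, by simp⟩
  | succ s ih =>
    obtain ⟨o, ho⟩ := ih
    obtain ⟨p, hp⟩ := h (fun i => (2 : ℝ) ^ (∑ t, a (o t) i)) (fun i => by positivity)
    refine ⟨Fin.snoc (α := fun _ => Act) o p, ?_⟩
    have e : ∀ i, ∑ t, a (Fin.snoc (α := fun _ => Act) o p t) i = (∑ t, a (o t) i) + a p i := by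
      intro i
      rw [Fin.sum_univ_castSucc]
      simp only [Fin.snoc_castSucc, Fin.snoc_last]
    calc ∑ i, (2 : ℝ) ^ (∑ t, a (Fin.snoc (α := fun _ => Act) o p t) i)
        = ∑ i, (2 : ℝ) ^ (∑ t, a (o t) i) * 2 ^ (a p i) := by
          refine Finset.sum_congr rfl fun i _ => ?_
          rw [e i, Real.rpow_add (by norm_num)]
      _ ≤ ∑ i, (2 : ℝ) ^ (∑ t, a (o t) i) * (1 + a p i) := by
          refine Finset.sum_le_sum fun i _ => ?_
          exact mul_le_mul_of_nonneg_left (MWU_two_rpow_le (ha0 p i) (ha1 p i)) (by positivity)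
      _ = ∑ i, (2 : ℝ) ^ (∑ t, a (o t) i) + ∑ i, (2 : ℝ) ^ (∑ t, a (o t) i) * a p i := by
          rw [← Finset.sum_add_distrib]
          exact Finset.sum_congr rfl fun i _ => by ring
      _ ≤ ∑ i, (2 : ℝ) ^ (∑ t, a (o t) i) + α * ∑ i, (2 : ℝ) ^ (∑ t, a (o t) i) := by linarith
      _ = (1 + α) * ∑ i, (2 : ℝ) ^ (∑ t, a (o t) i) := by ring
      _ ≤ (1 + α) * (Fintype.card I * (1 + α) ^ s) :=
          mul_le_mul_of_nonneg_left ho (by linarith)
      _ = Fintype.card I * (1 + α) ^ (s + 1) := by ring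

theorem mwu (N : ℕ) (α : ℝ) (hα : 0 < α) : ∃ T0 : ℕ, ∀ (I : Type u) (Act : Type v) [Fintype I],
    Fintype.card I ≤ N → ∀ a : Act → I → ℝ, (∀ o i, 0 ≤ a o i) → (∀ o i, a o i ≤ 1) →
    (∀ w : I → ℝ, (∀ i, 0 ≤ w i) → ∃ o, ∑ i, w i * a o i ≤ α * ∑ i, w i) →
    ∀ T ≥ T0, ∃ o : Fin T → Act, ∀ i, ∑ s, a (o s) i ≤ 2 * α * T := by
  have hL1 : (0.69 : ℝ) < Real.log 2 := lt_trans (by norm_num) Real.log_two_gt_d9
  have hL : 0 < Real.log 2 := lt_trans (by norm_num) hL1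
  refine ⟨⌈Real.log (N + 1) / (α * (2 * Real.log 2 - 1))⌉₊, ?_⟩
  intro I Act _ hcard a ha0 ha1 h T hT
  obtain ⟨o, ho⟩ := MWU_potential hα I Act a ha0 ha1 h T
  refine ⟨o, fun i => ?_⟩
  have hN : (0 : ℝ) < N + 1 := by positivity
  have hc : (Fintype.card I : ℝ) ≤ N + 1 := by
    have : (Fintype.card I : ℝ) ≤ N := by exact_mod_cast hcard
    linarith
  have h1 : (2 : ℝ) ^ (∑ t, a (o t) i) ≤ (N + 1) * Real.exp (α * T) := by
    calc (2 : ℝ) ^ (∑ t, a (o t) i) ≤ ∑ i, (2 : ℝ) ^ (∑ t, a (o t) i) :=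
          Finset.single_le_sum (f := fun i => (2 : ℝ) ^ (∑ t, a (o t) i))
            (fun j _ => by positivity) (Finset.mem_univ i)
      _ ≤ Fintype.card I * (1 + α) ^ T := ho
      _ ≤ (N + 1) * Real.exp (α * T) := by
          refine mul_le_mul hc ?_ (by positivity) hN.le
          have h2 : (1 : ℝ) + α ≤ Real.exp α := by
            rw [add_comm]
            exact Real.add_one_le_exp α
          calc (1 + α) ^ T ≤ Real.exp α ^ T := pow_le_pow_left₀ (by linarith) h2 T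
            _ = Real.exp (α * T) := by rw [← Real.exp_nat_mul, mul_comm]
  have h2 : (∑ t, a (o t) i) * Real.log 2 ≤ Real.log (N + 1) + α * T := by
    have h3 := Real.log_le_log (by positivity) h1
    rw [Real.log_rpow (by norm_num), Real.log_mul hN.ne' (Real.exp_ne_zero _), Real.log_exp] at h3
    exact h3
  have h3 : Real.log (N + 1) ≤ T * (α * (2 * Real.log 2 - 1)) := by
    have h4 : Real.log (N + 1) / (α * (2 * Real.log 2 - 1)) ≤ T :=
      (Nat.le_ceil _).trans (by exact_mod_cast hT)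
    rwa [div_le_iff₀ (mul_pos hα (by linarith))] at h4
  have h5 : (∑ t, a (o t) i) * Real.log 2 ≤ 2 * α * T * Real.log 2 := by nlinarith
  exact le_of_mul_le_mul_right h5 hL

end Pool.Agent.Lib.MP_b0c2b5_co.R3
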