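import Pool.Agent.Lib.MP_b0c2b5_co.R3.E4
import Pool.Agent.Lib.MP_b0c2b5_co.R3.MWU

/-!
# R3, CoS: cover or spread (theorem cov_or_spread)

PROOF. `k := max (k of epsnet a b (4 * m)) (4 * m)`. `T0` from `mwu` with `N = 2 * card V`, `α = 1 / (2 * m)`. Constraints: `I = V ⊕ V` (or `V × Bool`); actions: the elements of `B` (the subtype). The value of the action `x ∈ B` at the constraint `inl g` is `1` if `g ∈ G0` and `x ∈ N g`, otherwise `0`;
at `inr y` it is `1` if `x = y`, otherwise `0`. Let `w ≥ 0` be a weight on `I`, `W` its sum. Let `w1 g = w (inl g)` for `g ∈ G0` and `0` otherwise, and let `E` be the net of `epsnet a b (4 m)` for the family `fun x => N' x` (index type `V`) and the weight `w1`; `E' = E ∩ G0`.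
The points `y` with `W < 4 m * w (inr y)` are at most `4 m` many. By the hypothesis, `B` is not covered by the sets `N g`, `g ∈ E'`, and these points (`G = E'`, `|G| ≤ k`, the uncovered part has more than `k` elements, so more than the `≤ 4m` heavy points; if `W = 0` there are no heavy points):
some `x ∈ B` is not in `N g` for `g ∈ E'` and `4 m * w (inr x) ≤ W`. Then `E'` does not meet `N' x`; so `E` meets `N' x` at most outside `G0`: use `epsnet` for the family `fun x => N' x ∩ G0` (`Trc.inter`) instead, then the net does not meet it after intersecting the net with `G0`. So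
`4 m * ∑ g ∈ N' x ∩ G0, w1 g < W1 ≤ W` or the sum is `0`; in both cases `4 m * (..) ≤ W`. The value is `∑ i, w i * a x i = ∑ g ∈ N' x ∩ G0, w1 g + w (inr x) ≤ W / (2 m)`. So `mwu` gives the list: `∑ s, a (ℓ s) i ≤ 2 α T = T / m`, and the sum of the `0/1` values is the number of `s`.
-/

set_option autoImplicit false

namespace Pool.Agent.Lib.MP_b0c2b5_co.R3

open Finset
open scoped Classical

universe u v

/-- the value of the action `x` at a constraint -/
private noncomputable def CoS_val {V : Type u} (N : V → Finset V) (G0 : Finset V) (x : V) : V ⊕ V → ℝ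
  | Sum.inl g => if g ∈ G0 ∧ x ∈ N g then 1 else 0
  | Sum.inr y => if x = y then 1 else 0

private theorem CoS_val_bd {V : Type u} (N : V → Finset V) (G0 : Finset V) (x : V) (i : V ⊕ V) :
    0 ≤ CoS_val N G0 x i ∧ CoS_val N G0 x i ≤ 1 := by
  rcases i with g | y
  · show 0 ≤ (if g ∈ G0 ∧ x ∈ N g then (1 : ℝ) else 0) ∧ (if g ∈ G0 ∧ x ∈ N g then (1 : ℝ) else 0) ≤ 1
    split_ifs <;> norm_num
  · show 0 ≤ (if x = y then (1 : ℝ) else 0) ∧ (if x = y then (1 : ℝ) else 0) ≤ 1
    split_ifs <;> norm_num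

private theorem CoS_heavy {V : Type u} [Fintype V] {m : ℕ} (hm : 0 < m) (w2 : V → ℝ)
    (hw : ∀ y, 0 ≤ w2 y) (W : ℝ) (hW : ∑ y, w2 y ≤ W) :
    (univ.filter (fun y => W < 4 * m * w2 y)).card ≤ 4 * m := by
  by_contra hcon
  push Not at hcon
  set H := univ.filter (fun y => W < 4 * m * w2 y) with hH
  have hm' : (0 : ℝ) < m := by exact_mod_cast hm
  have hne : H.Nonempty := by
    rw [← Finset.card_pos]
    omega
  obtain ⟨y0, hy0⟩ := hne
  have hW0 : 0 < W := by
    rw [hH, Finset.mem_filter] at hy0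
    have h1 : w2 y0 ≤ ∑ y, w2 y := Finset.single_le_sum (fun y _ => hw y) (Finset.mem_univ y0)
    have h2 : 0 ≤ W := (Finset.sum_nonneg (fun y _ => hw y)).trans hW
    have h3 := hy0.2
    by_contra h4
    have h5 : W = 0 := le_antisymm (not_lt.1 h4) h2
    rw [h5] at h3
    have h6 : w2 y0 ≤ 0 := h1.trans (hW.trans h5.le)
    nlinarith [mul_nonneg hm'.le (hw y0)]
  have h1 : (H.card : ℝ) * W ≤ ∑ y ∈ H, 4 * m * w2 y := by
    rw [← nsmul_eq_mul, ← Finset.sum_const]
    apply Finset.sum_le_sum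
    intro y hy
    rw [hH, Finset.mem_filter] at hy
    exact hy.2.le
  have h2 : ∑ y ∈ H, 4 * (m : ℝ) * w2 y ≤ 4 * m * W := by
    rw [← Finset.mul_sum]
    apply mul_le_mul_of_nonneg_left _ (by positivity)
    exact (Finset.sum_le_sum_of_subset_of_nonneg (Finset.subset_univ H) (fun y _ _ => hw y)).trans hW
  have h3 : ((4 * m : ℕ) : ℝ) < (H.card : ℝ) := by exact_mod_cast hcon
  push_cast at h3
  have h4 : (4 * (m : ℝ)) * W < (H.card : ℝ) * W := mul_lt_mul_of_pos_right h3 hW0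
  linarith

private theorem CoS_key {V : Type u} [Fintype V] {a b m k1 : ℕ} (hm : 0 < m)
    (hk1 : ∀ (Y : Type u) (ι : Type u) [Fintype Y] (S : ι → Finset Y),
      Trc S a b → ∀ w : Y → ℝ, (∀ y, 0 ≤ w y) → ∃ E : Finset Y, E.card ≤ k1 ∧
        ∀ i, 0 < ∑ y ∈ S i, w y → ∑ y, w y ≤ ((4 * m : ℕ) : ℝ) * ∑ y ∈ S i, w y → ∃ y ∈ E, y ∈ S i)
    {N N' : V → Finset V} (hNN : ∀ g x, x ∈ N g ↔ g ∈ N' x) (hT : Trc N' a b) {G0 B : Finset V}
    (hB : ¬ ∃ G ⊆ G0, G.card ≤ max k1 (4 * m) ∧ (B \ G.biUnion N).card ≤ max k1 (4 * m))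
    (w : V ⊕ V → ℝ) (hw : ∀ i, 0 ≤ w i) :
    ∃ x ∈ B, ∑ i, w i * CoS_val N G0 x i ≤ 1 / (2 * (m : ℝ)) * ∑ i, w i := by
  have hm' : (0 : ℝ) < m := by exact_mod_cast hm
  set W : ℝ := ∑ i, w i with hWdef
  have hWs : W = ∑ g, w (Sum.inl g) + ∑ y, w (Sum.inr y) := Fintype.sum_sum_type w
  have hWl : 0 ≤ ∑ g : V, w (Sum.inl g) := Finset.sum_nonneg (fun g _ => hw _)
  have hWr : 0 ≤ ∑ y : V, w (Sum.inr y) := Finset.sum_nonneg (fun g _ => hw _)
  have hW0 : 0 ≤ W := by linarith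
  let w1 : V → ℝ := fun g => if g ∈ G0 then w (Sum.inl g) else 0
  have hw1 : ∀ g, 0 ≤ w1 g := by
    intro g
    show 0 ≤ if g ∈ G0 then w (Sum.inl g) else 0
    split_ifs
    · exact hw _
    · exact le_rfl
  have hw1s : ∑ g, w1 g ≤ W := by
    have h1 : ∑ g, w1 g ≤ ∑ g, w (Sum.inl g) := by
      apply Finset.sum_le_sum
      intro g _
      show (if g ∈ G0 then w (Sum.inl g) else 0) ≤ w (Sum.inl g)
      split_ifs
      · exact le_rfl
      · exact hw _
    linarith
  obtain ⟨E, hE, hnet⟩ := hk1 V V (fun x => N' x ∩ G0) (Trc.inter hT G0) w1 hw1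
  have hH := CoS_heavy hm (fun y => w (Sum.inr y)) (fun y => hw _) W (by linarith)
  set H := univ.filter (fun y => W < 4 * m * w (Sum.inr y)) with hHdef
  have hcard : H.card < (B \ (E ∩ G0).biUnion N).card := by
    by_contra hcon
    push Not at hcon
    apply hB
    refine ⟨E ∩ G0, Finset.inter_subset_right, ?_, ?_⟩
    · exact (Finset.card_le_card Finset.inter_subset_left).trans (hE.trans (le_max_left _ _))
    · exact hcon.trans (hH.trans (le_max_right _ _))
  obtain ⟨x, hx, hxH⟩ := Finset.exists_mem_notMem_of_card_lt_card hcard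
  rw [Finset.mem_sdiff] at hx
  refine ⟨x, hx.1, ?_⟩
  have hx2 : 4 * m * w (Sum.inr x) ≤ W := by
    rw [hHdef, Finset.mem_filter] at hxH
    push Not at hxH
    exact hxH (Finset.mem_univ x)
  set σ : ℝ := ∑ y ∈ N' x ∩ G0, w1 y with hσ
  have hσ0 : 0 ≤ σ := Finset.sum_nonneg (fun y _ => hw1 y)
  have hno : ¬ ∃ y ∈ E, y ∈ N' x ∩ G0 := by
    rintro ⟨y, hyE, hy⟩
    rw [Finset.mem_inter] at hy
    apply hx.2
    rw [Finset.mem_biUnion]
    exact ⟨y, Finset.mem_inter.2 ⟨hyE, hy.2⟩, (hNN y x).2 hy.1⟩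
  have hσW : 4 * m * σ ≤ W := by
    by_contra hcon
    push Not at hcon
    apply hno
    apply hnet x
    · show 0 < σ
      by_contra h0
      have : σ = 0 := le_antisymm (not_lt.1 h0) hσ0
      rw [this, mul_zero] at hcon
      linarith
    · show ∑ g, w1 g ≤ ((4 * m : ℕ) : ℝ) * σ
      push_cast
      linarith
  have hsum : ∑ i, w i * CoS_val N G0 x i = σ + w (Sum.inr x) := by
    rw [Fintype.sum_sum_type]
    congr 1
    · rw [hσ]
      have e1 : ∀ g, w (Sum.inl g) * CoS_val N G0 x (Sum.inl g) = if g ∈ N' x ∩ G0 then w1 g else 0 := by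
        intro g
        show w (Sum.inl g) * (if g ∈ G0 ∧ x ∈ N g then (1 : ℝ) else 0) =
          if g ∈ N' x ∩ G0 then (if g ∈ G0 then w (Sum.inl g) else 0) else 0
        by_cases h1 : g ∈ G0
        · by_cases h2 : x ∈ N g
          · have h3 : g ∈ N' x := (hNN g x).1 h2
            simp [h1, h2, h3]
          · have h3 : g ∉ N' x := fun h => h2 ((hNN g x).2 h)
            simp [h2, h3]
        · simp [h1]
      rw [Finset.sum_congr rfl (fun g _ => e1 g), Finset.sum_ite_mem, Finset.univ_inter]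
    · have e2 : ∀ y, w (Sum.inr y) * CoS_val N G0 x (Sum.inr y) = if x = y then w (Sum.inr y) else 0 := by
        intro y
        show w (Sum.inr y) * (if x = y then (1 : ℝ) else 0) = _
        split_ifs <;> simp
      rw [Finset.sum_congr rfl (fun g _ => e2 g), Finset.sum_ite_eq]
      simp
  rw [hsum]
  have h5 : 4 * m * (σ + w (Sum.inr x)) ≤ 2 * W := by linarith
  have h6 : 1 / (2 * (m : ℝ)) * W = W / (2 * m) := by ring
  rw [h6, le_div_iff₀ (by positivity)]
  nlinarith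

theorem cov_or_spread (a b m : ℕ) (hm : 0 < m) : ∃ k : ℕ, ∀ (V : Type u) [Fintype V] (N N' : V → Finset V),
    (∀ g x, x ∈ N g ↔ g ∈ N' x) → Trc N' a b → ∃ T0 : ℕ, ∀ (G0 B : Finset V),
    (¬ ∃ G ⊆ G0, G.card ≤ k ∧ (B \ G.biUnion N).card ≤ k) → ∀ T ≥ T0, ∃ ℓ : Fin T → V, (∀ s, ℓ s ∈ B) ∧
      (∀ g ∈ G0, m * (univ.filter (fun s => ℓ s ∈ N g)).card ≤ T) ∧
      ∀ y, m * (univ.filter (fun s => ℓ s = y)).card ≤ T := by
  obtain ⟨k1, hk1⟩ := epsnet.{u, u} a b (4 * m) (by omega)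
  refine ⟨max k1 (4 * m), ?_⟩
  intro V _ N N' hNN hT
  have hm' : (0 : ℝ) < m := by exact_mod_cast hm
  obtain ⟨T0, hT0⟩ := mwu.{u, u} (Fintype.card (V ⊕ V)) (1 / (2 * (m : ℝ))) (by positivity)
  refine ⟨T0, ?_⟩
  intro G0 B hB T hTT
  have key := CoS_key hm hk1 hNN hT hB
  obtain ⟨o, ho⟩ := hT0 (V ⊕ V) {x : V // x ∈ B} le_rfl (fun x i => CoS_val N G0 x.1 i)
    (fun x i => (CoS_val_bd N G0 x.1 i).1) (fun x i => (CoS_val_bd N G0 x.1 i).2)
    (fun w hw => by
      obtain ⟨x, hx, h⟩ := key w hw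
      exact ⟨⟨x, hx⟩, h⟩) T hTT
  have hα : 2 * (1 / (2 * (m : ℝ))) * T = T / m := by
    field_simp
  refine ⟨fun s => (o s).1, fun s => (o s).2, ?_, ?_⟩
  · intro g hg
    have h1 := ho (Sum.inl g)
    rw [hα] at h1
    have h2 : ∑ s, CoS_val N G0 (o s).1 (Sum.inl g) =
        (((univ.filter (fun s => (o s).1 ∈ N g)).card : ℕ) : ℝ) := by
      rw [Finset.card_filter, Nat.cast_sum]
      apply Finset.sum_congr rfl
      intro s _
      show (if g ∈ G0 ∧ (o s).1 ∈ N g then (1 : ℝ) else 0) = _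
      by_cases h3 : (o s).1 ∈ N g
      · simp [h3, hg]
      · simp [h3]
    rw [h2, le_div_iff₀ hm'] at h1
    have h4 : (((m * (univ.filter (fun s => (o s).1 ∈ N g)).card : ℕ)) : ℝ) ≤ ((T : ℕ) : ℝ) := by
      push_cast
      linarith
    exact_mod_cast h4
  · intro y
    have h1 := ho (Sum.inr y)
    rw [hα] at h1
    have h2 : ∑ s, CoS_val N G0 (o s).1 (Sum.inr y) =
        (((univ.filter (fun s => (o s).1 = y)).card : ℕ) : ℝ) := by
      rw [Finset.card_filter, Nat.cast_sum]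
      apply Finset.sum_congr rfl
      intro s _
      show (if (o s).1 = y then (1 : ℝ) else 0) = _
      by_cases h3 : (o s).1 = y
      · simp [h3]
      · simp [h3]
    rw [h2, le_div_iff₀ hm'] at h1
    have h4 : (((m * (univ.filter (fun s => (o s).1 = y)).card : ℕ)) : ℝ) ≤ ((T : ℕ) : ℝ) := by
      push_cast
      linarith
    exact_mod_cast h4

end Pool.Agent.Lib.MP_b0c2b5_co.R3
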