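import Pool.Agent.Lib.MP_b0c2b5_co.R3.RkB

/-!
# R3, Core: the cores of the sets of top rank

Hypotheses: `f' := fp f ⊆ A f`; `C g` has at most `hi2`, `C1 g` at most `hi1` elements; `h1`: `C1 g` covers (up to `P hi1`) all `b` with `Rk P A q hi1 (fp g ∩ A b)`; `h2`: if `Rk P A q t0 (fp f ∩ A g)` then `C g` covers `f` up to `P hi2`; `h3`: if `Rk P A q t0 (fp f ∩ A g ∩ A h)` then `C g` covers `h` up to `P hi2`. `hi1, hi2 ≤ t0`.
(`G` covers `f` up to `P k` means `P k (A f \ G.biUnion A)`.)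
CONSTANTS. `t1 := (hi1 + hi2 + 1) ^ 2 * t0`, `bb := (hi2 + 1) * t1`, `t := (lo + 1) * max t0 lo`, `hi3 := max bb ((hi1 * hi2 + 1) * max t hi2)`, `M3 := max (hi1 * hi2) (lo * hi2 ^ 3 * (hi1 * hi2))`. `N u g := {f : Rk P A q u (A g ∩ fp f)}` (write `fp f ∩ A g`).
PROOF. `TOP := {f : Rk P A q bb (fp f)}`. Let `Z ⊆ TOP` be a maximal subset such that for every `g : F` at most one element of `Z` lies in `N t1 g` (`Finite F`). For `f ∈ TOP` there are `g` and `z ∈ Z` with `f, z ∈ N t1 g`: if `f ∈ Z` take `z = f`, `g = f` (`fp f ∩ A f = fp f`, `t1 ≤ bb`); if `f ∉ Z` then by maximality `Z ∪ {f}`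
violates the condition, and as `Z` does not, some `g` has `f` and an element `z` of `Z` in `N t1 g`. Choose `z = Zf f` and `g = gf f`.
(a) CLASSES. Let `f ∈ TOP`, `z = Zf f`, `g = gf f`. `E z := (C1 z).biUnion C`, at most `hi1 * hi2` elements. Then `P hi2 (A f \ (E z).biUnion A)`: as `z ∈ N t1 g` and `t1 ≥ hi1`, `C1 z` covers `g` up to `P hi1` (`h1`, `Rk.anti`). From `Rk P A q t1 (fp f ∩ A g)` and `fp f ∩ A g ⊆ ⋃_{g1 ∈ C1 z} (fp f ∩ A g1) ∪ (A g \ (C1 z).biUnion A)`,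
`Rk.addn` (with `m = hi1`, `k = t0`; `(hi1+1) * t0 ≤ t1`; `P t0` of the last set as `hi1 ≤ t0`) gives `g1 ∈ C1 z` with `Rk P A q t0 (fp f ∩ A g1)`, so by `h2` `C g1 ⊆ E z` covers `f` up to `P hi2`.
(b) PACKING. For every `g0` the set `{Zf f : f ∈ TOP, f ∈ N t0 g0}` has at most `hi2 ^ 3` elements: it is contained in the set of all `z ∈ Z` which lie in `N t1 g3` for some `g3 ∈ ((C g0).biUnion C).biUnion C`, and each `g3` gives at most one `z`. Proof: `z = Zf f`, `g = gf f`. By `h2`, `C g0` covers `f` up to `P hi2`, so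
(`Rk.addn`, `(hi2 + 1) * t0 ≤ t1`, `fp f ⊆ A f`) from `Rk P A q t1 (fp f ∩ A g)` we get `g1 ∈ C g0` with `Rk P A q t0 (fp f ∩ A g1 ∩ A g)`, and by `h3` `C g1` covers `g` up to `P hi2`. From `Rk P A q t1 (fp z ∩ A g)` we get `g2 ∈ C g1` with `Rk P A q t0 (fp z ∩ A g2)`, so by `h2` `C g2` covers `z` up to `P hi2`.
From `Rk P A q bb (fp z)`, `fp z ⊆ A z`, we get `g3 ∈ C g2` with `Rk P A q t1 (fp z ∩ A g3)`, that is `z ∈ N t1 g3`.
(c) CORES. `Th f := (E (Zf f)).filter (fun g => Rk P A q t (fp f ∩ A g))` for `f ∈ TOP`, `Th f := ∅` otherwise, `D := ` the union of all `Th f`. `|Th f| ≤ hi1 * hi2`.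
`low`: let `G` have at most `lo` elements, `d ∈ D` with `P lo (A d \ G.biUnion A)`, `d ∈ Th f`. From `Rk P A q t (fp f ∩ A d)` (`Rk.addn` with `m = lo`, `k = max t0 lo`) we get `g ∈ G` with `Rk P A q t0 (fp f ∩ A g)`, so `Zf f` is one of the at most `hi2 ^ 3` elements of (b) for `g0 = g`, and `d ∈ E (Zf f)`: at most `lo * hi2 ^ 3 * (hi1 * hi2)` elements `d`.
`rk`: `f ∉ TOP`: `¬ Rk P A q bb (fp f)`. `f ∈ TOP`: by (a) `fp f \ (Th f).biUnion A ⊆ ⋃_{g ∈ E (Zf f), g ∉ Th f} (fp f ∩ A g) ∪ (A f \ (E (Zf f)).biUnion A)`; if it had `Rk P A q hi3` then by `Rk.addn` (`m = hi1 * hi2`, `k = max t hi2`) some `g ∈ E (Zf f)`, `g ∉ Th f`, has `Rk P A q t (fp f ∩ A g)`: contradiction.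
-/

set_option autoImplicit false

namespace Pool.Agent.Lib.MP_b0c2b5_co.R3

open Finset
open scoped Classical

universe u v

private theorem Core_cov {X : Type u} {F : Type v} {A : F → Finset X} (s : Finset F) (U V N : Finset X)
    (hV : V \ s.biUnion A ⊆ N) (hUV : U ⊆ V) (R : F → Finset X) (hR : ∀ g x, x ∈ U → x ∈ A g → x ∈ R g) :
    U ⊆ s.biUnion R ∪ N := by
  intro x hx
  rw [Finset.mem_union]
  by_cases h : x ∈ s.biUnion A
  · left
    obtain ⟨g, hg, hxg⟩ := Finset.mem_biUnion.mp h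
    exact Finset.mem_biUnion.mpr ⟨g, hg, hR g x hx hxg⟩
  · right
    exact hV (Finset.mem_sdiff.mpr ⟨hUV hx, h⟩)

theorem core (q lo hi1 hi2 t0 : ℕ) (h10 : hi1 ≤ t0) (h20 : hi2 ≤ t0) : ∃ hi3 M3 : ℕ,
    ∀ (X : Type u) (F : Type v) [Finite F] (P : ℕ → Finset X → Prop), Scl P → ∀ (A fp : F → Finset X)
      (C C1 : F → Finset F), (∀ f, fp f ⊆ A f) → (∀ g, (C g).card ≤ hi2) → (∀ g, (C1 g).card ≤ hi1) →
      (∀ g b, Rk P A q hi1 (fp g ∩ A b) → P hi1 (A b \ (C1 g).biUnion A)) →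
      (∀ f g, Rk P A q t0 (fp f ∩ A g) → P hi2 (A f \ (C g).biUnion A)) →
      (∀ f g h, Rk P A q t0 (fp f ∩ A g ∩ A h) → P hi2 (A h \ (C g).biUnion A)) →
      ∃ (D : Finset F) (Th : F → Finset F), (∀ f, Th f ⊆ D) ∧ (∀ f, (Th f).card ≤ M3) ∧
        (∀ G : Finset F, G.card ≤ lo → (D.filter (fun d => P lo (A d \ G.biUnion A))).card ≤ M3) ∧
        ∀ f, ¬ Rk P A q hi3 (fp f \ (Th f).biUnion A) := by
  obtain ⟨t1, ht1⟩ : ∃ t1, t1 = (hi1 + hi2 + 1) * t0 := ⟨_, rfl⟩
  obtain ⟨bb, hbb⟩ : ∃ bb, bb = (hi2 + 1) * t1 := ⟨_, rfl⟩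
  obtain ⟨k1, hk1⟩ : ∃ k1, k1 = max t0 lo := ⟨_, rfl⟩
  obtain ⟨t, ht⟩ : ∃ t, t = (lo + 1) * k1 := ⟨_, rfl⟩
  obtain ⟨k2, hk2⟩ : ∃ k2, k2 = max t hi2 := ⟨_, rfl⟩
  have a1 : (hi1 + 1) * t0 ≤ t1 := by
    rw [ht1]; exact Nat.mul_le_mul_right _ (by omega)
  have a2 : (hi2 + 1) * t0 ≤ t1 := by
    rw [ht1]; exact Nat.mul_le_mul_right _ (by omega)
  have a3 : t0 ≤ t1 := by
    refine le_trans ?_ a1
    exact Nat.le_mul_of_pos_left _ (by omega)
  have a4 : t1 ≤ bb := by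
    rw [hbb]; exact Nat.le_mul_of_pos_left _ (by omega)
  have a5 : t0 ≤ k1 := by rw [hk1]; exact le_max_left _ _
  have a6 : lo ≤ k1 := by rw [hk1]; exact le_max_right _ _
  have a7 : t ≤ k2 := by rw [hk2]; exact le_max_left _ _
  have a8 : hi2 ≤ k2 := by rw [hk2]; exact le_max_right _ _
  refine ⟨max bb ((hi1 * hi2 + 1) * k2), max (hi1 * hi2) (lo * (hi2 * hi2 * hi2 * (hi1 * hi2))), ?_⟩
  intro X F _ P hP A fp C C1 hfp hC hC1 h1 h2 h3
  have : Fintype F := Fintype.ofFinite F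
  -- the maximal set
  let Good : Finset F → Prop := fun Z => (∀ z ∈ Z, Rk P A q bb (fp z)) ∧
    ∀ g, ∀ z ∈ Z, ∀ z' ∈ Z, Rk P A q t1 (fp z ∩ A g) → Rk P A q t1 (fp z' ∩ A g) → z = z'
  have hne : ((univ : Finset (Finset F)).filter Good).Nonempty := by
    refine ⟨∅, Finset.mem_filter.mpr ⟨Finset.mem_univ _, ?_, ?_⟩⟩
    · intro z hz
      exact absurd hz (Finset.notMem_empty z)
    · intro g z hz
      exact absurd hz (Finset.notMem_empty z)
  obtain ⟨Z, hZ, hmax⟩ := Finset.exists_max_image _ Finset.card hne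
  have hZg : Good Z := (Finset.mem_filter.mp hZ).2
  have hself : ∀ f, fp f ∩ A f = fp f := fun f => Finset.inter_eq_left.mpr (hfp f)
  have hex : ∀ f, ∃ g z, Rk P A q bb (fp f) →
      z ∈ Z ∧ Rk P A q t1 (fp f ∩ A g) ∧ Rk P A q t1 (fp z ∩ A g) := by
    intro f
    by_cases hT : Rk P A q bb (fp f)
    · by_cases hfZ : f ∈ Z
      · have h5 : Rk P A q t1 (fp f ∩ A f) := by
          rw [hself f]
          exact Rk.anti hP a4 hT
        exact ⟨f, f, fun _ => ⟨hfZ, h5, h5⟩⟩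
      · by_contra hcon
        have hG : Good (insert f Z) := by
          refine ⟨?_, ?_⟩
          · intro z hz
            rcases Finset.mem_insert.mp hz with h | h
            · rw [h]; exact hT
            · exact hZg.1 z h
          · intro g z hz z' hz' hn hn'
            rcases Finset.mem_insert.mp hz with h | h
            · rcases Finset.mem_insert.mp hz' with h' | h'
              · rw [h, h']
              · exfalso
                apply hcon
                rw [h] at hn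
                exact ⟨g, z', fun _ => ⟨h', hn, hn'⟩⟩
            · rcases Finset.mem_insert.mp hz' with h' | h'
              · exfalso
                apply hcon
                rw [h'] at hn'
                exact ⟨g, z, fun _ => ⟨h, hn', hn⟩⟩
              · exact hZg.2 g z h z' h' hn hn'
        have h6 := hmax (insert f Z) (Finset.mem_filter.mpr ⟨Finset.mem_univ _, hG⟩)
        rw [Finset.card_insert_of_notMem hfZ] at h6
        omega
    · exact ⟨f, f, fun h => absurd h hT⟩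
  choose gf Zf hgz using hex
  -- (a)
  let E : F → Finset F := fun z => (C1 z).biUnion C
  have hE : ∀ z, (E z).card ≤ hi1 * hi2 := by
    intro z
    refine le_trans (Finset.card_biUnion_le_card_mul _ _ hi2 fun g _ => hC g) ?_
    exact Nat.mul_le_mul_right _ (hC1 z)
  have hcl : ∀ f, Rk P A q bb (fp f) → P hi2 (A f \ (E (Zf f)).biUnion A) := by
    intro f hf
    obtain ⟨hzZ, hn1, hn2⟩ := hgz f hf
    have b1 := h1 (Zf f) (gf f) (Rk.anti hP (h10.trans a3) hn2)
    obtain ⟨g1, hg1, hr⟩ := Rk.addn hP (k := t0) (m := hi1) (C1 (Zf f)) (hC1 _)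
      (fun g1 => fp f ∩ A g1) (fp f ∩ A (gf f)) (A (gf f) \ (C1 (Zf f)).biUnion A)
      (Core_cov (C1 (Zf f)) _ (A (gf f)) _ (Finset.Subset.refl _) Finset.inter_subset_right _
        (fun g x hx hxg => Finset.mem_inter.mpr ⟨(Finset.mem_inter.mp hx).1, hxg⟩))
      (hP.mono _ _ _ _ h10 (Finset.Subset.refl _) b1) (Rk.anti hP a1 hn1)
    have b2 := h2 f g1 hr
    refine hP.mono _ _ _ _ le_rfl ?_ b2
    apply Finset.sdiff_subset_sdiff (Finset.Subset.refl _)
    apply Finset.biUnion_subset_biUnion_of_subset_left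
    exact Finset.subset_biUnion_of_mem C hg1
  -- (b)
  let Q : F → Finset F := fun g0 => ((C g0).biUnion C).biUnion C
  have hQ : ∀ g0, (Q g0).card ≤ hi2 * hi2 * hi2 := by
    intro g0
    refine le_trans (Finset.card_biUnion_le_card_mul _ _ hi2 fun g _ => hC g) ?_
    refine Nat.mul_le_mul_right _ ?_
    refine le_trans (Finset.card_biUnion_le_card_mul _ _ hi2 fun g _ => hC g) ?_
    exact Nat.mul_le_mul_right _ (hC g0)
  let Zs : F → Finset F := fun g0 => Z.filter fun z => ∃ g3 ∈ Q g0, Rk P A q t1 (fp z ∩ A g3)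
  have hZs : ∀ g0, (Zs g0).card ≤ hi2 * hi2 * hi2 := by
    intro g0
    refine le_trans ?_ (hQ g0)
    have hch : ∀ z, ∃ g3, z ∈ Zs g0 → g3 ∈ Q g0 ∧ Rk P A q t1 (fp z ∩ A g3) := by
      intro z
      by_cases hz : z ∈ Zs g0
      · obtain ⟨g3, hg3, hr⟩ := (Finset.mem_filter.mp hz).2
        exact ⟨g3, fun _ => ⟨hg3, hr⟩⟩
      · exact ⟨z, fun h => absurd h hz⟩
    choose G3 hG3 using hch
    apply Finset.card_le_card_of_injOn G3
    · intro z hz
      exact Finset.mem_coe.mpr (hG3 z (Finset.mem_coe.mp hz)).1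
    · intro z hz z' hz' heq
      have c1 := (hG3 z (Finset.mem_coe.mp hz)).2
      have c2 := (hG3 z' (Finset.mem_coe.mp hz')).2
      rw [← heq] at c2
      exact hZg.2 _ z (Finset.mem_filter.mp (Finset.mem_coe.mp hz)).1 z'
        (Finset.mem_filter.mp (Finset.mem_coe.mp hz')).1 c1 c2
  have hpack : ∀ f g0, Rk P A q bb (fp f) → Rk P A q t0 (fp f ∩ A g0) → Zf f ∈ Zs g0 := by
    intro f g0 hf hn0
    obtain ⟨hzZ, hn1, hn2⟩ := hgz f hf
    have b1 := h2 f g0 hn0
    obtain ⟨g1, hg1, hr1⟩ := Rk.addn hP (k := t0) (m := hi2) (C g0) (hC _)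
      (fun g1 => fp f ∩ A g1 ∩ A (gf f)) (fp f ∩ A (gf f)) (A f \ (C g0).biUnion A)
      (Core_cov (C g0) _ (A f) _ (Finset.Subset.refl _)
        (Finset.Subset.trans Finset.inter_subset_left (hfp f)) _
        (fun g x hx hxg => Finset.mem_inter.mpr ⟨Finset.mem_inter.mpr
          ⟨(Finset.mem_inter.mp hx).1, hxg⟩, (Finset.mem_inter.mp hx).2⟩))
      (hP.mono _ _ _ _ h20 (Finset.Subset.refl _) b1) (Rk.anti hP a2 hn1)
    have b2 := h3 f g1 (gf f) hr1
    obtain ⟨g2, hg2, hr2⟩ := Rk.addn hP (k := t0) (m := hi2) (C g1) (hC _)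
      (fun g2 => fp (Zf f) ∩ A g2) (fp (Zf f) ∩ A (gf f)) (A (gf f) \ (C g1).biUnion A)
      (Core_cov (C g1) _ (A (gf f)) _ (Finset.Subset.refl _) Finset.inter_subset_right _
        (fun g x hx hxg => Finset.mem_inter.mpr ⟨(Finset.mem_inter.mp hx).1, hxg⟩))
      (hP.mono _ _ _ _ h20 (Finset.Subset.refl _) b2) (Rk.anti hP a2 hn2)
    have b3 := h2 (Zf f) g2 hr2
    have b4 : Rk P A q ((hi2 + 1) * t1) (fp (Zf f)) := by
      rw [← hbb]
      exact hZg.1 _ hzZ
    obtain ⟨g3, hg3, hr3⟩ := Rk.addn hP (k := t1) (m := hi2) (C g2) (hC _)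
      (fun g3 => fp (Zf f) ∩ A g3) (fp (Zf f)) (A (Zf f) \ (C g2).biUnion A)
      (Core_cov (C g2) _ (A (Zf f)) _ (Finset.Subset.refl _) (hfp _) _
        (fun g x hx hxg => Finset.mem_inter.mpr ⟨hx, hxg⟩))
      (hP.mono _ _ _ _ (h20.trans a3) (Finset.Subset.refl _) b3) b4
    refine Finset.mem_filter.mpr ⟨hzZ, g3, ?_, hr3⟩
    exact Finset.mem_biUnion.mpr ⟨g2, Finset.mem_biUnion.mpr ⟨g1, hg1, hg2⟩, hg3⟩
  -- (c)
  let Th : F → Finset F := fun f => if Rk P A q bb (fp f) then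
    (E (Zf f)).filter (fun g => Rk P A q t (fp f ∩ A g)) else ∅
  have hThp : ∀ f, Rk P A q bb (fp f) →
      Th f = (E (Zf f)).filter (fun g => Rk P A q t (fp f ∩ A g)) := fun f hf => if_pos hf
  have hThn : ∀ f, ¬ Rk P A q bb (fp f) → Th f = ∅ := fun f hf => if_neg hf
  refine ⟨univ.biUnion Th, Th, ?_, ?_, ?_, ?_⟩
  · intro f
    exact Finset.subset_biUnion_of_mem Th (Finset.mem_univ f)
  · intro f
    refine le_trans ?_ (le_max_left _ _)
    by_cases hf : Rk P A q bb (fp f)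
    · rw [hThp f hf]
      exact le_trans (Finset.card_filter_le _ _) (hE _)
    · rw [hThn f hf]
      exact Nat.zero_le _
  · intro G hG
    refine le_trans ?_ (le_max_right _ _)
    have hsub : ((univ.biUnion Th).filter (fun d => P lo (A d \ G.biUnion A))) ⊆
        G.biUnion fun g => (Zs g).biUnion E := by
      intro d hd
      obtain ⟨hd1, hd2⟩ := Finset.mem_filter.mp hd
      obtain ⟨f, _, hdf⟩ := Finset.mem_biUnion.mp hd1
      by_cases hf : Rk P A q bb (fp f)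
      · rw [hThp f hf] at hdf
        obtain ⟨hdE, hdr⟩ := Finset.mem_filter.mp hdf
        rw [ht] at hdr
        obtain ⟨g, hg, hr⟩ := Rk.addn hP (k := k1) (m := lo) G hG
          (fun g => fp f ∩ A g) (fp f ∩ A d) (A d \ G.biUnion A)
          (Core_cov G _ (A d) _ (Finset.Subset.refl _) Finset.inter_subset_right _
            (fun g x hx hxg => Finset.mem_inter.mpr ⟨(Finset.mem_inter.mp hx).1, hxg⟩))
          (hP.mono _ _ _ _ a6 (Finset.Subset.refl _) hd2) hdr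
        have hz := hpack f g hf (Rk.anti hP a5 hr)
        exact Finset.mem_biUnion.mpr ⟨g, hg, Finset.mem_biUnion.mpr ⟨_, hz, hdE⟩⟩
      · rw [hThn f hf] at hdf
        exact absurd hdf (Finset.notMem_empty d)
    refine le_trans (Finset.card_le_card hsub) ?_
    refine le_trans (Finset.card_biUnion_le_card_mul _ _ (hi2 * hi2 * hi2 * (hi1 * hi2))
      fun g _ => ?_) (Nat.mul_le_mul_right _ hG)
    refine le_trans (Finset.card_biUnion_le_card_mul _ _ (hi1 * hi2) fun z _ => hE z) ?_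
    exact Nat.mul_le_mul_right _ (hZs g)
  · intro f hcon
    by_cases hf : Rk P A q bb (fp f)
    · obtain ⟨g, hg, hr⟩ := Rk.addn hP (k := k2) (m := hi1 * hi2)
        ((E (Zf f)).filter (fun g => ¬ Rk P A q t (fp f ∩ A g)))
        (le_trans (Finset.card_filter_le _ _) (hE _))
        (fun g => fp f ∩ A g) (fp f \ (Th f).biUnion A) (A f \ (E (Zf f)).biUnion A)
        (by
          intro x hx
          obtain ⟨hx1, hx2⟩ := Finset.mem_sdiff.mp hx
          rw [Finset.mem_union]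
          by_cases h : x ∈ (E (Zf f)).biUnion A
          · left
            obtain ⟨g, hg, hxg⟩ := Finset.mem_biUnion.mp h
            refine Finset.mem_biUnion.mpr ⟨g, Finset.mem_filter.mpr ⟨hg, ?_⟩,
              Finset.mem_inter.mpr ⟨hx1, hxg⟩⟩
            intro hr
            apply hx2
            refine Finset.mem_biUnion.mpr ⟨g, ?_, hxg⟩
            rw [hThp f hf]
            exact Finset.mem_filter.mpr ⟨hg, hr⟩
          · right
            exact Finset.mem_sdiff.mpr ⟨hfp f hx1, h⟩)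
        (hP.mono _ _ _ _ a8 (Finset.Subset.refl _) (hcl f hf))
        (Rk.anti hP (le_max_right _ _) hcon)
      exact (Finset.mem_filter.mp hg).2 (Rk.anti hP a7 hr)
    · exact hf (Rk.anti hP (le_max_left _ _) (Rk.mono hP Finset.sdiff_subset hcon))

end Pool.Agent.Lib.MP_b0c2b5_co.R3
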