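import Mathlib

/-!
# R3, E1: the second sample hits half as often as expected

`w` is a probability on the finite set `Y`, `S` has probability `p ≥ 1/m`, `n = 2 m l` with `l ≥ 4` independent samples `z j`. With probability at least `1/2` at least `l` samples are in `S`.
PROOF (Chebyshev, all sums finite). For a function `g` on `Fin n → Y` write `E g = ∑ z, (∏ j, w (z j)) * g z`. With the indicator `x j z = 1` if `z j ∈ S`, `H = ∑ j, x j` (the number of hits): `E 1 = 1`, `E (x j) = p`, `E (x j * x i) = p ^ 2` for `i ≠ j`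
(`Fintype.piFinset`/`Finset.prod_univ_sum`: `∑ z, ∏ j, F j (z j) = ∏ j, ∑ y, F j y`; use it with `F j y = w y * a j y`). Hence `E ((H - n p) ^ 2) = n (p - p ^ 2) ≤ n p`. If `H < l` then, as `n p ≥ 2 l` (because `n p ≥ n / m = 2 l`), `n p - H ≥ n p / 2`, so
`(H - n p) ^ 2 ≥ (n p) ^ 2 / 4`. Therefore `E [H < l] * (n p) ^ 2 / 4 ≤ n p`, i.e. `E [H < l] ≤ 4 / (n p) ≤ 4 / (2 l) ≤ 1/2`.
-/

set_option autoImplicit false

namespace Pool.Agent.Lib.MP_b0c2b5_co.R3

open Finset
open scoped Classical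

universe u v

private theorem E1_prod {Y : Type u} [Fintype Y] {n : ℕ} (F : Fin n → Y → ℝ) :
    ∑ z : Fin n → Y, ∏ j, F j (z j) = ∏ j, ∑ y, F j y := by
  rw [Finset.prod_univ_sum, Fintype.piFinset_univ]

private theorem E1_one {Y : Type u} [Fintype Y] {n : ℕ} (w : Y → ℝ) (h1 : ∑ y, w y = 1) :
    ∑ z : Fin n → Y, ∏ j, w (z j) = 1 := by
  rw [E1_prod (fun _ => w)]
  simp [h1]

private theorem E1_single {Y : Type u} [Fintype Y] {n : ℕ} (w : Y → ℝ) (h1 : ∑ y, w y = 1) (a : Y → ℝ)
    (i : Fin n) : ∑ z : Fin n → Y, (∏ j, w (z j)) * a (z i) = ∑ y, w y * a y := by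
  have h2 : ∀ z : Fin n → Y, (∏ j, w (z j)) * a (z i) =
      ∏ j, (w (z j) * (if j = i then a (z j) else 1)) := by
    intro z
    rw [Finset.prod_mul_distrib, Finset.prod_ite_eq' univ i (fun j => a (z j))]
    simp
  rw [Finset.sum_congr rfl (fun z _ => h2 z),
    E1_prod (fun j y => w y * (if j = i then a y else 1))]
  have h3 : ∀ j : Fin n, ∑ y, w y * (if j = i then a y else 1) = if j = i then ∑ y, w y * a y else 1 := by
    intro j
    by_cases hj : j = i
    · simp [hj]
    · simp [hj, h1]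
  rw [Finset.prod_congr rfl (fun j _ => h3 j), Finset.prod_ite_eq' univ i (fun _ => ∑ y, w y * a y)]
  simp

private theorem E1_pair {Y : Type u} [Fintype Y] {n : ℕ} (w : Y → ℝ) (a : Y → ℝ)
    (h0 : ∑ y, w y * a y = 0) {i i' : Fin n} (hi : i ≠ i') :
    ∑ z : Fin n → Y, (∏ j, w (z j)) * (a (z i) * a (z i')) = 0 := by
  have h2 : ∀ z : Fin n → Y, (∏ j, w (z j)) * (a (z i) * a (z i')) =
      ∏ j, (w (z j) * ((if j = i then a (z j) else 1) * (if j = i' then a (z j) else 1))) := by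
    intro z
    rw [Finset.prod_mul_distrib, Finset.prod_mul_distrib, Finset.prod_ite_eq' univ i (fun j => a (z j)),
      Finset.prod_ite_eq' univ i' (fun j => a (z j))]
    simp
  rw [Finset.sum_congr rfl (fun z _ => h2 z),
    E1_prod (fun j y => w y * ((if j = i then a y else 1) * (if j = i' then a y else 1)))]
  refine Finset.prod_eq_zero (Finset.mem_univ i) ?_
  simp only [if_true, if_neg hi, mul_one]
  exact h0

theorem half {Y : Type u} [Fintype Y] (w : Y → ℝ) (h0 : ∀ y, 0 ≤ w y) (h1 : ∑ y, w y = 1) (S : Finset Y)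
    (m l : ℕ) (hm : 0 < m) (hl : 4 ≤ l) (hS : 1 ≤ m * ∑ y ∈ S, w y) :
    (1 : ℝ) / 2 ≤ ∑ z : Fin (2 * m * l) → Y, (∏ j, w (z j)) *
      (if l ≤ (univ.filter (fun j => z j ∈ S)).card then 1 else 0) := by
  obtain ⟨n, hn⟩ : ∃ n, n = 2 * m * l := ⟨_, rfl⟩
  rw [← hn]
  obtain ⟨p, hp⟩ : ∃ p, p = ∑ y ∈ S, w y := ⟨_, rfl⟩
  rw [← hp] at hS
  set a : Y → ℝ := fun y => (if y ∈ S then 1 else 0) - p with ha
  have hsum1 : ∑ y, w y * (if y ∈ S then (1 : ℝ) else 0) = p := by
    rw [hp]
    simp [Finset.sum_ite_mem]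
  have hA : ∑ y, w y * a y = 0 := by
    simp only [ha, mul_sub]
    rw [Finset.sum_sub_distrib, hsum1, ← Finset.sum_mul, h1]
    ring
  have hA2 : ∑ y, w y * (a y * a y) = p - p ^ 2 := by
    have e : ∀ y, w y * (a y * a y) = w y * (if y ∈ S then (1 : ℝ) else 0) * (1 - 2 * p) + w y * p ^ 2 := by
      intro y
      by_cases hy : y ∈ S
      · simp only [ha, if_pos hy]; ring
      · simp only [ha, if_neg hy]; ring
    rw [Finset.sum_congr rfl (fun y _ => e y), Finset.sum_add_distrib, ← Finset.sum_mul, ← Finset.sum_mul,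
      hsum1, h1]
    ring
  have hWnn : ∀ z : Fin n → Y, 0 ≤ ∏ j, w (z j) := fun z => Finset.prod_nonneg fun j _ => h0 _
  -- the number of hits
  have hH : ∀ z : Fin n → Y, ((univ.filter (fun j => z j ∈ S)).card : ℝ) - n * p = ∑ j, a (z j) := by
    intro z
    simp only [ha]
    rw [Finset.sum_sub_distrib, Finset.sum_const, Finset.card_univ, Fintype.card_fin, nsmul_eq_mul,
      Finset.card_filter]
    push_cast
    rfl
  have hVar : ∑ z : Fin n → Y, (∏ j, w (z j)) * (∑ j, a (z j)) ^ 2 = n * (p - p ^ 2) := by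
    have e : ∀ z : Fin n → Y, (∏ j, w (z j)) * (∑ j, a (z j)) ^ 2 =
        ∑ i, ∑ i', (∏ j, w (z j)) * (a (z i) * a (z i')) := by
      intro z
      rw [sq, Finset.sum_mul_sum, Finset.mul_sum]
      refine Finset.sum_congr rfl fun i _ => ?_
      rw [Finset.mul_sum]
    rw [Finset.sum_congr rfl (fun z _ => e z), Finset.sum_comm]
    have e2 : ∀ i : Fin n, ∑ z : Fin n → Y, ∑ i', (∏ j, w (z j)) * (a (z i) * a (z i')) = p - p ^ 2 := by
      intro i
      rw [Finset.sum_comm, Finset.sum_eq_single i]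
      · rw [E1_single w h1 (fun y => a y * a y) i]
        exact hA2
      · intro i' _ hi
        exact E1_pair w a hA (Ne.symm hi)
      · intro h; exact absurd (Finset.mem_univ i) h
    rw [Finset.sum_congr rfl (fun i _ => e2 i), Finset.sum_const, Finset.card_univ, Fintype.card_fin,
      nsmul_eq_mul]
  have hmR : (0 : ℝ) < m := by exact_mod_cast hm
  have hnR : (n : ℝ) = 2 * m * l := by rw [hn]; push_cast; ring
  have hl4 : (4 : ℝ) ≤ l := by exact_mod_cast hl
  have hnp : 2 * (l : ℝ) ≤ n * p := by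
    have : (n : ℝ) * p = 2 * l * (m * p) := by rw [hnR]; ring
    rw [this]
    nlinarith
  have hp0 : 0 < p := by
    by_contra hneg
    push Not at hneg
    have : (m : ℝ) * p ≤ 0 := mul_nonpos_of_nonneg_of_nonpos hmR.le hneg
    linarith
  -- the probability of few hits
  have hsplit : ∑ z : Fin n → Y, (∏ j, w (z j)) *
      (if l ≤ (univ.filter (fun j => z j ∈ S)).card then (1 : ℝ) else 0) +
      ∑ z : Fin n → Y, (∏ j, w (z j)) *
      (if l ≤ (univ.filter (fun j => z j ∈ S)).card then (0 : ℝ) else 1) = 1 := by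
    rw [← Finset.sum_add_distrib]
    refine Eq.trans (Finset.sum_congr rfl fun z _ => ?_) (E1_one (n := n) w h1)
    split_ifs <;> ring
  have hfew : (n * p) ^ 2 / 4 * ∑ z : Fin n → Y, (∏ j, w (z j)) *
      (if l ≤ (univ.filter (fun j => z j ∈ S)).card then (0 : ℝ) else 1) ≤ n * (p - p ^ 2) := by
    rw [← hVar, Finset.mul_sum]
    refine Finset.sum_le_sum fun z _ => ?_
    have hk : (n * p) ^ 2 / 4 * (if l ≤ (univ.filter (fun j => z j ∈ S)).card then (0 : ℝ) else 1) ≤
        (∑ j, a (z j)) ^ 2 := by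
      by_cases hc : l ≤ (univ.filter (fun j => z j ∈ S)).card
      · rw [if_pos hc, mul_zero]
        positivity
      · rw [if_neg hc, mul_one, ← hH z]
        have hc' : ((univ.filter (fun j => z j ∈ S)).card : ℝ) < l := by
          push Not at hc
          exact_mod_cast hc
        nlinarith
    calc (n * p) ^ 2 / 4 * ((∏ j, w (z j)) *
        (if l ≤ (univ.filter (fun j => z j ∈ S)).card then (0 : ℝ) else 1))
        = (∏ j, w (z j)) * ((n * p) ^ 2 / 4 *
          (if l ≤ (univ.filter (fun j => z j ∈ S)).card then (0 : ℝ) else 1)) := by ring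
      _ ≤ (∏ j, w (z j)) * (∑ j, a (z j)) ^ 2 := mul_le_mul_of_nonneg_left hk (hWnn z)
  set P := ∑ z : Fin n → Y, (∏ j, w (z j)) *
      (if l ≤ (univ.filter (fun j => z j ∈ S)).card then (0 : ℝ) else 1) with hP
  have hPle : P ≤ 1 / 2 := by
    by_contra hneg
    push Not at hneg
    have hnpp : (8 : ℝ) ≤ n * p := by linarith
    have h5 : (n * p) ^ 2 / 4 * P ≤ n * p := hfew.trans (by
      have : 0 ≤ (n : ℝ) * p ^ 2 := by positivity
      nlinarith)
    have h6 : (n * p) ^ 2 / 4 * (1 / 2) < (n * p) ^ 2 / 4 * P := by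
      apply mul_lt_mul_of_pos_left hneg
      positivity
    have h7 : (n * p) * 8 ≤ (n * p) ^ 2 := by nlinarith
    linarith
  linarith

end Pool.Agent.Lib.MP_b0c2b5_co.R3
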