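import Pool.Agent.Lib.MP_b0c2b5_co.Mg.G001

/-!
# R3, E2: symmetrisation in the eps-net theorem

`w` is a probability on `Y`; `y, z : Fin n → Y` are two independent samples (weights `∏ j, w (y j)`, `∏ j, w (z j)`). The probability that some `S i` contains no `y j` and at least `l` of the `z j` is at most `(a (2n+1))^b / 2^l`.
PROOF. Let `W y z = (∏ j, w (y j)) * ∏ j, w (z j)` and let `Q y z` be the event (as a proposition). For `σ : Fin n → Bool` let `sw σ (y, z) = (y', z')` with `(y' j, z' j) = (z j, y j)` if `σ j = true`, and `(y j, z j)` otherwise. This is an involution of the pairs and preserves `W`, so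
`∑ (y,z), W y z * [Q y z] = ∑ (y,z), W y z * [Q (sw σ (y,z))]` for every `σ`; average over the `2^n` functions `σ`:
`2^n * ∑ (y,z), W y z [Q y z] = ∑ (y,z), W y z * #{σ : Q (sw σ (y,z))}`. CLAIM: `#{σ : Q (sw σ (y,z))} ≤ (a (2n+1))^b * 2^(n-l)` if `l ≤ n` (if `l > n` then `Q` is never true). As `∑ W = 1` we are done.
Proof of the claim: let `X` be the finite set of all `y j`, `z j`: at most `2n` elements. Whether `i` is a witness of `Q (sw σ (y,z))` depends only on the trace `X ∩ S i`, and there are at most `(a (|X|+1))^b ≤ (a (2n+1))^b` traces (`Trc`). For a fixed trace `R = X ∩ S i`: if `σ` is such that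
no `y' j` is in `R` and at least `l` of the `z' j` are in `R`, then let `J = {j : y j ∈ R or z j ∈ R}`: for `j ∈ J` exactly one of `y j`, `z j` is in `R` and `σ j` is determined (`σ j = true` iff `y j ∈ R`), and `|J| ≥ l`. So there are at most `2^(n-|J|) ≤ 2^(n-l)` such `σ`
(the set of the `σ` with prescribed values on `J`: inject it into the functions on the complement of `J`, or use `Finset.card_le_card_of_injOn` into `Fintype.piFinset`). The union over the traces: `Finset.card_biUnion_le_card_mul` or an injection.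
-/

set_option autoImplicit false

namespace Pool.Agent.Lib.MP_b0c2b5_co.R3

open Finset
open scoped Classical

universe u v

private theorem E2_trace {n : ℕ} {Y : Type u} (y z : Fin n → Y) (R : Finset Y) (l : ℕ) :
    (univ.filter (fun σ : Fin n → Bool => (∀ j, (if σ j = true then z j else y j) ∉ R) ∧
      l ≤ (univ.filter (fun j => (if σ j = true then y j else z j) ∈ R)).card)).card ≤
      2 ^ (n - l) := by
  set A := univ.filter (fun σ : Fin n → Bool => (∀ j, (if σ j = true then z j else y j) ∉ R) ∧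
      l ≤ (univ.filter (fun j => (if σ j = true then y j else z j) ∈ R)).card) with hA
  rcases A.eq_empty_or_nonempty with h | ⟨σ0, h0⟩
  · rw [h, card_empty]
    exact Nat.zero_le _
  set J : Finset (Fin n) := univ.filter (fun j => y j ∈ R ∨ z j ∈ R) with hJ
  have hl : l ≤ J.card := by
    refine (mem_filter.1 h0).2.2.trans (card_le_card ?_)
    intro j hj
    rw [mem_filter] at hj
    rw [hJ, mem_filter]
    refine ⟨mem_univ _, ?_⟩
    have := hj.2
    by_cases hs : σ0 j = true
    · rw [if_pos hs] at this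
      exact Or.inl this
    · rw [if_neg hs] at this
      exact Or.inr this
  have hdet : ∀ σ ∈ A, ∀ j ∈ J, (σ j = true ↔ z j ∉ R) := by
    intro σ hσ j hj
    have h1 := (mem_filter.1 hσ).2.1 j
    have h2 := (mem_filter.1 hj).2
    by_cases hs : σ j = true
    · rw [if_pos hs] at h1
      exact ⟨fun _ => h1, fun _ => hs⟩
    · rw [if_neg hs] at h1
      constructor
      · intro h
        exact absurd h hs
      · intro h
        exact absurd h2 (by
          rintro (h3 | h3)
          · exact h1 h3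
          · exact h h3)
  have hcard : Fintype.card ({j // j ∉ J} → Bool) = 2 ^ (n - J.card) := by
    rw [Fintype.card_fun, Fintype.card_bool, Fintype.card_subtype_compl, Fintype.card_fin,
      Fintype.card_coe]
  have hle : A.card ≤ (univ : Finset ({j // j ∉ J} → Bool)).card := by
    refine card_le_card_of_injOn (fun σ => fun j => σ j.1) (fun _ _ => mem_coe.2 (mem_univ _)) ?_
    intro σ hσ σ' hσ' he
    funext j
    by_cases hj : j ∈ J
    · have e1 := hdet σ (mem_coe.1 hσ) j hj
      have e2 := hdet σ' (mem_coe.1 hσ') j hj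
      have e3 : σ j = true ↔ σ' j = true := e1.trans e2.symm
      exact Bool.eq_iff_iff.2 e3
    · exact congrFun he ⟨j, hj⟩
  rw [card_univ, hcard] at hle
  exact hle.trans (Nat.pow_le_pow_right (by norm_num) (by omega))

private theorem E2_count {Y : Type u} {ι : Type v} [Fintype Y] (S : ι → Finset Y) (a b : ℕ)
    (hS : Trc S a b) (n l : ℕ) (y z : Fin n → Y) :
    (univ.filter (fun σ : Fin n → Bool => ∃ i, (∀ j, (if σ j = true then z j else y j) ∉ S i) ∧
      l ≤ (univ.filter (fun j => (if σ j = true then y j else z j) ∈ S i)).card)).card ≤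
      (a * (2 * n + 1)) ^ b * 2 ^ (n - l) := by
  set X : Finset Y := univ.image y ∪ univ.image z with hX
  have hyX : ∀ j, y j ∈ X := fun j => mem_union_left _ (mem_image_of_mem _ (mem_univ _))
  have hzX : ∀ j, z j ∈ X := fun j => mem_union_right _ (mem_image_of_mem _ (mem_univ _))
  have hXc : X.card ≤ 2 * n := by
    refine (card_union_le _ _).trans ?_
    have h1 : (univ.image y).card ≤ n := by
      refine card_image_le.trans ?_
      rw [card_univ, Fintype.card_fin]
    have h2 : (univ.image z).card ≤ n := by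
      refine card_image_le.trans ?_
      rw [card_univ, Fintype.card_fin]
    omega
  set T : Finset (Finset Y) := (Set.toFinite (Set.range (fun i => X ∩ S i))).toFinset with hT
  have hTc : T.card ≤ (a * (2 * n + 1)) ^ b := by
    rw [hT, ← Set.ncard_eq_toFinset_card]
    exact (hS X).trans (Nat.pow_le_pow_left (Nat.mul_le_mul_left _ (by omega)) _)
  have hsub : (univ.filter (fun σ : Fin n → Bool => ∃ i, (∀ j, (if σ j = true then z j else y j) ∉ S i) ∧
      l ≤ (univ.filter (fun j => (if σ j = true then y j else z j) ∈ S i)).card)) ⊆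
      T.biUnion (fun R => univ.filter (fun σ : Fin n → Bool =>
        (∀ j, (if σ j = true then z j else y j) ∉ R) ∧
        l ≤ (univ.filter (fun j => (if σ j = true then y j else z j) ∈ R)).card)) := by
    intro σ hσ
    obtain ⟨i, h1, h2⟩ := (mem_filter.1 hσ).2
    rw [mem_biUnion]
    refine ⟨X ∩ S i, (Set.Finite.mem_toFinset _).2 ⟨i, rfl⟩, mem_filter.2 ⟨mem_univ _, ?_, ?_⟩⟩
    · intro j hj
      exact h1 j (mem_inter.1 hj).2
    · refine h2.trans (card_le_card ?_)
      intro j hj
      rw [mem_filter] at hj ⊢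
      refine ⟨mem_univ _, mem_inter.2 ⟨?_, hj.2⟩⟩
      split_ifs
      · exact hyX j
      · exact hzX j
  refine (card_le_card hsub).trans ?_
  refine (card_biUnion_le_card_mul _ _ _ (fun R _ => E2_trace y z R l)).trans ?_
  exact Nat.mul_le_mul_right _ hTc

theorem sym {Y : Type u} {ι : Type v} [Fintype Y] (S : ι → Finset Y) (a b : ℕ) (hS : Trc S a b)
    (w : Y → ℝ) (h0 : ∀ y, 0 ≤ w y) (h1 : ∑ y, w y = 1) (n l : ℕ) :
    ∑ y : Fin n → Y, ∑ z : Fin n → Y, (∏ j, w (y j)) * (∏ j, w (z j)) *
      (if ∃ i, (∀ j, y j ∉ S i) ∧ l ≤ (univ.filter (fun j => z j ∈ S i)).card then 1 else 0) ≤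
      ((a * (2 * n + 1)) ^ b : ℕ) * (1 / 2 : ℝ) ^ l := by
  by_cases hln : n < l
  · have hz : ∀ y z : Fin n → Y, ¬ ∃ i, (∀ j, y j ∉ S i) ∧
        l ≤ (univ.filter (fun j => z j ∈ S i)).card := by
      rintro y z ⟨i, _, h⟩
      have h2 : (univ.filter (fun j => z j ∈ S i)).card ≤ n := by
        refine (card_filter_le _ _).trans ?_
        rw [card_univ, Fintype.card_fin]
      omega
    have : ∑ y : Fin n → Y, ∑ z : Fin n → Y, (∏ j, w (y j)) * (∏ j, w (z j)) *
      (if ∃ i, (∀ j, y j ∉ S i) ∧ l ≤ (univ.filter (fun j => z j ∈ S i)).card then (1 : ℝ) else 0)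
        = 0 := by
      refine sum_eq_zero fun y _ => sum_eq_zero fun z _ => ?_
      rw [if_neg (hz y z), mul_zero]
    rw [this]
    positivity
  have hln' : l ≤ n := by omega
  -- swapping
  let sw : (Fin n → Bool) → (Fin n → Y) × (Fin n → Y) → (Fin n → Y) × (Fin n → Y) := fun σ p =>
    (fun j => if σ j = true then p.2 j else p.1 j, fun j => if σ j = true then p.1 j else p.2 j)
  have hinv : ∀ σ, Function.Involutive (sw σ) := by
    intro σ p
    apply Prod.ext
    · funext j
      show (if σ j = true then (if σ j = true then p.1 j else p.2 j)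
        else (if σ j = true then p.2 j else p.1 j)) = p.1 j
      split_ifs <;> rfl
    · funext j
      show (if σ j = true then (if σ j = true then p.2 j else p.1 j)
        else (if σ j = true then p.1 j else p.2 j)) = p.2 j
      split_ifs <;> rfl
  let W : (Fin n → Y) × (Fin n → Y) → ℝ := fun p => (∏ j, w (p.1 j)) * (∏ j, w (p.2 j))
  have hW0 : ∀ p, 0 ≤ W p := fun p =>
    mul_nonneg (prod_nonneg fun j _ => h0 _) (prod_nonneg fun j _ => h0 _)
  have hWsw : ∀ σ p, W (sw σ p) = W p := by
    intro σ p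
    show (∏ j, w (if σ j = true then p.2 j else p.1 j)) *
      (∏ j, w (if σ j = true then p.1 j else p.2 j)) = (∏ j, w (p.1 j)) * (∏ j, w (p.2 j))
    rw [← prod_mul_distrib, ← prod_mul_distrib]
    refine prod_congr rfl fun j _ => ?_
    split_ifs
    · ring
    · rfl
  have hWsum : ∑ p, W p = 1 := by
    have e1 : ∑ y : Fin n → Y, ∏ j, w (y j) = 1 := by
      have := Finset.prod_univ_sum (fun _ : Fin n => (univ : Finset Y)) (fun _ x => w x)
      rw [Fintype.piFinset_univ] at this
      rw [← this]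
      simp [h1]
    rw [Fintype.sum_prod_type]
    show ∑ y : Fin n → Y, ∑ z : Fin n → Y, (∏ j, w (y j)) * (∏ j, w (z j)) = 1
    rw [← sum_mul_sum, e1, one_mul]
  let Q : (Fin n → Y) × (Fin n → Y) → Prop := fun p =>
    ∃ i, (∀ j, p.1 j ∉ S i) ∧ l ≤ (univ.filter (fun j => p.2 j ∈ S i)).card
  have hL : ∑ y : Fin n → Y, ∑ z : Fin n → Y, (∏ j, w (y j)) * (∏ j, w (z j)) *
      (if ∃ i, (∀ j, y j ∉ S i) ∧ l ≤ (univ.filter (fun j => z j ∈ S i)).card then (1 : ℝ) else 0)
        = ∑ p, W p * (if Q p then (1 : ℝ) else 0) := by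
    rw [Fintype.sum_prod_type]
  rw [hL]
  have hσ : ∀ σ : Fin n → Bool, ∑ p, W p * (if Q p then (1 : ℝ) else 0) =
      ∑ p, W p * (if Q (sw σ p) then (1 : ℝ) else 0) := by
    intro σ
    rw [← Equiv.sum_comp (Function.Involutive.toPerm (sw σ) (hinv σ))
      (fun p => W p * (if Q p then (1 : ℝ) else 0))]
    refine sum_congr rfl fun p _ => ?_
    show W (sw σ p) * (if Q (sw σ p) then (1 : ℝ) else 0) = _
    rw [hWsw]
  have hav : (2 : ℝ) ^ n * ∑ p, W p * (if Q p then (1 : ℝ) else 0) =
      ∑ p, W p * ((univ.filter (fun σ : Fin n → Bool => Q (sw σ p))).card : ℝ) := by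
    have e1 : ∑ _σ : Fin n → Bool, ∑ p, W p * (if Q p then (1 : ℝ) else 0) =
        (2 : ℝ) ^ n * ∑ p, W p * (if Q p then (1 : ℝ) else 0) := by
      rw [sum_const, card_univ, Fintype.card_fun, Fintype.card_bool, Fintype.card_fin,
        nsmul_eq_mul]
      push_cast
      rfl
    rw [← e1, sum_congr rfl (fun σ _ => hσ σ), sum_comm]
    refine sum_congr rfl fun p _ => ?_
    rw [← mul_sum]
    congr 1
    rw [sum_boole]
  have hcl : ∀ p, ((univ.filter (fun σ : Fin n → Bool => Q (sw σ p))).card : ℝ) ≤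
      (((a * (2 * n + 1)) ^ b : ℕ) : ℝ) * 2 ^ (n - l) := by
    intro p
    have h := E2_count S a b hS n l p.1 p.2
    have h' : ((univ.filter (fun σ : Fin n → Bool => Q (sw σ p))).card : ℝ) ≤
        (((a * (2 * n + 1)) ^ b * 2 ^ (n - l) : ℕ) : ℝ) := by exact_mod_cast h
    refine h'.trans (le_of_eq ?_)
    push_cast
    rfl
  have hfin : (2 : ℝ) ^ n * ∑ p, W p * (if Q p then (1 : ℝ) else 0) ≤
      (((a * (2 * n + 1)) ^ b : ℕ) : ℝ) * 2 ^ (n - l) := by
    rw [hav]
    calc ∑ p, W p * ((univ.filter (fun σ : Fin n → Bool => Q (sw σ p))).card : ℝ) ≤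
        ∑ p, W p * ((((a * (2 * n + 1)) ^ b : ℕ) : ℝ) * 2 ^ (n - l)) :=
          sum_le_sum fun p _ => mul_le_mul_of_nonneg_left (hcl p) (hW0 p)
      _ = (((a * (2 * n + 1)) ^ b : ℕ) : ℝ) * 2 ^ (n - l) := by
          rw [← sum_mul, hWsum, one_mul]
  have h2n : (0 : ℝ) < 2 ^ n := by positivity
  have hpow : (2 : ℝ) ^ (n - l) = 2 ^ n * (1 / 2) ^ l := by
    have e : (2 : ℝ) ^ n = 2 ^ (n - l) * 2 ^ l := by
      rw [← pow_add, Nat.sub_add_cancel hln']
    rw [e, mul_assoc, ← mul_pow]
    norm_num
  rw [hpow] at hfin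
  have : (2 : ℝ) ^ n * ∑ p, W p * (if Q p then (1 : ℝ) else 0) ≤
      2 ^ n * ((((a * (2 * n + 1)) ^ b : ℕ) : ℝ) * (1 / 2) ^ l) := by
    refine hfin.trans (le_of_eq ?_)
    ring
  exact le_of_mul_le_mul_left this h2n

end Pool.Agent.Lib.MP_b0c2b5_co.R3
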