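import Mathlib

/-!
# R3, E3: a polynomial is smaller than an exponential

PROOF. `(a * (2 * (2 * m * l) + 1)) ^ b ≤ (a * (4 * m + 1) * l) ^ b` for `l ≥ 1`, and `l ^ b / 2 ^ l → 0` (`tendsto_pow_const_div_const_pow_of_one_lt` or `tendsto_pow_const_mul_const_pow_of_abs_lt_one`), so the statement holds for all large `l`; take also `l ≥ 4` (`Filter.Eventually.and`, `.exists`).
-/

set_option autoImplicit false

namespace Pool.Agent.Lib.MP_b0c2b5_co.R3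

theorem grow (a b m : ℕ) : ∃ l : ℕ, 4 ≤ l ∧
    (((a * (2 * (2 * m * l) + 1)) ^ b : ℕ) : ℝ) * (1 / 2 : ℝ) ^ l < 1 / 2 := by
  have h1 : Filter.Tendsto (fun n : ℕ => (n : ℝ) ^ b * (1 / 2 : ℝ) ^ n) Filter.atTop (nhds 0) :=
    tendsto_pow_const_mul_const_pow_of_abs_lt_one b (show |(1 / 2 : ℝ)| < 1 by rw [abs_of_pos (show (0 : ℝ) < 1 / 2 by norm_num)]; norm_num)
  have h2 := h1.const_mul ((((a * (4 * m + 1)) ^ b : ℕ) : ℝ))
  rw [mul_zero] at h2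
  have h3 : ∀ᶠ n : ℕ in Filter.atTop,
      (((a * (4 * m + 1)) ^ b : ℕ) : ℝ) * ((n : ℝ) ^ b * (1 / 2 : ℝ) ^ n) < 1 / 2 :=
    h2.eventually_lt_const (show (0 : ℝ) < 1 / 2 by norm_num)
  obtain ⟨l, hl, hl4⟩ := (h3.and (Filter.eventually_ge_atTop 4)).exists
  refine ⟨l, hl4, lt_of_le_of_lt ?_ hl⟩
  rw [← mul_assoc (((a * (4 * m + 1)) ^ b : ℕ) : ℝ)]
  have hp : (0 : ℝ) ≤ (1 / 2 : ℝ) ^ l := by positivity
  refine mul_le_mul_of_nonneg_right ?_ hp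
  have h4 : (a * (2 * (2 * m * l) + 1)) ^ b ≤ (a * (4 * m + 1)) ^ b * l ^ b := by
    rw [← mul_pow]
    refine Nat.pow_le_pow_left ?_ b
    have h5 : 2 * (2 * m * l) + 1 ≤ (4 * m + 1) * l := by nlinarith
    calc a * (2 * (2 * m * l) + 1) ≤ a * ((4 * m + 1) * l) := Nat.mul_le_mul_left a h5
      _ = a * (4 * m + 1) * l := by ring
  exact_mod_cast h4

end Pool.Agent.Lib.MP_b0c2b5_co.R3
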