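import Pool.Agent.Lib.MP_b0c2b5_co.R3.E1
import Pool.Agent.Lib.MP_b0c2b5_co.R3.E2
import Pool.Agent.Lib.MP_b0c2b5_co.R3.E3

/-!
# R3, E4: the eps-net theorem

PROOF. `l` from `grow`, `n = 2 * m * l`, `k = n`. If `∑ y, w y = 0`: `E = ∅` (no `i` has `0 < ∑ y ∈ S i, w y`). Otherwise divide `w` by its sum (both inequalities are homogeneous); so `∑ w = 1`. Suppose no `E` with at most `n` elements works. For every `y : Fin n → Y` take `E = univ.image y`:
there is `i = i y` with `1 ≤ m * ∑ y ∈ S i, w y` such that no `y j` is in `S i`. By `half` for `S (i y)`: `1/2 ≤ ∑ z, (∏ j, w (z j)) * [l ≤ hits]`; multiply by `∏ j, w (y j)` and sum over `y` (`∑ y, ∏ j, w (y j) = 1` by `Finset.prod_univ_sum`/`Fintype.sum_pow`-like lemma `Finset.sum_prod_piFinset` or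
`(Finset.prod_univ_sum ..).symm`): the left-hand side of `sym` is `≥ 1/2`. This contradicts `sym` and `grow`.

`Trc.inter`: `X ∩ (S i ∩ U) = (X ∩ U) ∩ S i`, so the traces of the new family on `X` are the traces of the old one on `X ∩ U`, at most `(a (|X ∩ U|+1))^b ≤ (a (|X|+1))^b`.
-/

set_option autoImplicit false

namespace Pool.Agent.Lib.MP_b0c2b5_co.R3

open Finset
open scoped Classical

universe u v

theorem epsnet (a b m : ℕ) (hm : 0 < m) : ∃ k : ℕ, ∀ (Y : Type u) (ι : Type v) [Fintype Y] (S : ι → Finset Y),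
    Trc S a b → ∀ w : Y → ℝ, (∀ y, 0 ≤ w y) → ∃ E : Finset Y, E.card ≤ k ∧
      ∀ i, 0 < ∑ y ∈ S i, w y → ∑ y, w y ≤ m * ∑ y ∈ S i, w y → ∃ y ∈ E, y ∈ S i := by
  obtain ⟨l, hl, hgrow⟩ := grow a b m
  refine ⟨2 * m * l, ?_⟩
  intro Y ι _ S hS w h0
  have hW0 : 0 ≤ ∑ y, w y := Finset.sum_nonneg fun y _ => h0 y
  rcases hW0.eq_or_lt with hW | hW
  · refine ⟨∅, by simp, ?_⟩
    intro i hi _
    exfalso
    have h1 : ∑ y ∈ S i, w y ≤ ∑ y, w y :=
      Finset.sum_le_sum_of_subset_of_nonneg (Finset.subset_univ _) fun y _ _ => h0 y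
    linarith
  · by_contra hcon
    push Not at hcon
    have hw0 : ∀ y, 0 ≤ w y / ∑ y, w y := fun y => div_nonneg (h0 y) hW.le
    have hw1 : ∑ y, (w y / ∑ y, w y) = 1 := by
      rw [← Finset.sum_div]
      exact div_self hW.ne'
    have hch : ∀ y : Fin (2 * m * l) → Y, ∃ i, (1 ≤ (m : ℝ) * ∑ z ∈ S i, (w z / ∑ y, w y)) ∧
        ∀ j, y j ∉ S i := by
      intro y
      obtain ⟨i, _, h2, h3⟩ := hcon (univ.image y) (by
        refine Finset.card_image_le.trans ?_
        rw [Finset.card_univ, Fintype.card_fin])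
      refine ⟨i, ?_, fun j => h3 (y j) (Finset.mem_image_of_mem _ (Finset.mem_univ j))⟩
      rw [← Finset.sum_div, ← mul_div_assoc, le_div_iff₀ hW, one_mul]
      exact h2
    have hone : ∑ y : Fin (2 * m * l) → Y, ∏ j, (w (y j) / ∑ y, w y) = 1 := by
      rw [← Fintype.sum_pow (fun y => w y / ∑ y, w y), hw1, one_pow]
    have hlow : (1 : ℝ) / 2 ≤ ∑ y : Fin (2 * m * l) → Y, ∑ z : Fin (2 * m * l) → Y,
        (∏ j, (w (y j) / ∑ y, w y)) * (∏ j, (w (z j) / ∑ y, w y)) *
        (if ∃ i, (∀ j, y j ∉ S i) ∧ l ≤ (univ.filter (fun j => z j ∈ S i)).card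
          then 1 else 0) := by
      calc (1 : ℝ) / 2 = ∑ y : Fin (2 * m * l) → Y, (∏ j, (w (y j) / ∑ y, w y)) * (1 / 2) := by
            rw [← Finset.sum_mul, hone, one_mul]
        _ ≤ _ := by
            refine Finset.sum_le_sum fun y _ => ?_
            obtain ⟨i, h1, h2⟩ := hch y
            have hp : 0 ≤ ∏ j, (w (y j) / ∑ y, w y) := Finset.prod_nonneg fun j _ => hw0 _
            have hh := half (fun y => w y / ∑ y, w y) hw0 hw1 (S i) m l hm hl h1
            calc (∏ j, (w (y j) / ∑ y, w y)) * (1 / 2)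
                ≤ (∏ j, (w (y j) / ∑ y, w y)) * ∑ z : Fin (2 * m * l) → Y,
                  (∏ j, (w (z j) / ∑ y, w y)) *
                    (if l ≤ (univ.filter (fun j => z j ∈ S i)).card then 1 else 0) :=
                  mul_le_mul_of_nonneg_left hh hp
              _ ≤ _ := by
                  rw [Finset.mul_sum]
                  refine Finset.sum_le_sum fun z _ => ?_
                  rw [← mul_assoc]
                  refine mul_le_mul_of_nonneg_left ?_
                    (mul_nonneg hp (Finset.prod_nonneg fun j _ => hw0 _))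
                  by_cases h3 : l ≤ (univ.filter (fun j => z j ∈ S i)).card
                  · rw [if_pos h3, if_pos ⟨i, h2, h3⟩]
                  · rw [if_neg h3]
                    split_ifs
                    · exact zero_le_one
                    · exact le_rfl
    have hs := sym S a b hS (fun y => w y / ∑ y, w y) hw0 hw1 (2 * m * l) l
    have hgrow' : (((a * (2 * (2 * m * l) + 1)) ^ b : ℕ) : ℝ) * (1 / 2 : ℝ) ^ l < 1 / 2 := hgrow
    exact absurd (hlow.trans hs) (not_le.2 hgrow')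

theorem Trc.inter {Y : Type u} {ι : Type v} {S : ι → Finset Y} {a b : ℕ} (h : Trc S a b) (U : Finset Y) :
    Trc (fun i => S i ∩ U) a b := by
  intro X
  have h1 : Set.range (fun i => X ∩ (S i ∩ U)) = Set.range (fun i => (X ∩ U) ∩ S i) := by
    congr 1
    funext i
    ext x
    simp only [Finset.mem_inter]
    tauto
  have h2 := h (X ∩ U)
  have h3 : (X ∩ U).card ≤ X.card := Finset.card_le_card Finset.inter_subset_left
  show Set.ncard (Set.range (fun i => X ∩ (S i ∩ U))) ≤ (a * (X.card + 1)) ^ b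
  rw [h1]
  refine h2.trans ?_
  exact Nat.pow_le_pow_left (Nat.mul_le_mul_left a (by omega)) b

end Pool.Agent.Lib.MP_b0c2b5_co.R3
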