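import Mathlib

/-!
# R3, FB: counting functions along one or two coordinates

PROOF of `fib1`. Double count the pairs `(ω, s)` with `E (update ω p s)`: for fixed `ω` there are `n ω` values `s` with `m * n ω ≤ T`, so `m *` the number of pairs is `≤ T * T ^ card ι`. On the other hand every `ω'` with `E ω'` arises from exactly `T` pairs: `s = ω' p` and `ω = update ω' p x`, `x : Fin T`.
So `m * T * #E ≤ T * T ^ card ι`. If `T > 0` divide; if `T = 0` there are no functions `ω` (`p : ι`), `#E = 0`. PROOF of `fib2`: the same with pairs `(x, x')` (`p ≠ p'`): every `ω'` arises from exactly `T * T` triples.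
-/

set_option autoImplicit false

namespace Pool.Agent.Lib.MP_b0c2b5_co.R3

open Finset
open scoped Classical

universe u

private theorem FB_aux {Ω A : Type*} [Fintype Ω] [Fintype A] (f : Ω → A → Ω) (g : Ω → A)
    (hf : ∀ ω s, f (f ω s) (g ω) = ω) (hg : ∀ ω s, g (f ω s) = s) (E : Ω → Prop) (m K : ℕ)
    (h : ∀ ω, m * (univ.filter (fun s : A => E (f ω s))).card ≤ K) :
    m * (Fintype.card A * (univ.filter E).card) ≤ K * Fintype.card Ω := by
  have hinv : Function.Involutive (fun q : Ω × A => (f q.1 q.2, g q.1)) := by
    intro q
    exact Prod.ext (hf q.1 q.2) (hg q.1 q.2)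
  have h1 : ∑ ω, (univ.filter (fun s : A => E (f ω s))).card =
      ∑ q : Ω × A, (if E (f q.1 q.2) then 1 else 0) := by
    rw [Fintype.sum_prod_type]
    exact Finset.sum_congr rfl (fun ω _ => Finset.card_filter _ _)
  have h2 : ∑ q : Ω × A, (if E (f q.1 q.2) then 1 else 0) =
      ∑ q : Ω × A, (if E q.1 then 1 else 0) :=
    Equiv.sum_comp hinv.toPerm (fun q : Ω × A => if E q.1 then 1 else 0)
  have h3 : ∑ q : Ω × A, (if E q.1 then 1 else 0) = Fintype.card A * (univ.filter E).card := by
    rw [Fintype.sum_prod_type, Finset.card_filter, Finset.mul_sum]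
    refine Finset.sum_congr rfl (fun ω _ => ?_)
    show ∑ _y : A, (if E ω then 1 else 0) = _
    rw [Finset.sum_const, Finset.card_univ, smul_eq_mul]
  rw [← h3, ← h2, ← h1, Finset.mul_sum]
  calc ∑ ω, m * (univ.filter (fun s : A => E (f ω s))).card ≤ ∑ _ω : Ω, K :=
        Finset.sum_le_sum (fun ω _ => h ω)
    _ = K * Fintype.card Ω := by
        rw [Finset.sum_const, Finset.card_univ, smul_eq_mul, Nat.mul_comm]

theorem fib1 {ι : Type u} [Fintype ι] {T : ℕ} (p : ι) (E : (ι → Fin T) → Prop) (m : ℕ)
    (h : ∀ ω, m * (univ.filter (fun s : Fin T => E (Function.update ω p s))).card ≤ T) :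
    m * (univ.filter E).card ≤ T ^ Fintype.card ι := by
  have hc : Fintype.card (ι → Fin T) = T ^ Fintype.card ι := by
    rw [Fintype.card_fun, Fintype.card_fin]
  rcases Nat.eq_zero_or_pos T with hT | hT
  · subst hT
    have h0 : (univ.filter E) = ∅ := by
      refine Finset.eq_empty_of_forall_notMem (fun ω _ => ?_)
      exact Fin.elim0 (ω p)
    rw [h0, Finset.card_empty, Nat.mul_zero]
    exact Nat.zero_le _
  · have h1 := FB_aux (fun (ω : ι → Fin T) (s : Fin T) => Function.update ω p s)
      (fun ω => ω p) (fun ω s => by
        show Function.update (Function.update ω p s) p (ω p) = ω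
        rw [Function.update_idem, Function.update_eq_self])
      (fun ω s => by
        show Function.update ω p s p = s
        rw [Function.update_self]) E m T h
    rw [hc, Fintype.card_fin] at h1
    refine Nat.le_of_mul_le_mul_left ?_ hT
    calc T * (m * (univ.filter E).card) = m * (T * (univ.filter E).card) := by ring
      _ ≤ T * T ^ Fintype.card ι := h1

theorem fib2 {ι : Type u} [Fintype ι] {T : ℕ} (p p' : ι) (hp : p ≠ p') (E : (ι → Fin T) → Prop) (m : ℕ)
    (h : ∀ ω, m * (univ.filter (fun s : Fin T × Fin T =>
      E (Function.update (Function.update ω p s.1) p' s.2))).card ≤ T * T) :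
    m * (univ.filter E).card ≤ T ^ Fintype.card ι := by
  have hc : Fintype.card (ι → Fin T) = T ^ Fintype.card ι := by
    rw [Fintype.card_fun, Fintype.card_fin]
  rcases Nat.eq_zero_or_pos T with hT | hT
  · subst hT
    have h0 : (univ.filter E) = ∅ := by
      refine Finset.eq_empty_of_forall_notMem (fun ω _ => ?_)
      exact Fin.elim0 (ω p)
    rw [h0, Finset.card_empty, Nat.mul_zero]
    exact Nat.zero_le _
  · have h1 := FB_aux (fun (ω : ι → Fin T) (s : Fin T × Fin T) =>
        Function.update (Function.update ω p s.1) p' s.2)
      (fun ω => (ω p, ω p')) (fun ω s => by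
        show Function.update (Function.update (Function.update (Function.update ω p s.1) p' s.2)
          p (ω p)) p' (ω p') = ω
        funext i
        by_cases h1 : i = p'
        · subst h1
          rw [Function.update_self]
        · rw [Function.update_of_ne h1]
          by_cases h2 : i = p
          · subst h2
            rw [Function.update_self]
          · rw [Function.update_of_ne h2, Function.update_of_ne h1, Function.update_of_ne h2])
      (fun ω s => by
        show (Function.update (Function.update ω p s.1) p' s.2 p,
          Function.update (Function.update ω p s.1) p' s.2 p') = s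
        rw [Function.update_self, Function.update_of_ne hp, Function.update_self]) E m (T * T) h
    rw [hc, Fintype.card_prod, Fintype.card_fin] at h1
    refine Nat.le_of_mul_le_mul_left ?_ (Nat.mul_pos hT hT)
    calc T * T * (m * (univ.filter E).card) = m * (T * T * (univ.filter E).card) := by ring
      _ ≤ T * T * T ^ Fintype.card ι := h1

end Pool.Agent.Lib.MP_b0c2b5_co.R3
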