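import Pool.Agent.Lib.MP_b0c2b5_co.R3.RkB

/-!
# R3, Rank: the rank is bounded

PROOF. We may assume that `F` is nonempty (otherwise `Rk P A (C+1) k0 Z` is false: no `f`, `G = ∅` covers). From `star` choose for every `x` a function `W x : Fin C → F` with: for all `f` with `x ∈ A f`, `x ∉ Ub f`: `P c (A f \ (univ.image (W x)).biUnion A)` (enumerate the finset, which has at most `C` elements, and fill up with any element of `F`;
a larger finset makes the difference smaller, `Scl.mono`. If `C = 0` the finset is empty.)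
CLAIM. For every `j ≤ C` and every `g : ℕ` there is `k` such that: if `I : Finset (Fin C)` has `C - j` elements, `G : Finset F` has at most `g` elements, `Z` is a set such that `P c (A (W x i) \ G.biUnion A)` for all `x ∈ Z`, `i ∈ I`, then `¬ Rk P A (j+1) k Z`. (`k` depends on `j, g, C, c, w, q` only; the theorem is `j = C`, `g = 0`, `I = ∅`, `G = ∅`.)
`j = 0`: `I = univ`. `k := max g ((C+1) * c + 1)` or larger. Let `Rk P A 1 k Z`; as `|G| ≤ k` there is `f` with `¬ P k (Z ∩ A f)` and `¬ P k (A f \ G.biUnion A)`. `Z ∩ A f` is not contained in `Ub f` (`P c (Ub f)`, `c ≤ k`): let `x ∈ Z ∩ A f`, `x ∉ Ub f`. Then `P c (A f \ (image (W x)).biUnion A)`, and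
`A f \ G.biUnion A ⊆ (A f \ (image (W x)).biUnion A) ∪ ⋃ i, (A (W x i) \ G.biUnion A)`, so `P ((C+1) * c) (A f \ G.biUnion A)`: contradiction.
`j → j + 1`: let `k1 := (2 * C + 1) * c` and `R := q k1` (size of witnesses), `k2` the constant of the claim for `j` and `g + C`, `k := max` of `g`, `w k1`, `((C * R) + 1) * max k2 c`. Let `Rk P A (j+2) k Z`. As `|G| ≤ k` there is `f` with `Rk P A (j+1) k (Z ∩ A f)` and `¬ P k (A f \ G.biUnion A)`, so there is
`Y ⊆ A f \ G.biUnion A` with `|Y| ≤ R`, `¬ P k1 Y`. For every `x ∈ Z ∩ A f`, `x ∉ Ub f` there are `y ∈ Y` and `i ∉ I` with `y ∈ A (W x i)`, `y ∉ Ub (W x i)`: otherwise `Y ⊆ (A f \ (image (W x)).biUnion A) ∪ ⋃_{i ∈ I} (A (W x i) \ G.biUnion A) ∪ ⋃_i Ub (W x i)`, which is small with constant `(1 + C + C) * c = k1`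
(note `y ∉ G.biUnion A`, so `y ∈ A (W x i)`, `i ∈ I`, puts `y` into `A (W x i) \ G.biUnion A`). So `Z ∩ A f ⊆ ⋃_{(i, y)} Z_{i,y} ∪ Ub f` with the `≤ C * R` sets `Z_{i,y} = {x ∈ Z ∩ A f : y ∈ A (W x i), y ∉ Ub (W x i)}`, `i ∉ I`, `y ∈ Y`. By `Rk.addn` (after `Rk.anti`) some `Z_{i,y}` has `Rk P A (j+1) (max k2 c) Z_{i,y}`, so
`Rk P A (j+1) k2 Z_{i,y}`. By `star` at `y`: `P c (A (W x i) \ (image (W y)).biUnion A)` for all `x ∈ Z_{i,y}`. So the claim for `j`, `I ∪ {i}`, `G ∪ image (W y)` gives a contradiction.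
-/

set_option autoImplicit false

namespace Pool.Agent.Lib.MP_b0c2b5_co.R3

open Finset
open scoped Classical

universe u v

private theorem Rank_biUnion {X : Type u} {P : ℕ → Finset X → Prop} (hP : Scl P) {ι : Type*} (s : Finset ι) (k : ℕ)
    (Z : ι → Finset X) (h : ∀ i ∈ s, P k (Z i)) : P (s.card * k) (s.biUnion Z) := by
  classical
  induction s using Finset.induction_on with
  | empty => simpa using hP.emp
  | insert a s ha ih =>
    rw [Finset.card_insert_of_notMem ha, Finset.biUnion_insert, Nat.add_mul, Nat.one_mul, Nat.add_comm]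
    exact hP.union _ _ _ _ (h a (Finset.mem_insert_self a s)) (ih fun i hi => h i (Finset.mem_insert_of_mem hi))

private theorem Rank_enum {F : Type v} [Nonempty F] (C : ℕ) (W : Finset F) (hW : W.card ≤ C) :
    ∃ φ : Fin C → F, W ⊆ univ.image φ := by
  classical
  refine ⟨fun i => if h : i.1 < W.card then (W.equivFin.symm ⟨i.1, h⟩).1 else Classical.arbitrary F, ?_⟩
  intro x hx
  have hlt := (W.equivFin ⟨x, hx⟩).2
  refine Finset.mem_image.2 ⟨⟨(W.equivFin ⟨x, hx⟩).1, lt_of_lt_of_le hlt hW⟩, Finset.mem_univ _, ?_⟩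
  simp [hlt]

private theorem Rank_claim (C c : ℕ) (w q : ℕ → ℕ) : ∀ j : ℕ, j ≤ C → ∀ g : ℕ, ∃ k : ℕ, ∀ (X : Type u) (F : Type v)
    (P : ℕ → Finset X → Prop), Scl P → FW P w q → ∀ (A Ub : F → Finset X), (∀ f, P c (Ub f)) →
    ∀ (W : X → Fin C → F), (∀ x f, x ∈ A f → x ∉ Ub f → P c (A f \ (univ.image (W x)).biUnion A)) →
    ∀ (I : Finset (Fin C)), I.card = C - j → ∀ (G : Finset F), G.card ≤ g → ∀ Z : Finset X,
    (∀ x ∈ Z, ∀ i ∈ I, P c (A (W x i) \ G.biUnion A)) → ¬ Rk P A (j + 1) k Z := by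
  intro j
  induction j with
  | zero =>
    intro _ g
    refine ⟨max g ((C + 1) * c), ?_⟩
    intro X F P hP hFW A Ub hUb W hW I hI G hG Z hZ hR
    apply hR
    refine ⟨G, hG.trans (le_max_left _ _), ?_⟩
    intro f hf
    have hI' : I = univ := by
      rw [← Finset.card_eq_iff_eq_univ, hI, Fintype.card_fin]; rfl
    obtain ⟨x, hx, hxU⟩ : ∃ x ∈ Z ∩ A f, x ∉ Ub f := by
      by_contra hcon
      push Not at hcon
      apply hf
      refine hP.mono c _ (Ub f) _ ?_ hcon (hUb f)
      refine le_trans ?_ (le_max_right _ _)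
      nlinarith
    rw [Finset.mem_inter] at hx
    have h1 := hW x f hx.2 hxU
    have h2 : P ((univ : Finset (Fin C)).card * c) (univ.biUnion fun i => A (W x i) \ G.biUnion A) :=
      Rank_biUnion hP univ c _ fun i _ => hZ x hx.1 i (by rw [hI']; exact Finset.mem_univ i)
    rw [Finset.card_univ, Fintype.card_fin] at h2
    refine hP.mono (c + C * c) _ _ _ ?_ ?_ (hP.union _ _ _ _ h1 h2)
    · refine le_trans ?_ (le_max_right _ _)
      nlinarith
    · intro y hy
      rw [Finset.mem_sdiff] at hy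
      rw [Finset.mem_union]
      by_cases hy1 : y ∈ (univ.image (W x)).biUnion A
      · right
        rw [Finset.mem_biUnion] at hy1 ⊢
        obtain ⟨a, ha, hya⟩ := hy1
        obtain ⟨i, _, rfl⟩ := Finset.mem_image.1 ha
        exact ⟨i, Finset.mem_univ i, Finset.mem_sdiff.2 ⟨hya, hy.2⟩⟩
      · left
        exact Finset.mem_sdiff.2 ⟨hy.1, hy1⟩
  | succ j ih =>
    intro hjC g
    obtain ⟨k2, hk2⟩ := ih (by omega) (g + C)
    set k1 := (2 * C + 1) * c with hk1
    set R := q k1 with hR0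
    refine ⟨max g (max (w k1) ((C * R + 1) * max k2 c)), ?_⟩
    intro X F P hP hFW A Ub hUb W hW I hI G hG Z hZ hR
    set k := max g (max (w k1) ((C * R + 1) * max k2 c)) with hk
    apply hR
    refine ⟨G, hG.trans (le_max_left _ _), ?_⟩
    intro f hf
    by_contra hcon
    have hcon' : ¬ P (w k1) (A f \ G.biUnion A) := fun h =>
      hcon (hP.mono (w k1) k _ _ ((le_max_left _ _).trans (le_max_right _ _)) (Finset.Subset.refl _) h)
    obtain ⟨Y, hYs, hYc, hY⟩ := hFW k1 _ hcon'
    have hmain := Rk.addn (P := P) (A := A) hP (q := j + 1) (k := max k2 c) (m := C * R)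
      ((univ \ I) ×ˢ Y) ?_ (fun z => (Z ∩ A f).filter fun x => z.2 ∈ A (W x z.1) ∧ z.2 ∉ Ub (W x z.1))
      (Z ∩ A f) (Ub f) ?_ ?_ ?_
    · obtain ⟨⟨i, y⟩, hiy, hRk⟩ := hmain
      rw [Finset.mem_product, Finset.mem_sdiff] at hiy
      have hRk2 := Rk.anti hP (le_max_left k2 c) hRk
      refine hk2 X F P hP hFW A Ub hUb W hW (insert i I) ?_ (G ∪ univ.image (W y)) ?_ _ ?_ hRk2
      · rw [Finset.card_insert_of_notMem hiy.1.2, hI]
        omega
      · refine (Finset.card_union_le _ _).trans (Nat.add_le_add hG ?_)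
        refine Finset.card_image_le.trans ?_
        rw [Finset.card_univ, Fintype.card_fin]
      · intro x hx i' hi'
        rw [Finset.mem_filter, Finset.mem_inter] at hx
        rcases Finset.mem_insert.1 hi' with rfl | hi'
        · refine hP.mono c c _ _ le_rfl ?_ (hW y (W x i') hx.2.1 hx.2.2)
          refine Finset.sdiff_subset_sdiff (Finset.Subset.refl _) ?_
          exact Finset.biUnion_subset_biUnion_of_subset_left _ Finset.subset_union_right
        · refine hP.mono c c _ _ le_rfl ?_ (hZ x hx.1.1 i' hi')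
          refine Finset.sdiff_subset_sdiff (Finset.Subset.refl _) ?_
          exact Finset.biUnion_subset_biUnion_of_subset_left _ Finset.subset_union_left
    · rw [Finset.card_product]
      refine Nat.mul_le_mul ?_ hYc
      refine (Finset.card_le_univ _).trans ?_
      rw [Fintype.card_fin]
    · intro x hx
      rw [Finset.mem_union]
      by_cases hxU : x ∈ Ub f
      · exact Or.inr hxU
      left
      have hx' := Finset.mem_inter.1 hx
      rw [Finset.mem_biUnion]
      by_contra hno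
      apply hY
      have h1 := hW x f hx'.2 hxU
      have h2 : P (I.card * c) (I.biUnion fun i => A (W x i) \ G.biUnion A) :=
        Rank_biUnion hP I c _ fun i hi => hZ x hx'.1 i hi
      have h3 : P ((univ : Finset (Fin C)).card * c) (univ.biUnion fun i => Ub (W x i)) :=
        Rank_biUnion hP univ c _ fun i _ => hUb _
      rw [Finset.card_univ, Fintype.card_fin] at h3
      refine hP.mono (c + I.card * c + C * c) _ _ _ ?_ ?_ (hP.union _ _ _ _ (hP.union _ _ _ _ h1 h2) h3)
      · have : I.card ≤ C := by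
          have := Finset.card_le_univ I
          rwa [Fintype.card_fin] at this
        have h5 : I.card * c ≤ C * c := Nat.mul_le_mul_right c this
        rw [hk1]
        nlinarith
      · intro y hy
        have hy' := Finset.mem_sdiff.1 (hYs hy)
        rw [Finset.mem_union, Finset.mem_union]
        by_cases hy1 : y ∈ (univ.image (W x)).biUnion A
        · rw [Finset.mem_biUnion] at hy1
          obtain ⟨a, ha, hya⟩ := hy1
          obtain ⟨i, _, rfl⟩ := Finset.mem_image.1 ha
          by_cases hi : i ∈ I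
          · left; right
            rw [Finset.mem_biUnion]
            exact ⟨i, hi, Finset.mem_sdiff.2 ⟨hya, hy'.2⟩⟩
          · right
            rw [Finset.mem_biUnion]
            refine ⟨i, Finset.mem_univ i, ?_⟩
            by_contra hyU
            exact hno ⟨(i, y), Finset.mem_product.2 ⟨Finset.mem_sdiff.2 ⟨Finset.mem_univ i, hi⟩, hy⟩,
              Finset.mem_filter.2 ⟨hx, hya, hyU⟩⟩
        · left; left
          exact Finset.mem_sdiff.2 ⟨hy'.1, hy1⟩
    · exact hP.mono c _ _ _ (le_max_right _ _) (Finset.Subset.refl _) (hUb f)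
    · exact Rk.anti hP ((le_max_right _ _).trans (le_max_right _ _)) hf

theorem rank (C c : ℕ) (w q : ℕ → ℕ) : ∃ k0 : ℕ, ∀ (X : Type u) (F : Type v) (P : ℕ → Finset X → Prop),
    Scl P → FW P w q → ∀ (A Ub : F → Finset X), (∀ f, P c (Ub f)) →
    (∀ x, ∃ W : Finset F, W.card ≤ C ∧ ∀ f, x ∈ A f → x ∉ Ub f → P c (A f \ W.biUnion A)) →
    ∀ Z : Finset X, ¬ Rk P A (C + 1) k0 Z := by
  obtain ⟨k, hk⟩ := Rank_claim.{u, v} C c w q C le_rfl 0
  refine ⟨k, ?_⟩
  intro X F P hP hFW A Ub hUb hstar Z hR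
  rcases isEmpty_or_nonempty F with hF | hF
  · apply hR
    exact ⟨∅, by simp, fun f => (hF.false f).elim⟩
  · choose W0 hW0 hW1 using hstar
    choose W hW using fun x => Rank_enum C (W0 x) (hW0 x)
    refine hk X F P hP hFW A Ub hUb W ?_ ∅ (by simp) ∅ (by simp) Z (by simp) hR
    intro x f hx hxU
    refine hP.mono c c _ _ le_rfl ?_ (hW1 x f hx hxU)
    refine Finset.sdiff_subset_sdiff (Finset.Subset.refl _) ?_
    exact Finset.biUnion_subset_biUnion_of_subset_left _ (hW x)

end Pool.Agent.Lib.MP_b0c2b5_co.R3
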