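import Pool.Agent.Lib.MP_b0c2b5_co.R3.Step
import Pool.Agent.Lib.MP_b0c2b5_co.R3.Rank

/-!
# R3, Net: the net theorem

PROOF of `schemes`. By induction on `j`: for every `j ≤ s` and every `lo` there are `hi, M` (depending on `s, k0, j, lo` only) such that for all `X, F, P, A` with `¬ Rk P A s k0 Z` for all `Z` there is a scheme `Sch P A lo (s - j) hi M`. `j = 0`: `D = ∅`, `Th = ∅`, `hi = k0`, `M = 0`. `j → j + 1`: the constants of `j` for all `lo`
define functions `hi, M : ℕ → ℕ` (`choose`), and `step (s - (j+1)) lo hi M`. (Conveniently: state it for `q` with `q + j = s`.)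
PROOF of `net`. `k0` from `rank C c w q`, `s = C + 1`, `lo := max C c`, `hi, M` from `schemes s k0 lo`. Let `(D, Th)` be the scheme of order `0`: `¬ Rk P A 0 hi (A f \ (Th f).biUnion A)` means `P hi (..)`. `H := D`. If `x ∈ A h`, `x ∉ Ub h`, `h ∈ D`, then `P c (A h \ W.biUnion A)` for the set `W` of `star` at `x`, `|W| ≤ C ≤ lo`,
so `P lo (..)`: at most `M` such `h` (`low`). Answer `max hi M`.
-/

set_option autoImplicit false

namespace Pool.Agent.Lib.MP_b0c2b5_co.R3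

open Finset
open scoped Classical

universe u v

private theorem Net_ind (s k0 : ℕ) : ∀ j q : ℕ, q + j = s → ∀ lo : ℕ, ∃ hi M : ℕ,
    ∀ (X : Type u) (F : Type v) [Finite F] (P : ℕ → Finset X → Prop), Scl P → ∀ (A : F → Finset X),
      (∀ Z, ¬ Rk P A s k0 Z) → ∃ (D : Finset F) (Th : F → Finset F), Sch P A lo q hi M D Th := by
  intro j
  induction j with
  | zero =>
    intro q hq lo
    refine ⟨k0, 0, fun X F _ P hP A hr => ⟨∅, fun _ => ∅, ⟨fun _ => subset_rfl, fun _ => ?_, fun G _ => ?_, fun f => ?_⟩⟩⟩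
    · simp
    · simp
    · have hqs : q = s := by omega
      rw [hqs]
      exact hr _
  | succ j ih =>
    intro q hq lo
    have h1 := ih (q + 1) (by omega)
    choose hi M h2 using h1
    obtain ⟨hi', M', h3⟩ := step q lo hi M
    exact ⟨hi', M', fun X F _ P hP A hr => h3 X F P hP A fun l => h2 l X F P hP A hr⟩

theorem schemes (s k0 lo : ℕ) : ∃ hi M : ℕ,
    ∀ (X : Type u) (F : Type v) [Finite F] (P : ℕ → Finset X → Prop), Scl P → ∀ (A : F → Finset X),
      (∀ Z, ¬ Rk P A s k0 Z) → ∃ (D : Finset F) (Th : F → Finset F), Sch P A lo 0 hi M D Th :=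
  Net_ind s k0 s 0 (Nat.zero_add s) lo

theorem net (C c : ℕ) (w q : ℕ → ℕ) : ∃ M : ℕ, ∀ (X : Type u) (F : Type v) [Finite F]
    (P : ℕ → Finset X → Prop), Scl P → FW P w q → ∀ (A Ub : F → Finset X), (∀ f, P c (Ub f)) →
    (∀ x, ∃ W : Finset F, W.card ≤ C ∧ ∀ f, x ∈ A f → x ∉ Ub f → P c (A f \ W.biUnion A)) →
    ∃ (H : Finset F) (Th : F → Finset F), (∀ f, Th f ⊆ H) ∧ (∀ f, (Th f).card ≤ M) ∧
      (∀ f, P M (A f \ (Th f).biUnion A)) ∧ ∀ x, (H.filter (fun h => x ∈ A h ∧ x ∉ Ub h)).card ≤ M := by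
  obtain ⟨k0, hk0⟩ := rank.{u, v} C c w q
  obtain ⟨hi, M, hS⟩ := schemes.{u, v} (C + 1) k0 (max C c)
  refine ⟨max hi M, fun X F _ P hP hFW A Ub hUb hst => ?_⟩
  obtain ⟨D, Th, hD⟩ := hS X F P hP A (hk0 X F P hP hFW A Ub hUb hst)
  refine ⟨D, Th, hD.sub, fun f => (hD.card f).trans (le_max_right _ _), fun f => ?_, fun x => ?_⟩
  · have h1 : P hi (A f \ (Th f).biUnion A) := not_not.1 (hD.rk f)
    exact hP.mono _ _ _ _ (le_max_left _ _) subset_rfl h1
  · obtain ⟨W, hW, hWf⟩ := hst x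
    have h1 := hD.low W (hW.trans (le_max_left _ _))
    refine (Finset.card_le_card fun h hh => ?_).trans (h1.trans (le_max_right _ _))
    obtain ⟨hhD, hx1, hx2⟩ := Finset.mem_filter.1 hh
    exact Finset.mem_filter.2 ⟨hhD, hP.mono _ _ _ _ (le_max_right _ _) subset_rfl (hWf h hx1 hx2)⟩

end Pool.Agent.Lib.MP_b0c2b5_co.R3
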