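import Pool.Agent.Lib.MP_b0c2b5_co.Mg.G001

/-!
# R3, SmB: the smallness scales

PROOF of `scl_sm` by induction on `j`. `j = 0`: cardinality. `j + 1`: `emp`: `D = ∅`. `mono`: the same `D`; for `v ∈ B ⊆ A` use `mono` of `j`. `union`: `D ∪ D'`; for `v ∈ A`: `(aN r v ∩ U) \ (D ∪ D').biUnion (aN r) ⊆ (aN r v ∩ U) \ D.biUnion (aN r)`, `k ≤ k + l`.
`fw_card`: `w k = k`, `q k = k + 1`: a set with more than `k` elements has a subset with exactly `k + 1` elements (`Finset.exists_subset_card_eq`).
-/

set_option autoImplicit false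

namespace Pool.Agent.Lib.MP_b0c2b5_co.R3

open Finset LS
open scoped Classical

universe u

theorem scl_sm {V : Type u} [Fintype V] (r : V → V → Prop) (U : Finset V) (j : ℕ) : Scl (Sm r U j) := by
  induction j with
  | zero =>
    refine ⟨?_, ?_, ?_⟩
    · simp [Sm]
    · intro k l A B hkl hBA h
      exact (card_le_card hBA).trans ((show A.card ≤ k from h).trans hkl)
    · intro k l A B hA hB
      exact (card_union_le A B).trans (add_le_add (show A.card ≤ k from hA) (show B.card ≤ l from hB))
  | succ j ih =>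
    refine ⟨?_, ?_, ?_⟩
    · exact ⟨∅, empty_subset _, by simp, by simp⟩
    · rintro k l A B hkl hBA ⟨D, hD, hc, h⟩
      exact ⟨D, hD, hc.trans hkl, fun v hv => ih.mono k l _ _ hkl (Subset.refl _) (h v (hBA hv))⟩
    · rintro k l A B ⟨D, hD, hc, h⟩ ⟨D', hD', hc', h'⟩
      refine ⟨D ∪ D', union_subset hD hD', (card_union_le _ _).trans (add_le_add hc hc'), ?_⟩
      intro v hv
      rcases mem_union.1 hv with hv | hv
      · refine ih.mono k (k + l) _ _ (Nat.le_add_right _ _) ?_ (h v hv)
        exact sdiff_subset_sdiff (Subset.refl _)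
          (biUnion_subset_biUnion_of_subset_left _ subset_union_left)
      · refine ih.mono l (k + l) _ _ (Nat.le_add_left _ _) ?_ (h' v hv)
        exact sdiff_subset_sdiff (Subset.refl _)
          (biUnion_subset_biUnion_of_subset_left _ subset_union_right)

theorem scl_card (V : Type u) : Scl (fun (k : ℕ) (A : Finset V) => A.card ≤ k) := by
  refine ⟨?_, ?_, ?_⟩
  · simp
  · intro k l A B hkl hBA h
    exact (card_le_card hBA).trans (h.trans hkl)
  · intro k l A B hA hB
    exact (card_union_le A B).trans (add_le_add hA hB)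

theorem fw_card (V : Type u) : FW (fun (k : ℕ) (A : Finset V) => A.card ≤ k) (fun k => k) (fun k => k + 1) := by
  intro k B hB
  obtain ⟨Y, hY, hc⟩ := exists_subset_card_eq (show k + 1 ≤ B.card by
    have : ¬ B.card ≤ k := hB
    omega)
  exact ⟨Y, hY, hc.le, by
    show ¬ Y.card ≤ k
    omega⟩

end Pool.Agent.Lib.MP_b0c2b5_co.R3
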