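import Pool.Agent.Lib.MP_b0c2b5_co.R3.ChB
import Pool.Agent.Lib.MP_b0c2b5_co.R3.Net
import Pool.Agent.Lib.MP_b0c2b5_co.R3.SmB

/-!
# R3, Few: vertices with few clean loose parents, all of them in the finer set of the window

`Λ'` = loose vertices of the upper level; `Un e` (`e ∈ Λ'`) = unclean children. Scales `w ≤ w' ≤ j`, `w + 3 ≤ j`, `j ≤ n`, `Y ⊆ Vs j`. `hcov`: for `e ∈ Vs w` which is not in `Λ'` the children of `e` in `Y` are covered by `M` sets `oN r g`, `g ∈ Vs j`, up to `M` points. `hs`: every `z ∈ Y` has at most `s` parents `e ∈ Λ'` with `z ∉ Un e`.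
`hr`: if such a parent `e` of `z ∈ Y` is in `Vs w` then it is in `Vs w'`.
PROOF. Index set `F* := Vs j ∪ (Λ' ∩ Vs w')` (a subset of `V`; `F := V` and `A f := oN r f ∩ Y` for `f ∈ F*`, `A f := ∅` otherwise). `Ub f := Un f` if `f ∈ F*`, `f ∉ Vs j`, and `∅` otherwise; `|Ub f| ≤ M`. Ground set `X := V`, `P k A := (A.card ≤ k)` (`scl_card`, `fw_card`).
CLOSED: for every `e ∈ Vs w` there is `Cv e ⊆ F*`, `|Cv e| ≤ M + 1`, with `|(oN r e ∩ Y) \ (Cv e).biUnion A| ≤ M`: if `e ∉ Λ'`: `hcov` (`Vs j ⊆ F*`; `(oN r e ∩ Y) \ G.biUnion (oN r) = (oN r e ∩ Y) \ G.biUnion A` for `G ⊆ Vs j`). If `e ∈ Λ'` and `oN r e ∩ Y ⊆ Un e`: `Cv e = ∅` (`|Un e| ≤ M`). If `e ∈ Λ'` and some `z ∈ oN r e ∩ Y` is not in `Un e`: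
by `hr` `e ∈ Vs w'`, `e ∈ F*`, `Cv e = {e}`.
STAR. Let `x : V`; if `x ∉ Y` then `x` is in no `A f`. Let `x ∈ Y`. (P) of the step `j - 1`: `Z ⊆ Vs (j-1)`, `|Z| ≤ K`, and all `y ∈ Vs j` with `r y x` are in `Z.biUnion (oN r)` (`x ∈ Y ⊆ Vs j`). For `z ∈ Z ⊆ Vs (j-1)` let `D' z ⊆ Vs (j-3)` be the set of `Chn.cn` with `i = j - 3` (`i + 2 = j - 1`): `|(aN r v ∩ Vs (j-2)) \ (D' z).biUnion (oN r)| ≤ K` for
`v ∈ Vs (j-1)`, `v ∈ aN r z`. `W := Z.biUnion (fun z => (D' z).biUnion Cv) ∪ {f ∈ Λ' ∩ Vs w' : r f x ∧ x ∉ Un f}`, at most `C := K * (K (K+1)) * (M+1) + s` elements (`D' z ⊆ Vs (j-3) ⊆ Vs w`). Let `x ∈ A f`, `x ∉ Ub f`. If `f ∈ Vs j`: `f ∈ oN r z` for some `z ∈ Z`, so `A f = oN r f ∩ Y` is covered by the `oN r e`, `e ∈ D' z`, up to `K` points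
(`Y ⊆ Vs j ⊆ Vs (j-2)`), and so by `W.biUnion A` up to `K + K (K+1) M` points. If `f ∈ F*`, `f ∉ Vs j`: `f ∈ Λ' ∩ Vs w'`, `x ∉ Un f`, so `f ∈ W`. Constant of the net theorem: `c0 := max M (K + K (K+1) M)`.
NET: `net C c0 (fun k => k) (fun k => k+1)` gives `M0, H, Th`; replace `H` by `H ∩ F*`, `Th f` by `Th f ∩ F*`. `L z := H.filter (fun h => z ∈ A h ∧ z ∉ Ub h)`, at most `M0` elements; `B h := {h}` for `h ∈ F*` (`∅` otherwise): `F* ⊆ Vs w'`. `Th1 e := (Cv e).biUnion Th` for `e ∈ Vs w`. `adj`: `z ∈ A h ⊆ oN r h`.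
`hit`: for `e ∈ Vs w` all `z ∈ oN r e ∩ Y` except `M + (M+1) * M0` of them are in `A h` for some `h ∈ Th1 e`, and all except `(M+1) * M0 * M` more are not in `Ub h`: then `h ∈ L z`. `c'` := the maximum of all these numbers.
-/

set_option autoImplicit false

namespace Pool.Agent.Lib.MP_b0c2b5_co.R3

open Finset LS
open scoped Classical

universe u

theorem few (K M s : ℕ) : ∃ c' : ℕ, ∀ (V : Type u) [Fintype V] (r : V → V → Prop) (n : ℕ) (Vs : ℕ → Finset V),
    Chn r K n Vs → ∀ (w w' j : ℕ) (Λ' Y : Finset V) (Un : V → Finset V), w ≤ w' → w' ≤ j → w + 3 ≤ j → j ≤ n →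
    Y ⊆ Vs j → (∀ e ∈ Λ', (Un e).card ≤ M) →
    (∀ e ∈ Vs w, e ∉ Λ' → ∃ G ⊆ Vs j, G.card ≤ M ∧ ((oN r e ∩ Y) \ G.biUnion (oN r)).card ≤ M) →
    (∀ z ∈ Y, (Λ'.filter (fun e => r e z ∧ z ∉ Un e)).card ≤ s) →
    (∀ z ∈ Y, ∀ e ∈ Λ', r e z → z ∉ Un e → e ∈ Vs w → e ∈ Vs w') →
    ∃ L B Th : V → Finset V, Lab r Vs w w' c' Y L B Th := by
  obtain ⟨M0, hM0⟩ := net.{u, u} (K * (K * (K + 1) * (M + 1)) + s) (max M (K + K * (K + 1) * M))
    (fun k => k) (fun k => k + 1)
  refine ⟨M0 + 1 + (M + 1) * M0 + (M + (M + 1) * M0 + (M + 1) * M0 * M), ?_⟩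
  intro V _ r n Vs hc w w' j Λ' Y Un hww' hw'j hwj hjn hY hUn hcov hs hr
  obtain ⟨m, rfl⟩ : ∃ m, j = m + 3 := ⟨j - 3, by omega⟩
  have hwm : w ≤ m := by omega
  set Fs : Finset V := Vs (m + 3) ∪ (Λ' ∩ Vs w') with hFs
  set A : V → Finset V := fun f => if f ∈ Fs then oN r f ∩ Y else ∅ with hA
  set Ub : V → Finset V := fun f => if f ∈ Fs ∧ f ∉ Vs (m + 3) then Un f else ∅ with hUb
  have memA : ∀ f x, x ∈ A f ↔ f ∈ Fs ∧ r f x ∧ x ∈ Y := by
    intro f x
    simp only [hA]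
    by_cases hf : f ∈ Fs
    · rw [if_pos hf, Finset.mem_inter, mem_oN]
      tauto
    · rw [if_neg hf]
      simp [hf]
  have hFsw' : Fs ⊆ Vs w' := by
    intro f hf
    rcases Finset.mem_union.1 hf with h | h
    · exact hc.anti _ _ hw'j h
    · exact (Finset.mem_inter.1 h).2
  have hUbc : ∀ f, (Ub f).card ≤ M := by
    intro f
    simp only [hUb]
    by_cases hf : f ∈ Fs ∧ f ∉ Vs (m + 3)
    · rw [if_pos hf]
      apply hUn
      rcases Finset.mem_union.1 hf.1 with h | h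
      · exact absurd h hf.2
      · exact (Finset.mem_inter.1 h).1
    · rw [if_neg hf]
      simp
  have closed : ∀ e : V, ∃ Cv : Finset V, e ∈ Vs w → Cv ⊆ Fs ∧ Cv.card ≤ M + 1 ∧
      ((oN r e ∩ Y) \ Cv.biUnion A).card ≤ M := by
    intro e
    by_cases hew : e ∈ Vs w
    · by_cases heΛ : e ∈ Λ'
      · by_cases hsub : oN r e ∩ Y ⊆ Un e
        · refine ⟨∅, fun _ => ⟨by simp, by simp, ?_⟩⟩
          exact (Finset.card_le_card (Finset.sdiff_subset.trans hsub)).trans (hUn e heΛ)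
        · obtain ⟨z, hz, hzU⟩ := Finset.not_subset.1 hsub
          rw [Finset.mem_inter, mem_oN] at hz
          have hew' := hr z hz.2 e heΛ hz.1 hzU hew
          have heF : e ∈ Fs := Finset.mem_union_right _ (Finset.mem_inter.2 ⟨heΛ, hew'⟩)
          refine ⟨{e}, fun _ => ⟨by simpa using heF, by simp, ?_⟩⟩
          have : (oN r e ∩ Y) \ ({e} : Finset V).biUnion A = ∅ := by
            rw [Finset.sdiff_eq_empty_iff_subset]
            intro y hy
            rw [Finset.mem_inter, mem_oN] at hy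
            rw [Finset.mem_biUnion]
            exact ⟨e, Finset.mem_singleton_self e, (memA e y).2 ⟨heF, hy.1, hy.2⟩⟩
          rw [this]
          simp
      · obtain ⟨G, hG, hGc, hGd⟩ := hcov e hew heΛ
        refine ⟨G, fun _ => ⟨fun g hg => Finset.mem_union_left _ (hG hg), by omega, ?_⟩⟩
        refine (Finset.card_le_card ?_).trans hGd
        intro y hy
        rw [Finset.mem_sdiff] at hy ⊢
        refine ⟨hy.1, fun hy2 => hy.2 ?_⟩
        rw [Finset.mem_biUnion] at hy2 ⊢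
        obtain ⟨g, hg, hyg⟩ := hy2
        exact ⟨g, hg, (memA g y).2 ⟨Finset.mem_union_left _ (hG hg), mem_oN.1 hyg, (Finset.mem_inter.1 hy.1).2⟩⟩
    · exact ⟨∅, fun h => absurd h hew⟩
  choose Cv hCv using closed
  have hstar : ∀ x : V, ∃ W : Finset V, W.card ≤ K * (K * (K + 1) * (M + 1)) + s ∧
      ∀ f, x ∈ A f → x ∉ Ub f → (A f \ W.biUnion A).card ≤ max M (K + K * (K + 1) * M) := by
    intro x
    by_cases hxY : x ∈ Y
    · obtain ⟨Z, hZ, hZc, hZp⟩ := (hc.stp (m + 2) (by omega)).p x (hY hxY)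
      have hcn : ∀ z : V, ∃ D' : Finset V, z ∈ Vs (m + 2) → D' ⊆ Vs m ∧ D'.card ≤ K * (K + 1) ∧
          ∀ v ∈ Vs (m + 2), v ∈ aN r z → ((aN r v ∩ Vs (m + 1)) \ D'.biUnion (oN r)).card ≤ K := by
        intro z
        by_cases hz : z ∈ Vs (m + 2)
        · obtain ⟨D', h1, h2, h3⟩ := Chn.cn hc (i := m) (by omega) hz
          exact ⟨D', fun _ => ⟨h1, h2, h3⟩⟩
        · exact ⟨∅, fun h => absurd h hz⟩
      choose D' hD' using hcn
      refine ⟨Z.biUnion (fun z => (D' z).biUnion Cv) ∪ Λ'.filter (fun e => r e x ∧ x ∉ Un e), ?_, ?_⟩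
      · refine (Finset.card_union_le _ _).trans (Nat.add_le_add ?_ (hs x hxY))
        refine (Finset.card_biUnion_le_card_mul Z _ (K * (K + 1) * (M + 1)) ?_).trans
          (Nat.mul_le_mul_right _ hZc)
        intro z hz
        have h1 := hD' z (hZ hz)
        refine (Finset.card_biUnion_le_card_mul (D' z) _ (M + 1) ?_).trans (Nat.mul_le_mul_right _ h1.2.1)
        intro e he
        exact (hCv e (hc.anti _ _ hwm (h1.1 he))).2.1
      · intro f hxf hxU
        rw [memA] at hxf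
        by_cases hfj : f ∈ Vs (m + 3)
        · refine le_trans ?_ (le_max_right _ _)
          have hfZ := hZp f hfj hxf.2.1
          rw [Finset.mem_biUnion] at hfZ
          obtain ⟨z, hz, hfz⟩ := hfZ
          have h1 := hD' z (hZ hz)
          have h2 := h1.2.2 f (hc.anti _ _ (by omega) hfj) (oN_sub_aN r z hfz)
          have h3 : ((D' z).biUnion (fun e => (oN r e ∩ Y) \ (Cv e).biUnion A)).card ≤ K * (K + 1) * M := by
            refine (Finset.card_biUnion_le_card_mul (D' z) _ M ?_).trans (Nat.mul_le_mul_right _ h1.2.1)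
            intro e he
            exact (hCv e (hc.anti _ _ hwm (h1.1 he))).2.2
          refine (Finset.card_le_card ?_).trans ((Finset.card_union_le _ _).trans (Nat.add_le_add h2 h3))
          intro y hy
          rw [Finset.mem_sdiff, memA] at hy
          rw [Finset.mem_union]
          by_cases hyD : y ∈ (D' z).biUnion (oN r)
          · right
            rw [Finset.mem_biUnion] at hyD ⊢
            obtain ⟨e, he, hye⟩ := hyD
            refine ⟨e, he, ?_⟩
            rw [Finset.mem_sdiff, Finset.mem_inter]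
            refine ⟨⟨hye, hy.1.2.2⟩, fun hyC => hy.2 ?_⟩
            rw [Finset.mem_biUnion] at hyC ⊢
            obtain ⟨a, ha, hya⟩ := hyC
            refine ⟨a, Finset.mem_union_left _ ?_, hya⟩
            rw [Finset.mem_biUnion]
            exact ⟨z, hz, Finset.mem_biUnion.2 ⟨e, he, ha⟩⟩
          · left
            rw [Finset.mem_sdiff, Finset.mem_inter, mem_aN]
            exact ⟨⟨Or.inl hy.1.2.1, hc.anti _ _ (by omega) (hY hy.1.2.2)⟩, hyD⟩
        · have hfΛ : f ∈ Λ' := by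
            rcases Finset.mem_union.1 hxf.1 with h | h
            · exact absurd h hfj
            · exact (Finset.mem_inter.1 h).1
          have hUbf : Ub f = Un f := by
            simp only [hUb]
            rw [if_pos ⟨hxf.1, hfj⟩]
          rw [hUbf] at hxU
          have : A f \ (Z.biUnion (fun z => (D' z).biUnion Cv) ∪
              Λ'.filter (fun e => r e x ∧ x ∉ Un e)).biUnion A = ∅ := by
            rw [Finset.sdiff_eq_empty_iff_subset]
            intro y hy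
            rw [Finset.mem_biUnion]
            exact ⟨f, Finset.mem_union_right _ (Finset.mem_filter.2 ⟨hfΛ, hxf.2.1, hxU⟩), hy⟩
          rw [this]
          simp
    · refine ⟨∅, by simp, ?_⟩
      intro f hxf _
      exact absurd ((memA f x).1 hxf).2.2 hxY
  obtain ⟨H, Th0, hTH, hThc, hThd, hH⟩ := hM0 V V (fun k A => A.card ≤ k) (scl_card V) (fw_card V) A Ub
    (fun f => (hUbc f).trans (le_max_left _ _)) hstar
  refine ⟨fun z => H.filter (fun h => z ∈ A h ∧ z ∉ Ub h), fun h => if h ∈ Fs then {h} else ∅,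
    fun e => if e ∈ Vs w then (Cv e).biUnion Th0 else ∅, ?_, ?_, ?_, ?_, ?_, ?_⟩
  · intro z _
    have := hH z
    omega
  · intro h
    by_cases hh : h ∈ Fs
    · simp only [hh, if_true, Finset.card_singleton]
      omega
    · simp only [hh, if_false, Finset.card_empty]
      omega
  · intro h
    by_cases hh : h ∈ Fs
    · simp only [hh, if_true]
      simpa using hFsw' hh
    · simp [hh]
  · intro e
    by_cases he : e ∈ Vs w
    · simp only [he, if_true]
      have h1 : ((Cv e).biUnion Th0).card ≤ (M + 1) * M0 :=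
        (Finset.card_biUnion_le_card_mul (Cv e) _ M0 fun f _ => hThc f).trans
          (Nat.mul_le_mul_right _ (hCv e he).2.1)
      omega
    · simp [he]
  · intro e he
    have h0 := hCv e he
    have h2 : ((Cv e).biUnion (fun f => A f \ (Th0 f).biUnion A)).card ≤ (M + 1) * M0 :=
      (Finset.card_biUnion_le_card_mul (Cv e) _ M0 fun f _ => hThd f).trans (Nat.mul_le_mul_right _ h0.2.1)
    have h1 : ((Cv e).biUnion Th0).card ≤ (M + 1) * M0 :=
      (Finset.card_biUnion_le_card_mul (Cv e) _ M0 fun f _ => hThc f).trans (Nat.mul_le_mul_right _ h0.2.1)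
    have h3 : (((Cv e).biUnion Th0).biUnion Ub).card ≤ (M + 1) * M0 * M :=
      (Finset.card_biUnion_le_card_mul _ _ M fun f _ => hUbc f).trans (Nat.mul_le_mul_right _ h1)
    have hsub : ((oN r e ∩ Y).filter (fun z => Disjoint (H.filter (fun h => z ∈ A h ∧ z ∉ Ub h))
        (if e ∈ Vs w then (Cv e).biUnion Th0 else ∅))) ⊆
        (((oN r e ∩ Y) \ (Cv e).biUnion A) ∪ (Cv e).biUnion (fun f => A f \ (Th0 f).biUnion A)) ∪
          ((Cv e).biUnion Th0).biUnion Ub := by
      intro z hz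
      rw [if_pos he, Finset.mem_filter] at hz
      rw [Finset.mem_union, Finset.mem_union]
      by_cases hzA : z ∈ (Cv e).biUnion A
      · rw [Finset.mem_biUnion] at hzA
        obtain ⟨f, hf, hzf⟩ := hzA
        by_cases hzT : z ∈ (Th0 f).biUnion A
        · rw [Finset.mem_biUnion] at hzT
          obtain ⟨h, hh, hzh⟩ := hzT
          right
          rw [Finset.mem_biUnion]
          refine ⟨h, Finset.mem_biUnion.2 ⟨f, hf, hh⟩, ?_⟩
          by_contra hzU
          rw [Finset.disjoint_left] at hz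
          exact hz.2 (Finset.mem_filter.2 ⟨hTH f hh, hzh, hzU⟩) (Finset.mem_biUnion.2 ⟨f, hf, hh⟩)
        · left; right
          rw [Finset.mem_biUnion]
          exact ⟨f, hf, Finset.mem_sdiff.2 ⟨hzf, hzT⟩⟩
      · left; left
        exact Finset.mem_sdiff.2 ⟨hz.1, hzA⟩
    have h4 := (Finset.card_le_card hsub).trans ((Finset.card_union_le _ _).trans
      (Nat.add_le_add ((Finset.card_union_le _ _).trans (Nat.add_le_add h0.2.2 h2)) h3))
    exact h4.trans (by omega)
  · intro z _ h hh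
    rw [Finset.mem_filter, memA] at hh
    refine ⟨h, ?_, oN_sub_aN r h (mem_oN.2 hh.2.1.2.1)⟩
    simp only [hh.2.1.1, if_true]
    exact Finset.mem_singleton_self h

end Pool.Agent.Lib.MP_b0c2b5_co.R3
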