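import Pool.Agent.Lib.MP_b0c2b5_co.Mg.G001
import Pool.Agent.Lib.MP_b0c2b5_co.LS.Cover
import Pool.Agent.Lib.MP_b0c2b5_co.C4.Col
import Pool.Agent.Lib.MP_b0c2b5_co.C5.Quot

/-!
# R3, LabL: the label lemma

`ColOn E Y C` (`LS/Defs.lean`): the relation `E` is properly coloured on `Y` with `C` colours. Useful: `ColOn.classes`, `ColOn.mono` (`LS/Defs.lean`), `ColOn.prod` (`C4/Col.lean`), `deg_col` (`C5/Quot.lean`: a loopless digraph with out-degree `≤ d` is `(2d+1)`-colourable), `path_or_col` (`LS/Cover.lean`, Gallai-Roy on a set: either a directed path with `s` vertices in `W` or `ColOn r W s`).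

`path_adj`: `p 0 → p 1 → ... ` a directed path of `r`-arcs (indices `< s`); a vertex `g` has at most one child and at most one parent on it: if `g → p i` and `g → p j` with `i < j` then `lt g (p i)`, `lt (p i) (p j)` contradict `HO.sf` for `g → p j`; parents: in the same way. So at most two indices `i < s` have `p i ∈ aN r g`.

PROOF of `label`. If `c = 0` then no `u ∈ Y` has a nonempty list: `Y = ∅`. Let `c ≥ 1`. For `u ∈ Y` choose `hh u : Fin c → V` with `univ.image (hh u) = L u` (`L u` nonempty, at most `c` elements). For `E`-arcs `u → v` in `Y` choose `σ : Fin c → Fin c` with `hh v (σ i) ∈ Φ (hh u i)` for all `i` (the hypothesis for `h = hh u i`; an element of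
`Φ (hh u i) ∩ L v` is `hh v j` for some `j`). For fixed `σ` let `E σ u v` be: `E u v` and `hh v (σ i) ∈ Φ (hh u i)` for all `i`. By `ColOn.prod` over the `c ^ c` functions `σ` (induction over a list or `Fin (c^c)` of all `σ`) it is enough to colour every `E σ` on `Y` with `C1` colours: `C = C1 ^ (c ^ c)`.
Fix `σ`. There are `i0 : Fin c` and `1 ≤ p ≤ c` with `σ^[p] i0 = i0` (pigeonhole on `σ^[0] x, .., σ^[c] x`). Let `Ψ h h'` mean: there is a sequence `h = g 0, g 1, .., g p = h'` with `g (j+1) ∈ Φ (g j)`; for fixed `h` at most `c ^ p ≤ c ^ c` elements `h'`. By `deg_col` for `Ψ h h' ∧ h ≠ h'` there is `ψ : V → ℕ` with values `< 2 c ^ c + 1` and `ψ h ≠ ψ h'`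
for such pairs. Split `Y` by the colour `ψ (hh u i0)` (`ColOn.classes`). On a class `Y'` apply `path_or_col` to the relation `E σ` with `s := 2 * c * c + 1`... (any `s > (2 c) * c`): suppose there is a path `p' : ℕ → V` of `E σ`-arcs, `p' i ∈ Y'` for `i < s`. The labels `g j := hh (p' j) (σ^[j] i0)` satisfy `g (j+1) ∈ Φ (g j)`; so
`Ψ (g (l p)) (g ((l+1) p))`, and `σ^[l p] i0 = i0`, so `g (l p) = hh (p' (l p)) i0` and both have the same `ψ`-colour: they are equal. So all `p' (l p)` with `l p < s` have the common label `h := hh (p' 0) i0 ∈ L (p' (l p))`, hence each of them is in `aN r g` for some `g ∈ B h` (`hadj`). There are at least `2 c + 1` indices `l` (`s > 2 c * p`),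
each `g` is adjacent to at most 2 of these vertices (`path_adj`), `|B h| ≤ c`: contradiction. So `ColOn (E σ) Y' s`.
-/

set_option autoImplicit false

namespace Pool.Agent.Lib.MP_b0c2b5_co.R3

open Finset LS
open scoped Classical

universe u

private theorem LabL_path_lt {V : Type u} {r lt : V → V → Prop} (h : HO r lt) (p : ℕ → V) (s : ℕ)
    (hp : ∀ i, i + 1 < s → r (p i) (p (i+1))) : ∀ k i, i + k + 1 < s → lt (p i) (p (i + k + 1)) := by
  intro k
  induction k with
  | zero => exact fun i hi => h.arc _ _ (hp i hi)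
  | succ k ih =>
    intro i hi
    exact h.trans _ _ _ (ih i (by omega)) (h.arc _ _ (hp (i + k + 1) hi))

theorem path_adj {V : Type u} [Fintype V] {r lt : V → V → Prop} (h : HO r lt) (p : ℕ → V) (s : ℕ)
    (hp : ∀ i, i + 1 < s → r (p i) (p (i+1))) (g : V) :
    ((range s).filter (fun i => p i ∈ aN r g)).card ≤ 2 := by
  have hlt : ∀ i j, i < j → j < s → lt (p i) (p j) := by
    intro i j hij hj
    obtain ⟨k, rfl⟩ := Nat.exists_eq_add_of_lt hij
    exact LabL_path_lt h p s hp k i hj
  have h1 : ((range s).filter (fun i => r g (p i))).card ≤ 1 := by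
    rw [Finset.card_le_one]
    have key : ∀ i j, i < j → j < s → r g (p i) → r g (p j) → False := by
      intro i j hij hj hi1 hj1
      exact h.sf g (p j) (p i) hj1 (h.arc _ _ hi1) (hlt i j hij hj)
    intro i hi j hj
    rw [Finset.mem_filter, Finset.mem_range] at hi hj
    rcases lt_trichotomy i j with h2 | h2 | h2
    · exact (key i j h2 hj.1 hi.2 hj.2).elim
    · exact h2
    · exact (key j i h2 hi.1 hj.2 hi.2).elim
  have h2 : ((range s).filter (fun i => r (p i) g)).card ≤ 1 := by
    rw [Finset.card_le_one]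
    have key : ∀ i j, i < j → j < s → r (p i) g → r (p j) g → False := by
      intro i j hij hj hi1 hj1
      exact h.sf (p i) g (p j) hi1 (hlt i j hij hj) (h.arc _ _ hj1)
    intro i hi j hj
    rw [Finset.mem_filter, Finset.mem_range] at hi hj
    rcases lt_trichotomy i j with h2 | h2 | h2
    · exact (key i j h2 hj.1 hi.2 hj.2).elim
    · exact h2
    · exact (key j i h2 hi.1 hj.2 hi.2).elim
  have h3 : (range s).filter (fun i => p i ∈ aN r g) ⊆
      (range s).filter (fun i => r g (p i)) ∪ (range s).filter (fun i => r (p i) g) := by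
    intro i hi
    rw [Finset.mem_filter, mem_aN] at hi
    rw [Finset.mem_union, Finset.mem_filter, Finset.mem_filter]
    rcases hi.2 with h4 | h4
    · exact Or.inl ⟨hi.1, h4⟩
    · exact Or.inr ⟨hi.1, h4⟩
  exact (Finset.card_le_card h3).trans ((Finset.card_union_le _ _).trans (by omega))

private theorem LabL_prod {V : Type u} {ι : Type} (W : Set V) (C : ℕ) (T : Finset ι)
    (R : ι → V → V → Prop) (h : ∀ i ∈ T, ColOn (R i) W C) :
    ColOn (fun x y => ∃ i ∈ T, R i x y) W (C ^ T.card) := by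
  induction T using Finset.induction_on with
  | empty =>
    refine ⟨fun _ => 0, fun v _ => by simp, ?_⟩
    rintro x _ y _ ⟨i, hi, _⟩
    exact absurd hi (Finset.notMem_empty i)
  | insert a T ha ih =>
    have h1 := ih fun i hi => h i (Finset.mem_insert_of_mem hi)
    have h2 := h a (Finset.mem_insert_self a T)
    rw [Finset.card_insert_of_notMem ha, pow_succ, mul_comm]
    refine C4.ColOn.prod h2 h1 ?_
    rintro x _ y _ ⟨i, hi, hxy⟩
    rcases Finset.mem_insert.1 hi with rfl | hi
    · exact Or.inl hxy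
    · exact Or.inr ⟨i, hi, hxy⟩

private noncomputable def LabL_it {V : Type u} (Φ : V → Finset V) : ℕ → V → Finset V
  | 0, h => {h}
  | n + 1, h => (LabL_it Φ n h).biUnion Φ

private theorem LabL_it_card {V : Type u} (Φ : V → Finset V) (c : ℕ) (hΦ : ∀ h, (Φ h).card ≤ c)
    (n : ℕ) (h : V) : (LabL_it Φ n h).card ≤ c ^ n := by
  induction n with
  | zero => simp [LabL_it]
  | succ n ih =>
    rw [pow_succ]
    refine (Finset.card_biUnion_le_card_mul _ _ c fun x _ => hΦ x).trans ?_
    exact Nat.mul_le_mul_right c ih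

private theorem LabL_it_mem {V : Type u} (Φ : V → Finset V) (g : ℕ → V) (n : ℕ)
    (hg : ∀ k < n, g (k + 1) ∈ Φ (g k)) : g n ∈ LabL_it Φ n (g 0) := by
  induction n with
  | zero => simp [LabL_it]
  | succ n ih =>
    show g (n + 1) ∈ (LabL_it Φ n (g 0)).biUnion Φ
    rw [Finset.mem_biUnion]
    exact ⟨g n, ih fun k hk => hg k (by omega), hg n (by omega)⟩

private theorem LabL_hh {V : Type u} (c : ℕ) (A : Finset V) (h1 : A.Nonempty) (h2 : A.card ≤ c) :
    ∃ f : Fin c → V, (∀ i, f i ∈ A) ∧ ∀ h ∈ A, ∃ i, f i = h := by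
  have : Nonempty A := ⟨⟨h1.choose, h1.choose_spec⟩⟩
  obtain ⟨e⟩ := Function.Embedding.nonempty_of_card_le (α := A) (β := Fin c)
    (by rw [Fintype.card_coe, Fintype.card_fin]; exact h2)
  refine ⟨fun i => (Function.invFun e i : A), fun i => (Function.invFun e i : A).2, ?_⟩
  intro h hh
  refine ⟨e ⟨h, hh⟩, ?_⟩
  show ((Function.invFun e (e ⟨h, hh⟩) : A) : V) = h
  rw [Function.leftInverse_invFun e.injective]

private theorem LabL_period (c : ℕ) (hc : 1 ≤ c) (σ : Fin c → Fin c) :
    ∃ (i0 : Fin c) (p : ℕ), 1 ≤ p ∧ p ≤ c ∧ σ^[p] i0 = i0 := by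
  let x0 : Fin c := ⟨0, hc⟩
  obtain ⟨a, b, hab, he⟩ := Fintype.exists_ne_map_eq_of_card_lt
    (fun n : Fin (c + 1) => σ^[(n : ℕ)] x0) (by simp)
  have key : ∀ a b : Fin (c + 1), a < b → σ^[(a : ℕ)] x0 = σ^[(b : ℕ)] x0 →
      ∃ (i0 : Fin c) (p : ℕ), 1 ≤ p ∧ p ≤ c ∧ σ^[p] i0 = i0 := by
    intro a b hab he
    have h1 : (a : ℕ) < b := hab
    refine ⟨σ^[(a : ℕ)] x0, (b : ℕ) - a, by omega, by omega, ?_⟩
    rw [← Function.iterate_add_apply, Nat.sub_add_cancel h1.le]
    exact he.symm
  rcases lt_or_gt_of_ne hab with h | h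
  · exact key a b h he
  · exact key b a h he.symm

theorem label (c : ℕ) : ∃ C : ℕ, ∀ (V : Type u) [Fintype V] (r lt : V → V → Prop), HO r lt →
    ∀ (Y : Finset V) (L Φ B : V → Finset V) (E : V → V → Prop), (∀ x y, E x y → r x y) →
    (∀ u ∈ Y, (L u).Nonempty) → (∀ u ∈ Y, (L u).card ≤ c) → (∀ h, (Φ h).card ≤ c) → (∀ h, (B h).card ≤ c) →
    (∀ u ∈ Y, ∀ h ∈ L u, ∃ g ∈ B h, u ∈ aN r g) →
    (∀ u ∈ Y, ∀ v ∈ Y, E u v → ∀ h ∈ L u, ¬ Disjoint (Φ h) (L v)) → ColOn E (Y : Set V) C := by
  refine ⟨((2 * c ^ c + 1) * (2 * c * c + 1)) ^ (univ : Finset (Fin c → Fin c)).card, ?_⟩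
  intro V _ r lt hO Y L Φ B E hEr hLn hLc hΦ hB hadj hE
  rcases Y.eq_empty_or_nonempty with hY | ⟨u0, hu0⟩
  · subst hY
    exact ⟨fun _ => 0, fun v hv => absurd hv (by simp), fun x hx => absurd hx (by simp)⟩
  have hc : 1 ≤ c := (Finset.card_pos.2 (hLn u0 hu0)).trans_le (hLc u0 hu0)
  have hex : ∀ u : V, ∃ f : Fin c → V, u ∈ Y → (∀ i, f i ∈ L u) ∧ ∀ h ∈ L u, ∃ i, f i = h := by
    intro u
    by_cases hu : u ∈ Y
    · obtain ⟨f, hf⟩ := LabL_hh c (L u) (hLn u hu) (hLc u hu)
      exact ⟨f, fun _ => hf⟩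
    · exact ⟨fun _ => u, fun h => absurd h hu⟩
  choose hh hhp using hex
  set R : (Fin c → Fin c) → V → V → Prop := fun σ u v => E u v ∧ ∀ i, hh v (σ i) ∈ Φ (hh u i) with hR
  have hmain : ∀ σ : Fin c → Fin c, ColOn (R σ) (Y : Set V) ((2 * c ^ c + 1) * (2 * c * c + 1)) := by
    intro σ
    obtain ⟨i0, p, hp1, hpc, hper⟩ := LabL_period c hc σ
    obtain ⟨ψ, hψ1, hψ2⟩ := C5.deg_col (fun h h' : V => h' ∈ LabL_it Φ p h ∧ h ≠ h') (c ^ c)
      (fun a => ⟨LabL_it Φ p a, (LabL_it_card Φ c hΦ p a).trans (Nat.pow_le_pow_right hc hpc),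
        fun b hb => hb.1⟩) (fun a ha => ha.2 rfl)
    refine ColOn.classes (fun v => ψ (hh v i0)) (fun v _ => hψ1 _) ?_
    intro i _
    rcases path_or_col (R σ) {v | v ∈ (Y : Set V) ∧ ψ (hh v i0) = i} (s := 2 * c * c + 1) (by omega) with
      ⟨q, hqW, hqr⟩ | hcol
    · exfalso
      have hqY : ∀ j < 2 * c * c + 1, q j ∈ Y := fun j hj => Finset.mem_coe.1 (hqW j hj).1
      have hqi : ∀ j < 2 * c * c + 1, ψ (hh (q j) i0) = i := fun j hj => (hqW j hj).2
      set g : ℕ → V := fun j => hh (q j) (σ^[j] i0) with hg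
      have hstep : ∀ j, j + 1 < 2 * c * c + 1 → g (j + 1) ∈ Φ (g j) := by
        intro j hj
        have h1 := (hqr j hj).2 (σ^[j] i0)
        rw [hg]
        dsimp only
        rw [Function.iterate_succ_apply']
        exact h1
      have hfix : ∀ l, σ^[l * p] i0 = i0 := by
        intro l
        rw [mul_comm, Function.iterate_mul]
        exact Function.iterate_fixed hper l
      have hgl : ∀ l, g (l * p) = hh (q (l * p)) i0 := by
        intro l
        rw [hg]
        dsimp only
        rw [hfix l]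
      have heq : ∀ l, (l + 1) * p < 2 * c * c + 1 → g ((l + 1) * p) = g (l * p) := by
        intro l hl
        by_contra hne
        have e1 : (l + 1) * p = l * p + p := by ring
        have h1 : g (l * p + p) ∈ LabL_it Φ p (g (l * p + 0)) :=
          LabL_it_mem Φ (fun k => g (l * p + k)) p fun k hk => hstep (l * p + k) (by omega)
        rw [Nat.add_zero, ← e1] at h1
        have h2 := hψ2 (g (l * p)) (g ((l + 1) * p)) ⟨h1, fun h => hne h.symm⟩
        apply h2
        rw [hgl l, hgl (l + 1), hqi _ (by omega), hqi _ hl]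
      have hconst : ∀ l, l * p < 2 * c * c + 1 → g (l * p) = g 0 := by
        intro l
        induction l with
        | zero => intro _; rw [Nat.zero_mul]
        | succ l ih =>
          intro hl
          rw [heq l hl]
          exact ih (by nlinarith)
      have hlt : ∀ l ∈ range (2 * c + 1), l * p < 2 * c * c + 1 := by
        intro l hl
        rw [Finset.mem_range] at hl
        have h1 : l * p ≤ 2 * c * c := Nat.mul_le_mul (by omega) hpc
        omega
      have hb : ∀ l : ℕ, ∃ b : V, l ∈ range (2 * c + 1) → b ∈ B (g 0) ∧ q (l * p) ∈ aN r b := by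
        intro l
        by_cases hl : l ∈ range (2 * c + 1)
        · have h1 := hlt l hl
          have h2 : g 0 ∈ L (q (l * p)) := by
            rw [← hconst l h1, hgl l]
            exact (hhp (q (l * p)) (hqY _ h1)).1 i0
          obtain ⟨b, hb1, hb2⟩ := hadj (q (l * p)) (hqY _ h1) (g 0) h2
          exact ⟨b, fun _ => ⟨hb1, hb2⟩⟩
        · exact ⟨u0, fun h => absurd h hl⟩
      choose b hb using hb
      have hcount : (range (2 * c + 1)).card ≤ 2 * (B (g 0)).card := by
        refine Finset.card_le_mul_card_image_of_maps_to (f := b) (fun l hl => (hb l hl).1) 2 ?_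
        intro x _
        have h1 := path_adj hO q (2 * c * c + 1) (fun j hj => hEr _ _ (hqr j hj).1) x
        refine le_trans ?_ h1
        refine Finset.card_le_card_of_injOn (fun l => l * p) ?_ ?_
        · intro l hl
          rw [Finset.mem_coe, Finset.mem_filter] at hl
          rw [Finset.mem_coe, Finset.mem_filter, Finset.mem_range]
          refine ⟨hlt l hl.1, ?_⟩
          rw [← hl.2]
          exact (hb l hl.1).2
        · intro l _ l' _ hll
          exact Nat.eq_of_mul_eq_mul_right (by omega) hll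
      rw [Finset.card_range] at hcount
      have := hB (g 0)
      omega
    · exact hcol
  obtain ⟨f, hf1, hf2⟩ := LabL_prod (Y : Set V) ((2 * c ^ c + 1) * (2 * c * c + 1))
    (univ : Finset (Fin c → Fin c)) R (fun σ _ => hmain σ)
  refine ⟨f, hf1, ?_⟩
  intro x hx y hy hxy
  refine hf2 x hx y hy ?_
  have h1 : ∀ i : Fin c, ∃ j : Fin c, hh y j ∈ Φ (hh x i) := by
    intro i
    have h2 := hE x (Finset.mem_coe.1 hx) y (Finset.mem_coe.1 hy) hxy (hh x i)
      ((hhp x (Finset.mem_coe.1 hx)).1 i)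
    rw [Finset.not_disjoint_iff] at h2
    obtain ⟨a, ha1, ha2⟩ := h2
    obtain ⟨j, hj⟩ := (hhp y (Finset.mem_coe.1 hy)).2 a ha2
    exact ⟨j, hj.symm ▸ ha1⟩
  choose σ hσ using h1
  exact ⟨σ, Finset.mem_univ _, hxy, hσ⟩

end Pool.Agent.Lib.MP_b0c2b5_co.R3
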