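import Pool.Agent.Lib.MP_b0c2b5_co.R3.ChB
import Pool.Agent.Lib.MP_b0c2b5_co.R3.LabL
import Pool.Agent.Lib.MP_b0c2b5_co.LS.RefineA

/-!
# R3, Fin0: a union of labelled classes has bounded chromatic number

CONSTANTS: `c1 := max c (c * (K * (K+1)) * c)` (also the size of `Φ h`), `C1` from `label c1`, `c2 := c1 * (K + (K * (K+1)) * c)`, and `κ * (C1 * (c2 + 1) + (c + 1))` colours.
PROOF. Let `cl, b, a, L, B, Th` be the data of `Lev` (gap 2), `Y q := Λ.filter (cl = q)`; by `ColOn.classes` it is enough to colour every `Y q`; fix `q`, `b + 2 ≤ a ≤ n`, `Y ⊆ Vs n`.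
(1) `Y0 := {u ∈ Y : L u = ∅}`: for `u ∈ Y0 ⊆ Vs n ⊆ Vs b`, `Lab.hit` with `e = u`: at most `c` elements `v` of `oN r u ∩ Y` have `Disjoint (L v) (Th u)`, in particular at most `c` elements of `oN r u ∩ Y0`. So `ColOn r Y0 (c + 1)` (`outdeg_col` in `LS/RefineA.lean` for the relation `x ∈ Y0 ∧ y ∈ Y0 ∧ r x y`; it is contained in `lt`).
(2) `Y1 := {u ∈ Y : (L u).Nonempty}`. For `g ∈ Vs a` let `D g ⊆ Vs (a-2)` be the set of `Chn.cn` with `i = a - 2` (`i + 1 < n` because `a ≤ n`, `a ≥ 2`): `|(aN r v ∩ Vs (a-1)) \ (D g).biUnion (oN r)| ≤ K` for `v ∈ Vs a`, `v ∈ aN r g`. `Φ h := (B h).biUnion (fun g => (D g).biUnion Th)`. Let `E u v := r u v ∧ ∀ h ∈ L u, ¬ Disjoint (Φ h) (L v)`.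
`label` gives `ColOn E Y1 C1` (`aN`-property: `Lab.adj`). The arcs of `r` in `Y1` which are not in `E`: for `u ∈ Y1`, `h ∈ L u`: `u ∈ aN r g` for a `g ∈ B h ⊆ Vs a`; all `v ∈ oN r u ∩ Y` except `K` of them (`Y ⊆ Vs n ⊆ Vs (a-1)`) are in `oN r e` for some `e ∈ D g ⊆ Vs (a-2) ⊆ Vs b` (`b + 2 ≤ a`), and by `Lab.hit` all except `K (K+1) c` more have
`¬ Disjoint (L v) (Th e)`, `Th e ⊆ Φ h`. So every `u ∈ Y1` has at most `c * (K + K (K+1) c) ≤ c2` children `v ∈ Y1` with `¬ E u v`: `outdeg_col` (`LS/RefineA.lean`) for the relation `x ∈ Y1 ∧ y ∈ Y1 ∧ r x y ∧ ¬ E x y`. `ColOn.prod`: `ColOn r Y1 (C1 * (c2 + 1))`.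
(3) `ColOn.union` (`LS/Defs.lean`) for `Y1`, `Y0`.
-/

set_option autoImplicit false

namespace Pool.Agent.Lib.MP_b0c2b5_co.R3

open Finset LS
open scoped Classical

universe u

private theorem Fin0_out {V : Type u} [Fintype V] {r lt : V → V → Prop} (h : HO r lt) (W : Finset V)
    (a : V → V → Prop) (ha : ∀ x y, a x y → r x y) (t : ℕ)
    (hd : ∀ x ∈ W, ∃ S : Finset V, S.card ≤ t ∧ ∀ y ∈ W, a x y → y ∈ S) :
    ColOn a (W : Set V) (t + 1) := by
  obtain ⟨f, hf, hf2⟩ := outdeg_col h (fun x y => x ∈ W ∧ y ∈ W ∧ a x y)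
    (fun x y hxy => h.arc _ _ (ha _ _ hxy.2.2)) t (by
      intro v
      by_cases hv : v ∈ W
      · obtain ⟨S, hS, hS2⟩ := hd v hv
        exact ⟨S, hS, fun w hw => hS2 w hw.2.1 hw.2.2⟩
      · exact ⟨∅, by simp, fun w hw => absurd hw.1 hv⟩)
  exact ⟨f, fun v _ => hf v, fun x hx y hy hxy => hf2 x y ⟨hx, hy, hxy⟩⟩

private theorem Fin0_cls (K c : ℕ) : ∃ C : ℕ, ∀ (V : Type u) [Fintype V] (r lt : V → V → Prop), HO r lt →
    ∀ (n : ℕ) (Vs : ℕ → Finset V), Chn r K n Vs → ∀ (b i : ℕ) (Y : Finset V) (L B Th : V → Finset V),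
    b ≤ i → i + 2 ≤ n → Y ⊆ Vs n → Lab r Vs b (i+2) c Y L B Th → ColOn r (Y : Set V) C := by
  obtain ⟨C1, hC1⟩ := label.{u} (c + c * (K * (K + 1) * c))
  refine ⟨C1 * (c * (K + K * (K + 1) * c) + 1) + (c + 1), ?_⟩
  intro V _ r lt hho n Vs hch b i Y L B Th hbi hin hYn hlab
  have hYb : Y ⊆ Vs b := hYn.trans (hch.anti _ _ (by omega))
  have hY1 : Y ⊆ Vs (i + 1) := hYn.trans (hch.anti _ _ (by omega))
  have hY2 : Y ⊆ Vs (i + 2) := hYn.trans (hch.anti _ _ (by omega))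
  have hib : Vs i ⊆ Vs b := hch.anti _ _ hbi
  -- the sets `D g`
  have hD : ∀ g : V, ∃ D' : Finset V, D' ⊆ Vs i ∧ D'.card ≤ K * (K + 1) ∧ (g ∈ Vs (i+2) →
      ∀ v ∈ Vs (i+2), v ∈ aN r g → ((aN r v ∩ Vs (i+1)) \ D'.biUnion (oN r)).card ≤ K) := by
    intro g
    by_cases hg : g ∈ Vs (i+2)
    · obtain ⟨D', h1, h2, h3⟩ := hch.cn (i := i) (by omega) hg
      exact ⟨D', h1, h2, fun _ => h3⟩
    · exact ⟨∅, empty_subset _, by simp, fun h => absurd h hg⟩
  choose D hDs hDc hDk using hD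
  let Φ : V → Finset V := fun h => (B h).biUnion (fun g => (D g).biUnion Th)
  let E : V → V → Prop := fun u v => r u v ∧ ∀ h ∈ L u, ¬ Disjoint (Φ h) (L v)
  have hΦ : ∀ h, (Φ h).card ≤ c * (K * (K + 1) * c) := by
    intro h
    calc (Φ h).card ≤ (B h).card * (K * (K + 1) * c) := by
          refine card_biUnion_le_card_mul _ _ _ (fun g _ => ?_)
          calc ((D g).biUnion Th).card ≤ (D g).card * c :=
                card_biUnion_le_card_mul _ _ _ (fun e _ => hlab.Tc e)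
            _ ≤ K * (K + 1) * c := Nat.mul_le_mul_right _ (hDc g)
      _ ≤ c * (K * (K + 1) * c) := Nat.mul_le_mul_right _ (hlab.Bc h)
  have hcol1 : ColOn r ((Y.filter (fun u => (L u).Nonempty) : Finset V) : Set V)
      (C1 * (c * (K + K * (K + 1) * c) + 1)) := by
    have h1 : ColOn E ((Y.filter (fun u => (L u).Nonempty) : Finset V) : Set V) C1 := by
      refine hC1 V r lt hho _ L Φ B E (fun x y hxy => hxy.1) (fun u hu => (mem_filter.1 hu).2)
        (fun u hu => ?_) (fun h => ?_) (fun h => ?_) (fun u hu h hh => ?_) (fun u _ v _ huv => huv.2)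
      · exact (hlab.Lc u (mem_filter.1 hu).1).trans (Nat.le_add_right _ _)
      · exact (hΦ h).trans (Nat.le_add_left _ _)
      · exact (hlab.Bc h).trans (Nat.le_add_right _ _)
      · exact hlab.adj u (mem_filter.1 hu).1 h hh
    have h2 : ColOn (fun x y => r x y ∧ ¬ E x y) ((Y.filter (fun u => (L u).Nonempty) : Finset V) : Set V)
        (c * (K + K * (K + 1) * c) + 1) := by
      refine Fin0_out hho _ _ (fun x y hxy => hxy.1) _ (fun x hx => ?_)
      have hxY : x ∈ Y := (mem_filter.1 hx).1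
      -- the exceptional set of one label
      have hS : ∀ h : V, ∃ S : Finset V, S.card ≤ K + K * (K + 1) * c ∧ (h ∈ L x →
          ∀ y ∈ Y, r x y → Disjoint (Φ h) (L y) → y ∈ S) := by
        intro h
        by_cases hh : h ∈ L x
        · obtain ⟨g, hg, hxg⟩ := hlab.adj x hxY h hh
          have hgV : g ∈ Vs (i+2) := hlab.Bs h hg
          refine ⟨((aN r x ∩ Vs (i+1)) \ (D g).biUnion (oN r)) ∪
            (D g).biUnion (fun e => (oN r e ∩ Y).filter (fun z => Disjoint (L z) (Th e))), ?_, ?_⟩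
          · refine (card_union_le _ _).trans (Nat.add_le_add ?_ ?_)
            · exact hDk g hgV x (hY2 hxY) hxg
            · calc _ ≤ (D g).card * c := card_biUnion_le_card_mul _ _ _
                    (fun e he => hlab.hit e (hib (hDs g he)))
                _ ≤ K * (K + 1) * c := Nat.mul_le_mul_right _ (hDc g)
          · intro _ y hyY hxy hdis
            rw [mem_union]
            by_cases hy : y ∈ (D g).biUnion (oN r)
            · right
              obtain ⟨e, he, hye⟩ := mem_biUnion.1 hy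
              refine mem_biUnion.2 ⟨e, he, mem_filter.2 ⟨mem_inter.2 ⟨hye, hyY⟩, ?_⟩⟩
              refine (disjoint_of_subset_left ?_ hdis).symm
              intro w hw
              exact mem_biUnion.2 ⟨g, hg, mem_biUnion.2 ⟨e, he, hw⟩⟩
            · left
              exact mem_sdiff.2 ⟨mem_inter.2 ⟨mem_aN.2 (Or.inl hxy), hY1 hyY⟩, hy⟩
        · exact ⟨∅, by simp, fun h' => absurd h' hh⟩
      choose S hSc hS using hS
      refine ⟨(L x).biUnion S, ?_, ?_⟩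
      · calc _ ≤ (L x).card * (K + K * (K + 1) * c) := card_biUnion_le_card_mul _ _ _ (fun h _ => hSc h)
          _ ≤ c * (K + K * (K + 1) * c) := Nat.mul_le_mul_right _ (hlab.Lc x hxY)
      · intro y hy hxy
        have hyY : y ∈ Y := (mem_filter.1 hy).1
        have h3 : ∃ h ∈ L x, Disjoint (Φ h) (L y) := by
          by_contra hcon
          push Not at hcon
          exact hxy.2 ⟨hxy.1, hcon⟩
        obtain ⟨h, hh, hdis⟩ := h3
        exact mem_biUnion.2 ⟨h, hh, hS h hh y hyY hxy.1 hdis⟩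
    refine C4.ColOn.prod h1 h2 (fun x _ y _ hxy => ?_)
    by_cases hE : E x y
    · exact Or.inl hE
    · exact Or.inr ⟨hxy, hE⟩
  have hcol0 : ColOn r ((Y.filter (fun u => L u = ∅) : Finset V) : Set V) (c + 1) := by
    refine Fin0_out hho _ _ (fun x y hxy => hxy) _ (fun x hx => ?_)
    refine ⟨(oN r x ∩ Y).filter (fun z => Disjoint (L z) (Th x)), hlab.hit x (hYb (mem_filter.1 hx).1), ?_⟩
    intro y hy hxy
    obtain ⟨hyY, hyL⟩ := mem_filter.1 hy
    refine mem_filter.2 ⟨mem_inter.2 ⟨mem_oN.2 hxy, hyY⟩, ?_⟩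
    rw [hyL]
    exact disjoint_empty_left _
  refine (ColOn.union hcol1 hcol0).mono ?_ le_rfl
  intro x hx
  rcases (L x).eq_empty_or_nonempty with h0 | h0
  · exact Or.inr (mem_coe.2 (mem_filter.2 ⟨hx, h0⟩))
  · exact Or.inl (mem_coe.2 (mem_filter.2 ⟨hx, h0⟩))

theorem fin0 (K κ c : ℕ) : ∃ C : ℕ, ∀ (V : Type u) [Fintype V] (r lt : V → V → Prop), HO r lt → ∀ (n : ℕ)
    (Vs : ℕ → Finset V), Chn r K n Vs → ∀ (a0 : ℕ) (Λ : Finset V), a0 ≤ n → Λ ⊆ Vs n → Lev r Vs κ c 2 a0 Λ →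
    ColOn r (Λ : Set V) C := by
  obtain ⟨C, hC⟩ := Fin0_cls.{u} K c
  refine ⟨κ * C, ?_⟩
  intro V _ r lt hho n Vs hch a0 Λ ha0 hΛ hlev
  obtain ⟨cl, b, a, L, B, Th, hcl, hl⟩ := hlev
  refine ColOn.classes cl (fun v hv => hcl v hv) (fun q hq => ?_)
  obtain ⟨h1, h2, h3⟩ := hl q hq
  obtain ⟨i, hi⟩ : ∃ i, a q = i + 2 := ⟨a q - 2, by omega⟩
  rw [hi] at h1 h2 h3
  have h4 := hC V r lt hho n Vs hch (b q) i (Λ.filter (fun z => cl z = q)) L (B q) (Th q) (by omega)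
    (by omega) ((filter_subset _ _).trans hΛ) h3
  refine h4.mono ?_ le_rfl
  intro x hx
  exact mem_coe.2 (mem_filter.2 ⟨hx.1, hx.2⟩)

end Pool.Agent.Lib.MP_b0c2b5_co.R3
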