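import Pool.Agent.Lib.MP_b0c2b5_co.Mg.G001
import Pool.Agent.Lib.MP_b0c2b5_co.R3.FB

/-!
# R3, TG: random trees, version with one random coordinate

`Λ k` = possible values of the nodes of height `k`; every `z ∈ Λ (k+1)` has a list `ℓ k z : Fin T → V` of children in `Λ k`. `hc`: an arc `x → y` between a value `x` of height `k` and a value `y` of height `l` is improbable when `x` is a random entry of a list, or it is improbable when `y` is a random entry of a list. `he`: every value is improbable.
THEN an induced `treeG d t` exists. CHOICE OF `m`: `m := 4 * (N + 1) ^ 2` where `N` is the number of lists over `Fin t` of length `≤ d` (`Fintype.card {l : List (Fin t) // l.length ≤ d}`, with a `Fintype` instance by `Fintype.ofFinite`; finiteness: `List.finite_length_le`).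
PROOF. Let `Nd = {l : List (Fin t) // l.length ≤ d}`. For `ω : Nd → Fin T` (extend it to all lists by a default value `0 : Fin T`) define `val ω [] = z`, `val ω (i :: l) = ℓ (d - (l.length + 1)) (val ω l) (ω (i :: l))`. By induction `val ω l ∈ Λ (d - l.length)` for `l.length ≤ d` and `r (val ω l) (val ω (i :: l))` for `l.length < d`. So
`lt (val ω l) (val ω (l' ++ l))` for `l' ≠ []` (transitivity), and: (1) `val ω p` depends only on the coordinates which are suffixes of `p`: `val (update ω p0 s) p = val ω p` if `¬ p0 <:+ p` (suffix); `val (update ω p s) p = ℓ (d - p.length) (val ω p.tail) s` for `p ≠ []`.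
Let `p ≠ q` be nodes which are incomparable (`¬ p <:+ q`, `¬ q <:+ p`; so `p, q ≠ []`). (2) The event `r (val ω p) (val ω q)`, `k = d - p.length`, `l = d - q.length` (both `< d`): in the first case of `hc k l` fix all coordinates except `ω p`: `val ω q ∈ Λ l` does not change, `val ω p.tail ∈ Λ (k+1)` does not change, so for at most `T / m` values of `ω p` the event holds: by `fib1` at
most a fraction `1/m` of all `ω`. In the second case use the coordinate `q`. (3) The event `val ω p = val ω q`: `he` and `fib1` with the coordinate `p`. The number of pairs is at most `N ^ 2`, with two kinds of events each; as `2 N^2 < m` and the number `T ^ N` of all `ω` is positive, some `ω` avoids all of them (`m * (number of bad ω) ≤ 2 N^2 * T ^ N < m * T ^ N`).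
For this `ω` the map `l ↦ val ω l` is the embedding: injective (comparable: `lt` irreflexive; incomparable: (3)); tree edges are arcs; `val ω l`, `val ω (l' ++ l)` with `l'.length ≥ 2` are not adjacent: `lt (val l) (val x) ∧ lt (val x) (val (l' ++ l))` for the node `x = (last of l') :: l` and `HO.sf`, and the reversed arc contradicts `lt`; incomparable nodes: (2) in both orders.
-/

set_option autoImplicit false

namespace Pool.Agent.Lib.MP_b0c2b5_co.R3

open Finset LS
open scoped Classical

universe u

/-- union bound -/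
private theorem TG_union {Ω J : Type*} [Fintype Ω] [Fintype J] (E : J → Ω → Prop) [∀ j, DecidablePred (E j)] (m M : ℕ)
    (hM : Fintype.card Ω = M) (hM0 : 0 < M) (hS : Fintype.card J < m)
    (h : ∀ j, m * (univ.filter (E j)).card ≤ M) : ∃ ω, ∀ j, ¬ E j ω := by
  by_contra hcon
  push Not at hcon
  have h1 : (univ : Finset Ω) ⊆ (univ : Finset J).biUnion (fun j => univ.filter (E j)) := by
    intro ω _
    obtain ⟨j, hj⟩ := hcon ω
    exact mem_biUnion.2 ⟨j, mem_univ _, mem_filter.2 ⟨mem_univ _, hj⟩⟩
  have h2 : M ≤ ∑ j : J, (univ.filter (E j)).card := by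
    calc M = (univ : Finset Ω).card := by rw [← hM]; rfl
      _ ≤ _ := card_le_card h1
      _ ≤ _ := card_biUnion_le
  have h3 : m * M ≤ Fintype.card J * M := by
    calc m * M ≤ m * ∑ j : J, (univ.filter (E j)).card := Nat.mul_le_mul_left _ h2
      _ = ∑ j : J, m * (univ.filter (E j)).card := mul_sum _ _ _
      _ ≤ ∑ _j : J, M := sum_le_sum (fun j _ => h j)
      _ = Fintype.card J * M := by rw [sum_const, card_univ, smul_eq_mul]
  have h4 : m ≤ Fintype.card J := Nat.le_of_mul_le_mul_right h3 hM0
  omega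

private theorem TG_fib {ι : Type*} [Fintype ι] [i1 : DecidableEq ι] {T : ℕ} (p : ι) (E : (ι → Fin T) → Prop)
    [i2 : DecidablePred E] (m : ℕ)
    (h : ∀ ω (S : Finset (Fin T)), (∀ s ∈ S, E (Function.update ω p s)) → m * S.card ≤ T) :
    m * (univ.filter E).card ≤ T ^ Fintype.card ι := by
  obtain rfl : i1 = (fun a b => Classical.propDecidable (a = b)) := Subsingleton.elim _ _
  obtain rfl : i2 = (fun a => Classical.propDecidable (E a)) := Subsingleton.elim _ _
  refine fib1 p E m (fun ω => ?_)
  refine h ω _ (fun s hs => ?_)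
  exact ((@mem_filter _ _ (_) _ _).1 hs).2

private noncomputable def TG_ext {t d T : ℕ} (hT : 0 < T) (ω : {l : List (Fin t) // l.length ≤ d} → Fin T)
    (l : List (Fin t)) : Fin T := if h : l.length ≤ d then ω ⟨l, h⟩ else ⟨0, hT⟩

private theorem TG_ext_ne {t d T : ℕ} (hT : 0 < T) (ω : {l : List (Fin t) // l.length ≤ d} → Fin T)
    (p : {l : List (Fin t) // l.length ≤ d}) (s : Fin T) (l : List (Fin t)) (h : l ≠ p.1) :
    TG_ext hT (Function.update ω p s) l = TG_ext hT ω l := by
  unfold TG_ext
  by_cases hl : l.length ≤ d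
  · rw [dif_pos hl, dif_pos hl, Function.update_of_ne]
    intro hh
    exact h (by rw [← hh])
  · rw [dif_neg hl, dif_neg hl]

private theorem TG_ext_eq {t d T : ℕ} (hT : 0 < T) (ω : {l : List (Fin t) // l.length ≤ d} → Fin T)
    (p : {l : List (Fin t) // l.length ≤ d}) (s : Fin T) :
    TG_ext hT (Function.update ω p s) p.1 = s := by
  unfold TG_ext
  rw [dif_pos p.2]
  exact Function.update_self ..

private def TG_val {V : Type u} {t T : ℕ} (d : ℕ) (ℓ : ℕ → V → Fin T → V) (z : V) (c : List (Fin t) → Fin T) :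
    List (Fin t) → V
  | [] => z
  | i :: l => ℓ (d - (l.length + 1)) (TG_val d ℓ z c l) (c (i :: l))

private theorem TG_val_congr {V : Type u} {t T : ℕ} (d : ℕ) (ℓ : ℕ → V → Fin T → V) (z : V)
    (c c' : List (Fin t) → Fin T) : ∀ p : List (Fin t), (∀ l, l <:+ p → c l = c' l) →
    TG_val d ℓ z c p = TG_val d ℓ z c' p
  | [], _ => rfl
  | i :: l, h => by
    have h1 := TG_val_congr d ℓ z c c' l (fun l' hl' => h l' (hl'.trans (List.suffix_cons i l)))
    have h2 := h (i :: l) List.suffix_rfl
    simp only [TG_val, h1, h2]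

private theorem TG_val_mem {V : Type u} {t T : ℕ} (d : ℕ) (ℓ : ℕ → V → Fin T → V) (z : V)
    (c : List (Fin t) → Fin T) (r : V → V → Prop) (Λ : ℕ → Finset V) (hz : z ∈ Λ d)
    (hl : ∀ k < d, ∀ z ∈ Λ (k+1), ∀ s, ℓ k z s ∈ Λ k ∧ r z (ℓ k z s)) :
    ∀ l : List (Fin t), l.length ≤ d → TG_val d ℓ z c l ∈ Λ (d - l.length)
  | [], _ => by simpa [TG_val] using hz
  | i :: l, h => by
    have h0 : l.length + 1 ≤ d := by simpa using h
    have h1 := TG_val_mem d ℓ z c r Λ hz hl l (by omega)
    have h2 : d - l.length = (d - (l.length + 1)) + 1 := by omega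
    rw [h2] at h1
    have h3 := (hl (d - (l.length + 1)) (by omega) _ h1 (c (i :: l))).1
    simpa only [TG_val, List.length_cons] using h3

private theorem TG_val_arc {V : Type u} {t T : ℕ} (d : ℕ) (ℓ : ℕ → V → Fin T → V) (z : V)
    (c : List (Fin t) → Fin T) (r : V → V → Prop) (Λ : ℕ → Finset V) (hz : z ∈ Λ d)
    (hl : ∀ k < d, ∀ z ∈ Λ (k+1), ∀ s, ℓ k z s ∈ Λ k ∧ r z (ℓ k z s))
    (l : List (Fin t)) (i : Fin t) (h : l.length < d) :
    r (TG_val d ℓ z c l) (TG_val d ℓ z c (i :: l)) := by
  have h1 := TG_val_mem d ℓ z c r Λ hz hl l (by omega)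
  have h2 : d - l.length = (d - (l.length + 1)) + 1 := by omega
  rw [h2] at h1
  exact (hl (d - (l.length + 1)) (by omega) _ h1 (c (i :: l))).2

private theorem TG_val_lt {V : Type u} {t T : ℕ} (d : ℕ) (ℓ : ℕ → V → Fin T → V) (z : V)
    (c : List (Fin t) → Fin T) (r lt : V → V → Prop) (H : HO r lt) (Λ : ℕ → Finset V) (hz : z ∈ Λ d)
    (hl : ∀ k < d, ∀ z ∈ Λ (k+1), ∀ s, ℓ k z s ∈ Λ k ∧ r z (ℓ k z s))
    (l : List (Fin t)) : ∀ l' : List (Fin t), l' ≠ [] → (l' ++ l).length ≤ d →
    lt (TG_val d ℓ z c l) (TG_val d ℓ z c (l' ++ l))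
  | [], h0, _ => absurd rfl h0
  | [i], _, h => by
    have h1 : l.length < d := by simpa [Nat.succ_le_iff] using h
    exact H.arc _ _ (TG_val_arc d ℓ z c r Λ hz hl l i h1)
  | i :: j :: l', _, h => by
    have h1 : (j :: l' ++ l).length ≤ d := by
      simp only [List.cons_append, List.length_cons, List.length_append] at h ⊢
      omega
    have h2 := TG_val_lt d ℓ z c r lt H Λ hz hl l (j :: l') (by simp) h1
    have h3 : (j :: l' ++ l).length < d := by
      simp only [List.cons_append, List.length_cons, List.length_append] at h ⊢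
      omega
    have h4 := TG_val_arc d ℓ z c r Λ hz hl (j :: l' ++ l) i h3
    exact H.trans _ _ _ h2 (H.arc _ _ h4)

theorem tree_gen (d t : ℕ) : ∃ m : ℕ, 0 < m ∧ ∀ (V : Type u) [Fintype V] (r lt : V → V → Prop), HO r lt →
    ∀ (Λ : ℕ → Finset V) (T : ℕ), 0 < T → ∀ (ℓ : ℕ → V → Fin T → V),
    (∀ k < d, ∀ z ∈ Λ (k+1), ∀ s, ℓ k z s ∈ Λ k ∧ r z (ℓ k z s)) →
    (∀ k < d, ∀ l < d,
      (∀ z ∈ Λ (k+1), ∀ q ∈ Λ l, m * (univ.filter (fun s : Fin T => r (ℓ k z s) q)).card ≤ T) ∨
      (∀ z ∈ Λ (l+1), ∀ q ∈ Λ k, m * (univ.filter (fun s : Fin T => r q (ℓ l z s))).card ≤ T)) →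
    (∀ k < d, ∀ z ∈ Λ (k+1), ∀ q, m * (univ.filter (fun s : Fin T => ℓ k z s = q)).card ≤ T) →
    ∀ z ∈ Λ d, Nonempty (treeG d t ↪g Gr r) := by
  have hfin : Finite {l : List (Fin t) // l.length ≤ d} := (List.finite_length_le (Fin t) d).to_subtype
  have : Fintype {l : List (Fin t) // l.length ≤ d} := Fintype.ofFinite _
  set N := Fintype.card {l : List (Fin t) // l.length ≤ d} with hN
  refine ⟨4 * (N + 1) ^ 2, by positivity, ?_⟩
  intro V _ r lt H Λ T hT ℓ hl hc he z hz
  set m := 4 * (N + 1) ^ 2 with hm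
  -- values
  let W : ({l : List (Fin t) // l.length ≤ d} → Fin T) → List (Fin t) → V :=
    fun ω p => TG_val d ℓ z (TG_ext hT ω) p
  have hW : ∀ ω p, W ω p = TG_val d ℓ z (TG_ext hT ω) p := fun _ _ => rfl
  have hWmem : ∀ ω (p : List (Fin t)), p.length ≤ d → W ω p ∈ Λ (d - p.length) := fun ω p hp =>
    TG_val_mem d ℓ z _ r Λ hz hl p hp
  have hWarc : ∀ ω (l : List (Fin t)) (i : Fin t), l.length < d → r (W ω l) (W ω (i :: l)) := fun ω l i h =>
    TG_val_arc d ℓ z _ r Λ hz hl l i h
  have hWlt : ∀ ω (l l' : List (Fin t)), l' ≠ [] → (l' ++ l).length ≤ d → lt (W ω l) (W ω (l' ++ l)) :=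
    fun ω l l' h h' => TG_val_lt d ℓ z _ r lt H Λ hz hl l l' h h'
  -- dependence on the coordinates
  have hWne : ∀ ω (p : {l : List (Fin t) // l.length ≤ d}) (s : Fin T) (q : List (Fin t)), ¬ p.1 <:+ q →
      W (Function.update ω p s) q = W ω q := by
    intro ω p s q hpq
    refine TG_val_congr d ℓ z _ _ q (fun l hlq => TG_ext_ne hT ω p s l ?_)
    rintro rfl
    exact hpq hlq
  have hWeq : ∀ ω (p : {l : List (Fin t) // l.length ≤ d}) (s : Fin T) (a : Fin t) (p' : List (Fin t)),
      p.1 = a :: p' → W (Function.update ω p s) p.1 = ℓ (d - (p'.length + 1)) (W ω p') s := by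
    intro ω p s a p' hp
    have h1 : W (Function.update ω p s) p' = W ω p' := by
      refine hWne ω p s p' (fun h => ?_)
      have := h.length_le
      rw [hp] at this
      simp at this
    have h2 : TG_ext hT (Function.update ω p s) (a :: p') = s := by rw [← hp]; exact TG_ext_eq hT ω p s
    rw [hp]
    show ℓ (d - (p'.length + 1)) (W (Function.update ω p s) p') (TG_ext hT (Function.update ω p s) (a :: p')) = _
    rw [h1, h2]
  -- the events
  let E : {l : List (Fin t) // l.length ≤ d} × {l : List (Fin t) // l.length ≤ d} × Bool →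
      ({l : List (Fin t) // l.length ≤ d} → Fin T) → Prop := fun j ω =>
    (¬ j.1.1 <:+ j.2.1.1 ∧ ¬ j.2.1.1 <:+ j.1.1) ∧
      (if j.2.2 then r (W ω j.1.1) (W ω j.2.1.1) else W ω j.1.1 = W ω j.2.1.1)
  have hE : ∀ j, m * (univ.filter (E j)).card ≤ T ^ N := by
    rintro ⟨p, q, b⟩
    by_cases hpq : ¬ p.1 <:+ q.1 ∧ ¬ q.1 <:+ p.1
    swap
    · have : univ.filter (E (p, q, b)) = ∅ := by
        refine filter_eq_empty_iff.2 (fun ω _ h => hpq h.1)
      rw [this]
      simp
    obtain ⟨hpq1, hpq2⟩ := hpq
    obtain ⟨a, p', hp⟩ : ∃ a p', p.1 = a :: p' := by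
      cases h : p.1 with
      | nil => exact absurd (by rw [h]; exact List.nil_suffix) hpq1
      | cons a p' => exact ⟨a, p', rfl⟩
    obtain ⟨b', q', hq⟩ : ∃ b q', q.1 = b :: q' := by
      cases h : q.1 with
      | nil => exact absurd (by rw [h]; exact List.nil_suffix) hpq2
      | cons a p' => exact ⟨a, p', rfl⟩
    have hpl : p'.length + 1 ≤ d := by
      have := p.2
      rw [hp] at this
      simpa using this
    have hql : q'.length + 1 ≤ d := by
      have := q.2
      rw [hq] at this
      simpa using this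
    have hp' : ∀ ω, W ω p' ∈ Λ ((d - (p'.length + 1)) + 1) := by
      intro ω
      have := hWmem ω p' (by omega)
      rwa [show d - p'.length = (d - (p'.length + 1)) + 1 by omega] at this
    have hq' : ∀ ω, W ω q' ∈ Λ ((d - (q'.length + 1)) + 1) := by
      intro ω
      have := hWmem ω q' (by omega)
      rwa [show d - q'.length = (d - (q'.length + 1)) + 1 by omega] at this
    have hpm : ∀ ω, W ω p.1 ∈ Λ (d - (p'.length + 1)) := by
      intro ω
      have := hWmem ω p.1 p.2
      rwa [show p.1.length = p'.length + 1 by rw [hp]; simp] at this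
    have hqm : ∀ ω, W ω q.1 ∈ Λ (d - (q'.length + 1)) := by
      intro ω
      have := hWmem ω q.1 q.2
      rwa [show q.1.length = q'.length + 1 by rw [hq]; simp] at this
    cases b with
    | true =>
      rcases hc (d - (p'.length + 1)) (by omega) (d - (q'.length + 1)) (by omega) with h | h
      · refine TG_fib p (E (p, q, true)) m (fun ω S hS => ?_)
        refine le_trans (Nat.mul_le_mul_left _ (card_le_card ?_)) (h (W ω p') (hp' ω) (W ω q.1) (hqm ω))
        intro s hs
        have h1 := (hS s hs).2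
        simp only [if_true] at h1
        refine mem_filter.2 ⟨mem_univ _, ?_⟩
        rw [hWeq ω p s a p' hp, hWne ω p s q.1 hpq1] at h1
        exact h1
      · refine TG_fib q (E (p, q, true)) m (fun ω S hS => ?_)
        refine le_trans (Nat.mul_le_mul_left _ (card_le_card ?_)) (h (W ω q') (hq' ω) (W ω p.1) (hpm ω))
        intro s hs
        have h1 := (hS s hs).2
        simp only [if_true] at h1
        refine mem_filter.2 ⟨mem_univ _, ?_⟩
        rw [hWeq ω q s b' q' hq, hWne ω q s p.1 hpq2] at h1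
        exact h1
    | false =>
      refine TG_fib p (E (p, q, false)) m (fun ω S hS => ?_)
      refine le_trans (Nat.mul_le_mul_left _ (card_le_card ?_))
        (he (d - (p'.length + 1)) (by omega) (W ω p') (hp' ω) (W ω q.1))
      intro s hs
      have h1 := (hS s hs).2
      simp only [Bool.false_eq_true, if_false] at h1
      refine mem_filter.2 ⟨mem_univ _, ?_⟩
      rw [hWeq ω p s a p' hp, hWne ω p s q.1 hpq1] at h1
      exact h1
  obtain ⟨ω, hω⟩ := TG_union E m (T ^ N) (by rw [Fintype.card_fun, Fintype.card_fin]) (by positivity)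
    (by
      rw [Fintype.card_prod, Fintype.card_prod, Fintype.card_bool, ← hN, hm]
      nlinarith [Nat.zero_le N]) hE
  have hr : ∀ p q : {l : List (Fin t) // l.length ≤ d}, ¬ p.1 <:+ q.1 → ¬ q.1 <:+ p.1 →
      ¬ r (W ω p.1) (W ω q.1) := by
    intro p q h1 h2 h3
    exact hω (p, q, true) ⟨⟨h1, h2⟩, by simpa using h3⟩
  have hn : ∀ p q : {l : List (Fin t) // l.length ≤ d}, ¬ p.1 <:+ q.1 → ¬ q.1 <:+ p.1 →
      W ω p.1 ≠ W ω q.1 := by
    intro p q h1 h2 h3
    exact hω (p, q, false) ⟨⟨h1, h2⟩, by simpa using h3⟩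
  have hlt : ∀ p q : {l : List (Fin t) // l.length ≤ d}, p ≠ q → p.1 <:+ q.1 →
      lt (W ω p.1) (W ω q.1) := by
    intro p q hne hpq
    obtain ⟨l', hl'⟩ := hpq
    have h1 : l' ≠ [] := by
      rintro rfl
      exact hne (Subtype.ext (by simpa using hl'))
    rw [← hl']
    exact hWlt ω p.1 l' h1 (by rw [hl']; exact q.2)
  have hinj : Function.Injective (fun p : {l : List (Fin t) // l.length ≤ d} => W ω p.1) := by
    intro p q hpq
    simp only at hpq
    by_contra hne
    by_cases h1 : p.1 <:+ q.1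
    · have := hlt p q hne h1
      rw [hpq] at this
      exact H.irr _ this
    · by_cases h2 : q.1 <:+ p.1
      · have := hlt q p (Ne.symm hne) h2
        rw [hpq] at this
        exact H.irr _ this
      · exact hn p q h1 h2 hpq
  have hadj : ∀ p q : {l : List (Fin t) // l.length ≤ d}, r (W ω p.1) (W ω q.1) ↔ ∃ i, q.1 = i :: p.1 := by
    intro p q
    constructor
    · intro h
      by_cases hne : p = q
      · subst hne
        exact absurd (H.arc _ _ h) (H.irr _)
      by_cases h1 : p.1 <:+ q.1
      · obtain ⟨l', hl'⟩ := h1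
        rcases List.eq_nil_or_concat l' with h2 | ⟨l'', i, h2⟩
        · subst h2
          exact absurd (Subtype.ext (by simpa using hl')) hne
        · by_cases h3 : l'' = []
          · subst h3
            exact ⟨i, by rw [← hl', h2]; simp⟩
          · exfalso
            have h4 : q.1 = l'' ++ (i :: p.1) := by rw [← hl', h2]; simp
            have h5 : (l'' ++ (i :: p.1)).length ≤ d := by rw [← h4]; exact q.2
            have h6 := hWlt ω (i :: p.1) l'' h3 h5
            have h7 : ([i] ++ p.1).length ≤ d := by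
              simp only [List.length_append, List.length_cons, List.length_nil] at h5 ⊢
              omega
            have h8 := hWlt ω p.1 [i] (by simp) h7
            rw [← h4] at h6
            exact H.sf _ _ _ h h8 h6
      · by_cases h2 : q.1 <:+ p.1
        · exfalso
          exact H.irr _ (H.trans _ _ _ (H.arc _ _ h) (hlt q p (Ne.symm hne) h2))
        · exact absurd h (hr p q h1 h2)
    · rintro ⟨i, hi⟩
      rw [hi]
      refine hWarc ω p.1 i ?_
      have := q.2
      rw [hi] at this
      simpa [Nat.succ_le_iff] using this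
  refine ⟨⟨⟨fun p => W ω p.1, hinj⟩, ?_⟩⟩
  intro p q
  show (Gr r).Adj (W ω p.1) (W ω q.1) ↔ (treeG d t).Adj p q
  unfold Gr treeG
  rw [SimpleGraph.fromRel_adj, SimpleGraph.fromRel_adj, hadj p q, hadj q p]
  constructor
  · rintro ⟨h1, h2⟩
    exact ⟨fun h => h1 (by rw [h]), h2⟩
  · rintro ⟨h1, h2⟩
    exact ⟨fun h => h1 (hinj h), h2⟩

end Pool.Agent.Lib.MP_b0c2b5_co.R3
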