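import Pool.Agent.Lib.MP_b0c2b5_co.R3.CoS
import Pool.Agent.Lib.MP_b0c2b5_co.R3.TG

/-!
# R3, IP: the in-poor lemma (P-)

PROOF of `gr_rev`: both are `SimpleGraph.fromRel`, symmetric in the relation.
PROOF of `inpoor`. `m` from `tree_gen d t`, `k` from `cov_or_spread a b m`, `K := 2 * k`. For a universe `U` let `L 0 = U`, `L (j+1) = {x ∈ U : ¬ ∃ G ⊆ U, |G| ≤ k ∧ |(iN r x ∩ L j) \ G.biUnion (oN r)| ≤ k}`. `L (j+1) ⊆ L j` (induction on `j`: a cover of `iN r x ∩ L j` covers `iN r x ∩ L (j+1)`).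
(1) `L d = ∅`: let `x0 ∈ L d`. `cov_or_spread` with `N = oN r`, `N' = iN r` (`x ∈ oN r g ↔ g ∈ iN r x`, `Trc (iN r) a b`), `G0 = U`, `B = iN r x ∩ L j` for `x ∈ L (j+1)`, and a common `T ≥ T0`, `T > 0`: lists `ℓ j x : Fin T → V` with values in `iN r x ∩ L j`, `m * #{s : ℓ j x s ∈ oN r g} ≤ T` for `g ∈ U`, `m * #{s : ℓ j x s = y} ≤ T`
(for `x ∉ L (j+1)` anything). Apply `tree_gen` to the relation `rev r` (`h.flip : HO (rev r) (rev lt)`), `Λ j = L j`: `rev r x (ℓ j x s)` is `r (ℓ j x s) x`. `hc`: the first alternative, always: `rev r (ℓ k z s) q` is `r q (ℓ k z s)`, that is `ℓ k z s ∈ oN r q`, and `q ∈ L l ⊆ U`. So `treeG d t ↪g Gr (rev r) = Gr r`: contradiction.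
(2) Define `f x` for `x ∈ U`: if `x` has no parent in `U`: `f x = d`. Otherwise `f x` = the largest `j < d` with `x ∈ L j` (`L 0 = U`, `L d = ∅`; `Nat.findGreatest`). Let `x ∈ U`, `f x = i`. If `i = d`: for every `y ∈ U` with `r y x`: there is none. `Z = ∅`. If `i < d`: `x ∈ L i`, `x ∉ L (i+1)` (for `i + 1 = d` because `L d = ∅`): there is `G ⊆ U`, `|G| ≤ k` and
the set `R := (iN r x ∩ L i) \ G.biUnion (oN r)` has at most `k` elements. `Z := G ∪ {some parent in U of y : y ∈ R, y has a parent in U}`. If `y ∈ U`, `f y = i < d`, `r y x`: `y ∈ L i`, so `y ∈ G.biUnion (oN r)` or `y ∈ R`, and `y` has a parent in `U` (as `f y ≠ d`), so `y ∈ Z.biUnion (oN r)`.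
-/

set_option autoImplicit false

namespace Pool.Agent.Lib.MP_b0c2b5_co.R3

open Finset LS
open scoped Classical

universe u

theorem gr_rev {V : Type u} (r : V → V → Prop) : Gr (rev r) = Gr r := by
  ext a b
  simp only [Gr, rev, SimpleGraph.fromRel_adj]
  constructor
  · rintro ⟨h, h'⟩
    exact ⟨h, h'.symm⟩
  · rintro ⟨h, h'⟩
    exact ⟨h, h'.symm⟩

private noncomputable def IP_L {V : Type u} [Fintype V] (r : V → V → Prop) (k : ℕ) (U : Finset V) :
    ℕ → Finset V
  | 0 => U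
  | j + 1 => U.filter (fun x => ¬ ∃ G ⊆ U, G.card ≤ k ∧
      ((iN r x ∩ IP_L r k U j) \ G.biUnion (oN r)).card ≤ k)

private theorem IP_mem {V : Type u} [Fintype V] {r : V → V → Prop} {k : ℕ} {U : Finset V} {j : ℕ}
    {x : V} : x ∈ IP_L r k U (j+1) ↔ x ∈ U ∧ ¬ ∃ G ⊆ U, G.card ≤ k ∧
      ((iN r x ∩ IP_L r k U j) \ G.biUnion (oN r)).card ≤ k := by
  rw [IP_L, mem_filter]

private theorem IP_anti {V : Type u} [Fintype V] (r : V → V → Prop) (k : ℕ) (U : Finset V) (j : ℕ) :
    IP_L r k U (j+1) ⊆ IP_L r k U j := by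
  induction j with
  | zero =>
    intro x hx
    exact (IP_mem.1 hx).1
  | succ j ih =>
    intro x hx
    rw [IP_mem] at hx ⊢
    refine ⟨hx.1, ?_⟩
    rintro ⟨G, hG, h1, h2⟩
    refine hx.2 ⟨G, hG, h1, le_trans (card_le_card ?_) h2⟩
    exact sdiff_subset_sdiff (inter_subset_inter_left ih) (le_refl _)

private theorem IP_sub {V : Type u} [Fintype V] (r : V → V → Prop) (k : ℕ) (U : Finset V) (j : ℕ) :
    IP_L r k U j ⊆ U := by
  induction j with
  | zero => exact le_refl _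
  | succ j ih => exact (IP_anti r k U j).trans ih

theorem inpoor (d t a b : ℕ) : ∃ K : ℕ, ∀ (V : Type u) [Fintype V] (r lt : V → V → Prop), HO r lt → Trc (iN r) a b →
    ¬ Nonempty (treeG d t ↪g Gr r) → ∀ U : Finset V, ∃ f : V → ℕ, (∀ x ∈ U, f x < d + 1) ∧
      ∀ x ∈ U, ∃ Z ⊆ U, Z.card ≤ K ∧ ∀ y ∈ U, f y = f x → r y x → y ∈ Z.biUnion (oN r) := by
  obtain ⟨m, hm, htree⟩ := tree_gen.{u} d t
  obtain ⟨k, hk⟩ := cov_or_spread.{u} a b m hm
  refine ⟨2 * k, ?_⟩
  intro V _ r lt h hT hno U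
  have hempty : IP_L r k U d = ∅ := by
    rw [Finset.eq_empty_iff_forall_notMem]
    intro x0 hx0
    apply hno
    obtain ⟨T0, hT0⟩ := hk V (oN r) (iN r) (fun g x => by rw [mem_oN, mem_iN]) hT
    have hex : ∀ (j : ℕ) (x : V), ∃ ℓ : Fin (max T0 1) → V, x ∈ IP_L r k U (j+1) →
        (∀ s, ℓ s ∈ iN r x ∩ IP_L r k U j) ∧
        (∀ g ∈ U, m * (univ.filter (fun s => ℓ s ∈ oN r g)).card ≤ max T0 1) ∧
        ∀ y, m * (univ.filter (fun s => ℓ s = y)).card ≤ max T0 1 := by
      intro j x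
      by_cases hx : x ∈ IP_L r k U (j+1)
      · obtain ⟨ℓ, hℓ⟩ := hT0 U (iN r x ∩ IP_L r k U j) (IP_mem.1 hx).2 (max T0 1) (le_max_left _ _)
        exact ⟨ℓ, fun _ => hℓ⟩
      · exact ⟨fun _ => x, fun hx' => absurd hx' hx⟩
    choose ℓ hℓ using hex
    have hmain := htree V (rev r) (rev lt) h.flip (IP_L r k U) (max T0 1)
      (lt_of_lt_of_le Nat.zero_lt_one (le_max_right _ _)) ℓ
      (by
        intro j _ z hz s
        have h1 := (hℓ j z hz).1 s
        rw [mem_inter, mem_iN] at h1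
        exact ⟨h1.2, h1.1⟩)
      (by
        intro j _ l _
        left
        intro z hz q hq
        have h1 := (hℓ j z hz).2.1 q (IP_sub r k U l hq)
        have h2 : (univ.filter (fun s => rev r (ℓ j z s) q)) =
            univ.filter (fun s => ℓ j z s ∈ oN r q) := by
          apply filter_congr
          intro s _
          rw [mem_oN]
          rfl
        rw [h2]
        exact h1)
      (by
        intro j _ z hz q
        exact (hℓ j z hz).2.2 q) x0 hx0
    rw [gr_rev] at hmain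
    exact hmain
  have hf : ∀ x ∈ U, x ∈ IP_L r k U (Nat.findGreatest (fun j => x ∈ IP_L r k U j) d) ∧
      Nat.findGreatest (fun j => x ∈ IP_L r k U j) d < d ∧
      x ∉ IP_L r k U (Nat.findGreatest (fun j => x ∈ IP_L r k U j) d + 1) := by
    intro x hx
    have h0 : x ∈ IP_L r k U 0 := hx
    have h1 : x ∈ IP_L r k U (Nat.findGreatest (fun j => x ∈ IP_L r k U j) d) :=
      Nat.findGreatest_spec (P := fun j => x ∈ IP_L r k U j) (Nat.zero_le d) h0
    have h2 : Nat.findGreatest (fun j => x ∈ IP_L r k U j) d < d := by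
      refine lt_of_le_of_ne (Nat.findGreatest_le d) ?_
      intro he
      rw [he, hempty] at h1
      simp at h1
    refine ⟨h1, h2, ?_⟩
    exact Nat.findGreatest_is_greatest (P := fun j => x ∈ IP_L r k U j) (Nat.lt_succ_self _) h2
  let f : V → ℕ := fun x => if (∃ y ∈ U, r y x) then
    Nat.findGreatest (fun j => x ∈ IP_L r k U j) d else d
  refine ⟨f, ?_, ?_⟩
  · intro x _
    change (if (∃ y ∈ U, r y x) then Nat.findGreatest (fun j => x ∈ IP_L r k U j) d else d) < d + 1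
    split_ifs
    · exact Nat.lt_succ_of_le (Nat.findGreatest_le d)
    · exact Nat.lt_succ_self d
  · intro x hx
    by_cases hP : ∃ y ∈ U, r y x
    · have hfx : f x = Nat.findGreatest (fun j => x ∈ IP_L r k U j) d := if_pos hP
      obtain ⟨h1, h2, h3⟩ := hf x hx
      rw [← hfx] at h1 h2 h3
      rw [IP_mem] at h3
      have h4 : ∃ G ⊆ U, G.card ≤ k ∧
          ((iN r x ∩ IP_L r k U (f x)) \ G.biUnion (oN r)).card ≤ k := by
        by_contra hc
        exact h3 ⟨hx, hc⟩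
      obtain ⟨G, hG, hG1, hG2⟩ := h4
      have hpar : ∀ y : V, ∃ z : V, (∃ z ∈ U, r z y) → z ∈ U ∧ r z y := by
        intro y
        by_cases hy : ∃ z ∈ U, r z y
        · obtain ⟨z, hz, hz'⟩ := hy
          exact ⟨z, fun _ => ⟨hz, hz'⟩⟩
        · exact ⟨y, fun h => absurd h hy⟩
      choose par hpar' using hpar
      refine ⟨G ∪ (((iN r x ∩ IP_L r k U (f x)) \ G.biUnion (oN r)).filter
        (fun y => ∃ z ∈ U, r z y)).image par, ?_, ?_, ?_⟩
      · intro z hz
        rcases mem_union.1 hz with hz | hz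
        · exact hG hz
        · obtain ⟨y, hy, rfl⟩ := mem_image.1 hz
          exact (hpar' y (mem_filter.1 hy).2).1
      · have h5 := card_union_le G ((((iN r x ∩ IP_L r k U (f x)) \ G.biUnion (oN r)).filter
          (fun y => ∃ z ∈ U, r z y)).image par)
        have h6 : ((((iN r x ∩ IP_L r k U (f x)) \ G.biUnion (oN r)).filter
          (fun y => ∃ z ∈ U, r z y)).image par).card ≤ k :=
          le_trans card_image_le (le_trans (card_filter_le _ _) hG2)
        omega
      · intro y hy hfy hyx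
        have hPy : ∃ z ∈ U, r z y := by
          by_contra hc
          have h5 : f y = d := if_neg hc
          omega
        have hfy' : f y = Nat.findGreatest (fun j => y ∈ IP_L r k U j) d := if_pos hPy
        have h5 := (hf y hy).1
        rw [← hfy', hfy] at h5
        by_cases hyG : y ∈ G.biUnion (oN r)
        · obtain ⟨g, hg, hg'⟩ := mem_biUnion.1 hyG
          exact mem_biUnion.2 ⟨g, mem_union_left _ hg, hg'⟩
        · refine mem_biUnion.2 ⟨par y, mem_union_right _ (mem_image.2 ⟨y, mem_filter.2 ⟨?_, hPy⟩, rfl⟩),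
            mem_oN.2 (hpar' y hPy).2⟩
          exact mem_sdiff.2 ⟨mem_inter.2 ⟨mem_iN.2 hyx, h5⟩, hyG⟩
    · refine ⟨∅, empty_subset _, by simp, ?_⟩
      intro y hy _ hyx
      exact absurd ⟨y, hy, hyx⟩ hP

end Pool.Agent.Lib.MP_b0c2b5_co.R3
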