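import Pool.Agent.Lib.MP_b0c2b5_co.Mg.G001
import Pool.Agent.Lib.MP_b0c2b5_co.R3.FB

/-!
# R3, TO: random trees, version with two random coordinates

Adjacency in `Gr r`: `x ∈ aN r g` iff `r g x` or `r x g` (symmetric, irreflexive, triangle free: three mutually comparable vertices `x → y → z`, `x → z` contradict `HO.sf`).
CHOICE OF `m`: `m := 4 * (N + 1) ^ 2`, `N = Fintype.card Nd`, `Nd = {l : List (Fin t) // l.length ≤ d}` (`Fintype.ofFinite`, `List.finite_length_le`).
PROOF. For `ω : Nd → Fin T` (extended by a default value `0 : Fin T` to all lists) let `pa ω [] = []`, `pa ω (i :: l) = ω (i :: l) :: pa ω l` (a list over `Fin T` of the same length) and `val ω [] = u`, `val ω l = φ (pa ω l)` for `l ≠ []`. By `base` and `edge`: `val ω (i :: l) ∈ aN r (val ω l) ∩ U` for `l.length < d`; all values are in `U`.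
`pa (update ω p s) q = pa ω q` if `¬ p <:+ q`.
(2) Let `p, q` be nodes with `p.length ≤ q.length`, `2 ≤ q.length`, `q = i :: q'`, `q' = i' :: q''`, `¬ q' <:+ p` (in particular `¬ q <:+ p`). The event `val ω q ∈ aN r (val ω p)`: fix all coordinates except `ω q'` and `ω q`: `val ω p = g ∈ U` does not change, `val ω q = φ (s' :: s :: pa ω q'')` where `s = ω q'`, `s' = ω q`. By `pair` (`l = pa ω q''`, length
`q.length - 2`) at most `T * T / m` of the pairs `(s, s')` are bad. So by `fib2` (coordinates `q'`, `q`) `m * #{ω : bad} ≤ T ^ N`.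
(3) Let `q.length = d`, `q ≠ p`, `p.length ≤ q.length`. The event `val ω q = val ω p`: fix all coordinates except `ω q` (`¬ q <:+ p`); `last` and `fib1`.
At most `2 N^2 < m` events, the number `T ^ N` of all `ω` is positive: some `ω` avoids all of them. For this `ω`, `l ↦ val ω l` is the embedding. ADJACENCY: tree edges are adjacent. Let `p ≠ q`, `p.length ≤ q.length`, not a tree edge, and suppose that `val ω q`, `val ω p` are adjacent. If `q.length ≥ 2` and `¬ q' <:+ p`: excluded by (2). If `q' <:+ p`: `p = q'` is a tree edge;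
otherwise `p` has the length of `q` and the same tail `q'`: both values are adjacent to `val ω q'`: triangle. If `q.length = 1`: `p = []` is a tree edge, or `p.length = 1`: both are adjacent to `u`: triangle. (`q.length = 0`: `p = q`.) INJECTIVITY: let `p ≠ q`, `p.length ≤ q.length`, `val ω p = val ω q`. If `q.length = d`: (3). Otherwise let `c = 0 :: q` be a child of `q`
(if `t = 0` there is only one node and nothing is to be shown): `val ω c` is adjacent to `val ω q = val ω p`, and `c.length ≥ 2` unless `q = []` (then `p = []`), `¬ q <:+ p` (`p.length ≤ q.length`, `p ≠ q`): excluded by (2) for the pair `p, c`.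
-/

set_option autoImplicit false

namespace Pool.Agent.Lib.MP_b0c2b5_co.R3

open Finset LS
open scoped Classical

universe u

/-- union bound -/
private theorem TO_union {Ω J : Type*} [Fintype Ω] [Fintype J] (E : J → Ω → Prop) [∀ j, DecidablePred (E j)] (m M : ℕ)
    (hM : Fintype.card Ω = M) (hM0 : 0 < M) (hS : Fintype.card J < m)
    (h : ∀ j, m * (univ.filter (E j)).card ≤ M) : ∃ ω, ∀ j, ¬ E j ω := by
  by_contra hcon
  push Not at hcon
  have h1 : (univ : Finset Ω) ⊆ (univ : Finset J).biUnion (fun j => univ.filter (E j)) := by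
    intro ω _
    obtain ⟨j, hj⟩ := hcon ω
    exact mem_biUnion.2 ⟨j, mem_univ _, mem_filter.2 ⟨mem_univ _, hj⟩⟩
  have h2 : M ≤ ∑ j : J, (univ.filter (E j)).card := by
    calc M = (univ : Finset Ω).card := by rw [← hM]; rfl
      _ ≤ _ := card_le_card h1
      _ ≤ _ := card_biUnion_le
  have h3 : m * M ≤ Fintype.card J * M := by
    calc m * M ≤ m * ∑ j : J, (univ.filter (E j)).card := Nat.mul_le_mul_left _ h2
      _ = ∑ j : J, m * (univ.filter (E j)).card := mul_sum _ _ _
      _ ≤ ∑ _j : J, M := sum_le_sum (fun j _ => h j)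
      _ = Fintype.card J * M := by rw [sum_const, card_univ, smul_eq_mul]
  have h4 : m ≤ Fintype.card J := Nat.le_of_mul_le_mul_right h3 hM0
  omega

private theorem TO_fib {ι : Type*} [Fintype ι] [i1 : DecidableEq ι] {T : ℕ} (p : ι) (E : (ι → Fin T) → Prop)
    [i2 : DecidablePred E] (m : ℕ)
    (h : ∀ ω (S : Finset (Fin T)), (∀ s ∈ S, E (Function.update ω p s)) → m * S.card ≤ T) :
    m * (univ.filter E).card ≤ T ^ Fintype.card ι := by
  obtain rfl : i1 = (fun a b => Classical.propDecidable (a = b)) := Subsingleton.elim _ _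
  obtain rfl : i2 = (fun a => Classical.propDecidable (E a)) := Subsingleton.elim _ _
  refine fib1 p E m (fun ω => ?_)
  refine h ω _ (fun s hs => ?_)
  exact ((@mem_filter _ _ (_) _ _).1 hs).2

private theorem TO_fib2 {ι : Type*} [Fintype ι] [i1 : DecidableEq ι] {T : ℕ} (p p' : ι) (hp : p ≠ p')
    (E : (ι → Fin T) → Prop) [i2 : DecidablePred E] (m : ℕ)
    (h : ∀ ω (S : Finset (Fin T × Fin T)), (∀ s ∈ S, E (Function.update (Function.update ω p s.1) p' s.2)) →
      m * S.card ≤ T * T) :
    m * (univ.filter E).card ≤ T ^ Fintype.card ι := by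
  obtain rfl : i1 = (fun a b => Classical.propDecidable (a = b)) := Subsingleton.elim _ _
  obtain rfl : i2 = (fun a => Classical.propDecidable (E a)) := Subsingleton.elim _ _
  refine fib2 p p' hp E m (fun ω => ?_)
  refine h ω _ (fun s hs => ?_)
  exact ((@mem_filter _ _ (_) _ _).1 hs).2

private noncomputable def TO_ext {t d T : ℕ} (hT : 0 < T) (ω : {l : List (Fin t) // l.length ≤ d} → Fin T)
    (l : List (Fin t)) : Fin T := if h : l.length ≤ d then ω ⟨l, h⟩ else ⟨0, hT⟩

private theorem TO_ext_ne {t d T : ℕ} (hT : 0 < T) (ω : {l : List (Fin t) // l.length ≤ d} → Fin T)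
    (p : {l : List (Fin t) // l.length ≤ d}) (s : Fin T) (l : List (Fin t)) (h : l ≠ p.1) :
    TO_ext hT (Function.update ω p s) l = TO_ext hT ω l := by
  unfold TO_ext
  by_cases hl : l.length ≤ d
  · rw [dif_pos hl, dif_pos hl, Function.update_of_ne]
    intro hh
    exact h (by rw [← hh])
  · rw [dif_neg hl, dif_neg hl]

private theorem TO_ext_eq {t d T : ℕ} (hT : 0 < T) (ω : {l : List (Fin t) // l.length ≤ d} → Fin T)
    (p : {l : List (Fin t) // l.length ≤ d}) (s : Fin T) :
    TO_ext hT (Function.update ω p s) p.1 = s := by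
  unfold TO_ext
  rw [dif_pos p.2]
  exact Function.update_self ..

private def TO_pa {t T : ℕ} (c : List (Fin t) → Fin T) : List (Fin t) → List (Fin T)
  | [] => []
  | i :: l => c (i :: l) :: TO_pa c l

private theorem TO_pa_length {t T : ℕ} (c : List (Fin t) → Fin T) : ∀ l, (TO_pa c l).length = l.length
  | [] => rfl
  | i :: l => by simp [TO_pa, TO_pa_length c l]

private theorem TO_pa_congr {t T : ℕ} (c c' : List (Fin t) → Fin T) : ∀ p : List (Fin t),
    (∀ l, l <:+ p → c l = c' l) → TO_pa c p = TO_pa c' p
  | [], _ => rfl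
  | i :: l, h => by
    have h1 := TO_pa_congr c c' l (fun l' hl' => h l' (hl'.trans (List.suffix_cons i l)))
    have h2 := h (i :: l) List.suffix_rfl
    simp only [TO_pa, h1, h2]

private def TO_val {V : Type u} {t T : ℕ} (u : V) (φ : List (Fin T) → V) (c : List (Fin t) → Fin T) :
    List (Fin t) → V
  | [] => u
  | i :: l => φ (TO_pa c (i :: l))

private theorem TO_val_congr {V : Type u} {t T : ℕ} (u : V) (φ : List (Fin T) → V)
    (c c' : List (Fin t) → Fin T) : ∀ p : List (Fin t), (∀ l, l <:+ p → c l = c' l) →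
    TO_val u φ c p = TO_val u φ c' p
  | [], _ => rfl
  | i :: l, h => by
    have h1 := TO_pa_congr c c' (i :: l) h
    simp only [TO_val, h1]

private theorem TO_tri {V : Type u} [Fintype V] {r lt : V → V → Prop} (H : HO r lt) {x y w : V}
    (h1 : x ∈ aN r w) (h2 : y ∈ aN r w) (h3 : y ∈ aN r x) : False := by
  rw [mem_aN] at h1 h2 h3
  rcases h1 with h1 | h1 <;> rcases h2 with h2 | h2 <;> rcases h3 with h3 | h3
  · exact H.sf w y x h2 (H.arc _ _ h1) (H.arc _ _ h3)
  · exact H.sf w x y h1 (H.arc _ _ h2) (H.arc _ _ h3)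
  · exact H.irr w (H.trans _ _ _ (H.arc _ _ h1) (H.trans _ _ _ (H.arc _ _ h3) (H.arc _ _ h2)))
  · exact H.sf y x w h3 (H.arc _ _ h2) (H.arc _ _ h1)
  · exact H.sf x y w h3 (H.arc _ _ h1) (H.arc _ _ h2)
  · exact H.irr x (H.trans _ _ _ (H.arc _ _ h1) (H.trans _ _ _ (H.arc _ _ h2) (H.arc _ _ h3)))
  · exact H.sf x w y h1 (H.arc _ _ h3) (H.arc _ _ h2)
  · exact H.sf y w x h2 (H.arc _ _ h3) (H.arc _ _ h1)

theorem tree_obj (d t : ℕ) (hd : 1 ≤ d) : ∃ m : ℕ, 0 < m ∧ ∀ (V : Type u) [Fintype V] (r lt : V → V → Prop), HO r lt →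
    ∀ (U : Finset V), ∀ u ∈ U, ∀ T : ℕ, 0 < T → ∀ φ : List (Fin T) → V, Obj r U T m d (aN r u ∩ U) φ →
    Nonempty (treeG d t ↪g Gr r) := by
  have hfin : Finite {l : List (Fin t) // l.length ≤ d} := (List.finite_length_le (Fin t) d).to_subtype
  have : Fintype {l : List (Fin t) // l.length ≤ d} := Fintype.ofFinite _
  set N := Fintype.card {l : List (Fin t) // l.length ≤ d} with hN
  refine ⟨4 * (N + 1) ^ 2, by positivity, ?_⟩
  intro V _ r lt H U u hu T hT φ hO
  set m := 4 * (N + 1) ^ 2 with hm
  let W : ({l : List (Fin t) // l.length ≤ d} → Fin T) → List (Fin t) → V :=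
    fun ω p => TO_val u φ (TO_ext hT ω) p
  have hWedge : ∀ ω (l : List (Fin t)) (i : Fin t), l.length < d → W ω (i :: l) ∈ aN r (W ω l) ∩ U := by
    intro ω l i h
    cases l with
    | nil =>
      show φ (TO_pa (TO_ext hT ω) [i]) ∈ aN r u ∩ U
      exact hO.base _
    | cons j l' =>
      show φ (TO_ext hT ω (i :: j :: l') :: TO_pa (TO_ext hT ω) (j :: l')) ∈ aN r (φ (TO_pa (TO_ext hT ω) (j :: l'))) ∩ U
      refine hO.edge _ _ ?_ ?_
      · rw [TO_pa_length]; simp
      · rw [TO_pa_length]; exact h
  have hWU : ∀ ω (l : List (Fin t)), l.length ≤ d → W ω l ∈ U := by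
    intro ω l h
    cases l with
    | nil => exact hu
    | cons j l' =>
      have := hWedge ω l' j (by simpa [Nat.succ_le_iff] using h)
      exact (mem_inter.1 this).2
  have hcne : ∀ ω (p : {l : List (Fin t) // l.length ≤ d}) (s : Fin T) (q : List (Fin t)), ¬ p.1 <:+ q →
      ∀ l, l <:+ q → TO_ext hT (Function.update ω p s) l = TO_ext hT ω l := by
    intro ω p s q hpq l hlq
    refine TO_ext_ne hT ω p s l ?_
    rintro rfl
    exact hpq hlq
  have hWne : ∀ ω (p : {l : List (Fin t) // l.length ≤ d}) (s : Fin T) (q : List (Fin t)), ¬ p.1 <:+ q →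
      W (Function.update ω p s) q = W ω q := fun ω p s q hpq =>
    TO_val_congr u φ _ _ q (hcne ω p s q hpq)
  have hPne : ∀ ω (p : {l : List (Fin t) // l.length ≤ d}) (s : Fin T) (q : List (Fin t)), ¬ p.1 <:+ q →
      TO_pa (TO_ext hT (Function.update ω p s)) q = TO_pa (TO_ext hT ω) q := fun ω p s q hpq =>
    TO_pa_congr _ _ q (hcne ω p s q hpq)
  -- the events
  let E : {l : List (Fin t) // l.length ≤ d} × {l : List (Fin t) // l.length ≤ d} × Bool →
      ({l : List (Fin t) // l.length ≤ d} → Fin T) → Prop := fun j ω =>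
    if j.2.2 then (2 ≤ j.2.1.1.length ∧ j.1.1.length ≤ j.2.1.1.length ∧ ¬ j.2.1.1.tail <:+ j.1.1) ∧
        W ω j.2.1.1 ∈ aN r (W ω j.1.1)
      else (j.2.1.1.length = d ∧ j.1.1.length ≤ j.2.1.1.length ∧ j.1 ≠ j.2.1) ∧ W ω j.2.1.1 = W ω j.1.1
  have hE : ∀ j, m * (univ.filter (E j)).card ≤ T ^ N := by
    rintro ⟨p, q, b⟩
    cases b with
    | true =>
      by_cases hpq : 2 ≤ q.1.length ∧ p.1.length ≤ q.1.length ∧ ¬ q.1.tail <:+ p.1
      swap
      · have : univ.filter (E (p, q, true)) = ∅ := by
          refine filter_eq_empty_iff.2 (fun ω _ h => hpq ?_)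
          have h' : (2 ≤ q.1.length ∧ p.1.length ≤ q.1.length ∧ ¬ q.1.tail <:+ p.1) ∧
            W ω q.1 ∈ aN r (W ω p.1) := h
          exact h'.1
        rw [this]
        simp
      obtain ⟨hq2, hpql, hsuf⟩ := hpq
      obtain ⟨i, i', q'', hq⟩ : ∃ i i' q'', q.1 = i :: i' :: q'' := by
        match hh : q.1 with
        | [] => rw [hh] at hq2; simp at hq2
        | [a] => rw [hh] at hq2; simp at hq2
        | a :: b :: l => exact ⟨a, b, l, rfl⟩
      have hql : q''.length + 2 ≤ d := by
        have := q.2
        rw [hq] at this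
        simp only [List.length_cons] at this
        omega
      have hsuf' : ¬ (i' :: q'') <:+ p.1 := by rw [hq] at hsuf; exact hsuf
      let q' : {l : List (Fin t) // l.length ≤ d} := ⟨i' :: q'', by simp only [List.length_cons]; omega⟩
      have hq'1 : q'.1 = i' :: q'' := rfl
      have hne : q' ≠ q := by
        intro h
        have : q'.1.length = q.1.length := by rw [h]
        rw [hq'1, hq] at this
        simp at this
      have hqp : ¬ q.1 <:+ p.1 := by
        intro h
        refine hsuf' (List.IsSuffix.trans ?_ h)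
        rw [hq]
        exact List.suffix_cons _ _
      refine TO_fib2 q' q hne (E (p, q, true)) m (fun ω S hS => ?_)
      refine le_trans (Nat.mul_le_mul_left _ (card_le_card ?_))
        (hO.pair (TO_pa (TO_ext hT ω) q'') (by rw [TO_pa_length]; exact hql) (W ω p.1) (hWU ω p.1 p.2))
      intro s hs
      have h1 : W (Function.update (Function.update ω q' s.1) q s.2) q.1 ∈
        aN r (W (Function.update (Function.update ω q' s.1) q s.2) p.1) := (hS s hs).2
      refine mem_filter.2 ⟨mem_univ _, ?_⟩
      rw [hWne _ q s.2 p.1 hqp, hWne ω q' s.1 p.1 hsuf'] at h1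
      have h2 : W (Function.update (Function.update ω q' s.1) q s.2) q.1 =
          φ (s.2 :: s.1 :: TO_pa (TO_ext hT ω) q'') := by
        have hc := TO_ext_eq hT (Function.update ω q' s.1) q s.2
        rw [hq] at hc
        rw [hq]
        show φ (TO_ext hT (Function.update (Function.update ω q' s.1) q s.2) (i :: i' :: q'') ::
          TO_pa (TO_ext hT (Function.update (Function.update ω q' s.1) q s.2)) (i' :: q'')) = _
        rw [hc, hPne (Function.update ω q' s.1) q s.2 (i' :: q'')]
        · show φ (s.2 :: (TO_ext hT (Function.update ω q' s.1) (i' :: q'') ::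
            TO_pa (TO_ext hT (Function.update ω q' s.1)) q'')) = _
          have hc' := TO_ext_eq hT ω q' s.1
          rw [hq'1] at hc'
          rw [hc', hPne ω q' s.1 q'']
          intro h
          have := h.length_le
          rw [hq'1] at this
          simp at this
        · intro h
          have := h.length_le
          rw [hq] at this
          simp at this
      rw [h2] at h1
      exact h1
    | false =>
      by_cases hpq : q.1.length = d ∧ p.1.length ≤ q.1.length ∧ p ≠ q
      swap
      · have : univ.filter (E (p, q, false)) = ∅ := by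
          refine filter_eq_empty_iff.2 (fun ω _ h => hpq ?_)
          have h' : (q.1.length = d ∧ p.1.length ≤ q.1.length ∧ p ≠ q) ∧ W ω q.1 = W ω p.1 := by
            simpa [E] using h
          exact h'.1
        rw [this]
        simp
      obtain ⟨hqd, hpql, hpq⟩ := hpq
      obtain ⟨i, q', hq⟩ : ∃ i q', q.1 = i :: q' := by
        match hh : q.1 with
        | [] => rw [hh] at hqd; simp at hqd; omega
        | a :: l => exact ⟨a, l, rfl⟩
      have hql : q'.length + 1 = d := by
        rw [hq] at hqd
        simpa using hqd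
      have hqp : ¬ q.1 <:+ p.1 := by
        intro h
        exact hpq (Subtype.ext (h.eq_of_length_le hpql).symm)
      refine TO_fib q (E (p, q, false)) m (fun ω S hS => ?_)
      refine le_trans (Nat.mul_le_mul_left _ (card_le_card ?_))
        (hO.last (TO_pa (TO_ext hT ω) q') (by rw [TO_pa_length]; exact hql) (W ω p.1))
      intro s hs
      have h0 := hS s hs
      have h1 : W (Function.update ω q s) q.1 = W (Function.update ω q s) p.1 := by
        have h' : (q.1.length = d ∧ p.1.length ≤ q.1.length ∧ p ≠ q) ∧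
          W (Function.update ω q s) q.1 = W (Function.update ω q s) p.1 := by
            simpa [E] using h0
        exact h'.2
      refine mem_filter.2 ⟨mem_univ _, ?_⟩
      rw [hWne ω q s p.1 hqp] at h1
      rw [← h1]
      have hc := TO_ext_eq hT ω q s
      rw [hq] at hc
      rw [hq]
      show _ = φ (TO_ext hT (Function.update ω q s) (i :: q') ::
          TO_pa (TO_ext hT (Function.update ω q s)) q')
      rw [hc, hPne ω q s q']
      intro h
      have := h.length_le
      rw [hq] at this
      simp at this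
  obtain ⟨ω, hω⟩ := TO_union E m (T ^ N) (by rw [Fintype.card_fun, Fintype.card_fin]) (by positivity)
    (by
      rw [Fintype.card_prod, Fintype.card_prod, Fintype.card_bool, ← hN, hm]
      nlinarith [Nat.zero_le N]) hE
  have h2 : ∀ p q : {l : List (Fin t) // l.length ≤ d}, 2 ≤ q.1.length → p.1.length ≤ q.1.length →
      ¬ q.1.tail <:+ p.1 → W ω q.1 ∉ aN r (W ω p.1) := by
    intro p q h1 h2 h3 h4
    refine hω (p, q, true) ?_
    show (2 ≤ q.1.length ∧ p.1.length ≤ q.1.length ∧ ¬ q.1.tail <:+ p.1) ∧ W ω q.1 ∈ aN r (W ω p.1)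
    exact ⟨⟨h1, h2, h3⟩, h4⟩
  have h3 : ∀ p q : {l : List (Fin t) // l.length ≤ d}, q.1.length = d → p.1.length ≤ q.1.length →
      p ≠ q → W ω q.1 ≠ W ω p.1 := by
    intro p q h1 h2 h3 h4
    refine hω (p, q, false) ?_
    have : (q.1.length = d ∧ p.1.length ≤ q.1.length ∧ p ≠ q) ∧ W ω q.1 = W ω p.1 := ⟨⟨h1, h2, h3⟩, h4⟩
    simpa [E] using this
  -- adjacency
  have hA : ∀ p q : {l : List (Fin t) // l.length ≤ d}, p ≠ q → p.1.length ≤ q.1.length →
      W ω q.1 ∈ aN r (W ω p.1) → ∃ i, q.1 = i :: p.1 := by
    intro p q hne hle hadj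
    match hh : q.1 with
    | [] =>
      exfalso
      rw [hh] at hle
      have : p.1 = [] := List.length_eq_zero_iff.1 (by simpa using hle)
      exact hne (Subtype.ext (by rw [this, hh]))
    | [i] =>
      by_cases hp : p.1 = []
      · exact ⟨i, by rw [hp]⟩
      · exfalso
        obtain ⟨j, hj⟩ : ∃ j, p.1 = [j] := by
          match hp' : p.1 with
          | [] => exact absurd hp' hp
          | [j] => exact ⟨j, rfl⟩
          | a :: b :: l => rw [hh, hp'] at hle; simp at hle
        have e1 : W ω q.1 ∈ aN r u := by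
          have := (mem_inter.1 (hWedge ω [] i (by simp only [List.length_nil]; omega))).1
          rw [hh]
          exact this
        have e2 : W ω p.1 ∈ aN r u := by
          have := (mem_inter.1 (hWedge ω [] j (by simp only [List.length_nil]; omega))).1
          rw [hj]
          exact this
        exact TO_tri H e2 e1 hadj
    | i :: j :: l =>
      by_cases hs : (j :: l) <:+ p.1
      · obtain ⟨l', hl'⟩ := hs
        match l', hl' with
        | [], hl' => exact ⟨i, by rw [← hl']; rfl⟩
        | [k], hl' =>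
          exfalso
          have hlen : (j :: l).length < d := by
            have := q.2
            rw [hh] at this
            simpa [Nat.succ_le_iff] using this
          have e1 : W ω q.1 ∈ aN r (W ω (j :: l)) := by
            rw [hh]
            exact (mem_inter.1 (hWedge ω (j :: l) i hlen)).1
          have e2 : W ω p.1 ∈ aN r (W ω (j :: l)) := by
            rw [← hl']
            exact (mem_inter.1 (hWedge ω (j :: l) k hlen)).1
          exact TO_tri H e2 e1 hadj
        | a :: b :: l'', hl' =>
          exfalso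
          rw [hh, ← hl'] at hle
          simp only [List.length_cons, List.length_append] at hle
          omega
      · exfalso
        refine h2 p q ?_ hle ?_ hadj
        · rw [hh]; simp
        · rw [hh]; exact hs
  have hI : ∀ p q : {l : List (Fin t) // l.length ≤ d}, p ≠ q → p.1.length ≤ q.1.length →
      W ω q.1 ≠ W ω p.1 := by
    intro p q hne hle heq
    by_cases hq : q.1.length = d
    · exact h3 p q hq hle hne heq
    · have hqlt : q.1.length < d := lt_of_le_of_ne q.2 hq
      have hq0 : q.1 ≠ [] := by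
        intro h
        rw [h] at hle
        have : p.1 = [] := List.length_eq_zero_iff.1 (by simpa using hle)
        exact hne (Subtype.ext (by rw [this, h]))
      obtain ⟨i, hi⟩ : ∃ i : Fin t, i ∈ q.1 := List.exists_mem_of_ne_nil _ hq0
      let c : {l : List (Fin t) // l.length ≤ d} := ⟨i :: q.1, by simp only [List.length_cons]; omega⟩
      have hc1 : c.1 = i :: q.1 := rfl
      refine h2 p c ?_ ?_ ?_ ?_
      · rw [hc1]
        have : 0 < q.1.length := List.length_pos_iff.2 hq0
        simp only [List.length_cons]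
        omega
      · rw [hc1]
        simp only [List.length_cons]
        omega
      · rw [hc1]
        intro h
        have h' : q.1 <:+ p.1 := h
        exact hne (Subtype.ext (h'.eq_of_length_le hle).symm)
      · rw [hc1, ← heq]
        exact (mem_inter.1 (hWedge ω q.1 i hqlt)).1
  have hinj : Function.Injective (fun p : {l : List (Fin t) // l.length ≤ d} => W ω p.1) := by
    intro p q hpq
    simp only at hpq
    by_contra hne
    rcases le_total p.1.length q.1.length with h | h
    · exact hI p q hne h hpq.symm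
    · exact hI q p (Ne.symm hne) h hpq
  have hedge : ∀ p q : {l : List (Fin t) // l.length ≤ d}, (∃ i, q.1 = i :: p.1) →
      W ω q.1 ∈ aN r (W ω p.1) := by
    rintro p q ⟨i, hi⟩
    rw [hi]
    refine (mem_inter.1 (hWedge ω p.1 i ?_)).1
    have := q.2
    rw [hi] at this
    simpa [Nat.succ_le_iff] using this
  refine ⟨⟨⟨fun p => W ω p.1, hinj⟩, ?_⟩⟩
  intro p q
  show (Gr r).Adj (W ω p.1) (W ω q.1) ↔ (treeG d t).Adj p q
  unfold Gr treeG
  rw [SimpleGraph.fromRel_adj, SimpleGraph.fromRel_adj]
  constructor
  · rintro ⟨h1, h2⟩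
    have hne : p ≠ q := fun h => h1 (by rw [h])
    refine ⟨hne, ?_⟩
    rcases le_total p.1.length q.1.length with h | h
    · exact Or.inl (hA p q hne h (mem_aN.2 h2))
    · exact Or.inr (hA q p (Ne.symm hne) h (mem_aN.2 h2.symm))
  · rintro ⟨h1, h2⟩
    refine ⟨fun h => h1 (hinj h), ?_⟩
    rcases h2 with h | h
    · exact mem_aN.1 (hedge p q h)
    · exact (mem_aN.1 (hedge q p h)).symm

end Pool.Agent.Lib.MP_b0c2b5_co.R3
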