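import Pool.Agent.Lib.MP_b0c2b5_co.R3.Ob
import Pool.Agent.Lib.MP_b0c2b5_co.R3.TO

/-!
# R3, LK: Lemma K

PROOF. `m` from `tree_obj (d+1) t`, `k` from `obj_exists a b m _ d`. If `¬ Sm r U d k (aN r u ∩ U)` then for `T` = a positive multiple of `m` which is at least `T0` there is an object of depth `d + 1` on `aN r u ∩ U`, so an induced `treeG (d+1) t`: contradiction.
-/

set_option autoImplicit false

namespace Pool.Agent.Lib.MP_b0c2b5_co.R3

open Finset LS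
open scoped Classical

universe u

theorem lemK (d t a b : ℕ) : ∃ C : ℕ, ∀ (V : Type u) [Fintype V] (r lt : V → V → Prop), HO r lt → Trc (aN r) a b →
    ¬ Nonempty (treeG (d+1) t ↪g Gr r) → ∀ U : Finset V, ∀ u ∈ U, Sm r U d C (aN r u ∩ U) := by
  obtain ⟨m, hm, hT⟩ := tree_obj.{u} (d+1) t (Nat.succ_le_succ (Nat.zero_le d))
  obtain ⟨k, hk⟩ := obj_exists.{u} a b m hm d
  refine ⟨k, fun V _ r lt hr hab hno U u hu => ?_⟩
  by_contra hS
  obtain ⟨T0, hT0⟩ := hk V r hab U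
  have h1 : T0 ≤ m * (T0 + 1) := by nlinarith
  obtain ⟨φ, hφ⟩ := hT0 (aN r u ∩ U) hS (m * (T0 + 1)) h1 (Dvd.intro _ rfl)
  exact hno (hT V r lt hr U u hu (m * (T0 + 1)) (Nat.mul_pos hm (Nat.succ_pos _)) φ hφ)

end Pool.Agent.Lib.MP_b0c2b5_co.R3
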