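import Pool.Agent.Lib.MP_b0c2b5_co.R3.Many
import Pool.Agent.Lib.MP_b0c2b5_co.R3.Few

/-!
# R3, Level: one level down

Upper level: `Λ' ⊆ Vs i` is a union of `κ` labelled classes (constant `c`, gaps `≥ gap + 3`, upper scales `≤ i`); lower level: `Λ ⊆ Vs j`; for `e ∈ Vs i`, `e ∉ Λ'`, the children of `e` in `Λ` are covered by `M` sets `oN r g`, `g ∈ Vs j`, up to `M` points.
CONSTANTS. `M1, c1` from `many K c`; `s := κ * M1`; `c2` from `few K (max M c1) s`; `Lw := (s + 1) * gap + 3`; `κ' := κ + (s + 1)`; `c' := max c1 c2`.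
PROOF. Let `cl', b', a', L', B', Th'` be the data of `Lev` for `Λ'`; `Y' q := Λ'.filter (cl' = q)`, `q < κ`. `Y' q ⊆ Vs i ⊆ Vs (a' q)`. For every `q < κ` `many` (applied to `Y' q`, `b' q + 3 ≤ b' q + gap + 3 ≤ a' q ≤ i ≤ n`) gives `Un q : V → Finset V`; `Un z' := Un (cl' z') z'` for `z' ∈ Λ'`, at most `c1` elements. `Pc z := {z' ∈ Λ' : r z' z ∧ z ∉ Un z'}`.
CLASSES of `z ∈ Λ`: (1) if there is `q < κ` with `M1 < |Pc z ∩ Y' q|`: the class `q` (choose one, e.g. the least). `many` for `Y := {z ∈ Λ : class q} ⊆ Vs j ⊆ Vs (a' q)` (`a' q ≤ i ≤ j`) gives `Lab r Vs (b' q + 2) (a' q - 1) c1`: gap `≥ gap`, upper scale `≤ i ≤ j`.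
(2) otherwise `|Pc z| ≤ κ * M1 = s`. Window `w x := i + x * gap`, `x = 0, .., s + 1`; `w (s+1) + 3 ≤ i + Lw ≤ j`. The sets `Pc z ∩ Vs (w x)` decrease with `x` and have at most `s` elements, so for some `x ≤ s` `|Pc z ∩ Vs (w (x+1))| = |Pc z ∩ Vs (w x)|` (otherwise `|Pc z ∩ Vs (w 0)| ≥ s + 1`), hence `Pc z ∩ Vs (w x) ⊆ Vs (w (x+1))`: the class `κ + x`
(choose one `x`). `few` for `w x`, `w (x+1)`, `j`, `Λ'`, `Y := {z ∈ Λ : class κ + x}` (`hcov` from the hypothesis, as `Vs (w x) ⊆ Vs i` and `Y ⊆ Λ`) gives `Lab r Vs (w x) (w (x+1)) c2`.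
`Lab` is monotone in the constant (`Lab.mono` below). The labels of `z` are those of its class (`L z := L_(class z) z`; a `Lab` depends only on the values of `L` on the class: `Lab.congr` below).
-/

set_option autoImplicit false

namespace Pool.Agent.Lib.MP_b0c2b5_co.R3

open Finset LS
open scoped Classical

universe u

theorem Lab.mono {V : Type u} [Fintype V] {r : V → V → Prop} {Vs : ℕ → Finset V} {b a c c' : ℕ} {Y : Finset V}
    {L B Th : V → Finset V} (h : Lab r Vs b a c Y L B Th) (hc : c ≤ c') : Lab r Vs b a c' Y L B Th where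
  Lc z hz := (h.Lc z hz).trans hc
  Bc g := (h.Bc g).trans hc
  Bs := h.Bs
  Tc e := (h.Tc e).trans hc
  hit e he := (h.hit e he).trans hc
  adj := h.adj

theorem Lab.congr {V : Type u} [Fintype V] {r : V → V → Prop} {Vs : ℕ → Finset V} {b a c : ℕ} {Y : Finset V}
    {L L' B Th : V → Finset V} (h : Lab r Vs b a c Y L B Th) (hL : ∀ z ∈ Y, L' z = L z) :
    Lab r Vs b a c Y L' B Th where
  Lc z hz := by
    rw [hL z hz]
    exact h.Lc z hz
  Bc := h.Bc
  Bs := h.Bs
  Tc := h.Tc
  hit e he := by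
    refine le_trans (Finset.card_le_card ?_) (h.hit e he)
    intro z hz
    rw [Finset.mem_filter] at hz ⊢
    refine ⟨hz.1, ?_⟩
    rw [← hL z (Finset.mem_inter.1 hz.1).2]
    exact hz.2
  adj z hz g hg := by
    rw [hL z hz] at hg
    exact h.adj z hz g hg

private theorem Level_pig {V : Type u} (A : ℕ → Finset V) (hA : ∀ x, A (x + 1) ⊆ A x) (s : ℕ)
    (h0 : (A 0).card ≤ s) : ∃ x ≤ s, A x ⊆ A (x + 1) := by
  by_contra h
  push Not at h
  have h1 : ∀ x ≤ s + 1, (A x).card + x ≤ s := by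
    intro x
    induction x with
    | zero => intro _; simpa using h0
    | succ x ih =>
      intro hx
      have h2 := ih (by omega)
      have h3 : A (x + 1) ⊂ A x := ⟨hA x, h x (by omega)⟩
      have h4 := Finset.card_lt_card h3
      omega
  have h5 := h1 (s + 1) le_rfl
  omega

theorem level (K M κ c gap : ℕ) : ∃ Lw κ' c' : ℕ, ∀ (V : Type u) [Fintype V] (r : V → V → Prop) (n : ℕ)
    (Vs : ℕ → Finset V), Chn r K n Vs → ∀ (i j : ℕ) (Λ' Λ : Finset V), i + Lw ≤ j → j ≤ n → Λ' ⊆ Vs i → Λ ⊆ Vs j →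
    (∀ e ∈ Vs i, e ∉ Λ' → ∃ G ⊆ Vs j, G.card ≤ M ∧ ((oN r e ∩ Λ) \ G.biUnion (oN r)).card ≤ M) →
    Lev r Vs κ c (gap + 3) i Λ' → Lev r Vs κ' c' gap j Λ := by
  obtain ⟨M1, c1, hmany⟩ := many.{u} K c
  obtain ⟨c2, hfew⟩ := few.{u} K (max M c1) (κ * M1)
  refine ⟨(κ * M1 + 1) * gap + 3, κ + (κ * M1 + 1), max c1 c2, ?_⟩
  intro V _ r n Vs hc i j Λ' Λ hij hjn hΛ' hΛ hcov hLev
  obtain ⟨cl', b', a', L', B', Th', hcl', hL'⟩ := hLev
  have hUnex : ∀ q, ∃ Un : V → Finset V, q < κ →
      (∀ z' ∈ Λ'.filter (fun z => cl' z = q), (Un z').card ≤ c1) ∧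
      ∀ Y : Finset V, Y ⊆ Vs (a' q) →
        (∀ z ∈ Y, M1 < (((Λ'.filter (fun z => cl' z = q)).filter
          (fun z' => r z' z ∧ z ∉ Un z')).card)) →
        ∃ L1 B1 Th1 : V → Finset V, Lab r Vs (b' q + 2) (a' q - 1) c1 Y L1 B1 Th1 := by
    intro q
    by_cases hq : q < κ
    · obtain ⟨h1, h2, h3⟩ := hL' q hq
      obtain ⟨Un, h4, h5⟩ := hmany V r n Vs hc (b' q) (a' q) (Λ'.filter (fun z => cl' z = q)) L' (B' q)
        (Th' q) (by omega) (by omega)
        ((Finset.filter_subset _ _).trans (hΛ'.trans (hc.anti (a' q) i h2))) h3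
      exact ⟨Un, fun _ => ⟨h4, h5⟩⟩
    · exact ⟨fun _ => ∅, fun h => absurd h hq⟩
  choose Un hUn using hUnex
  set Pc : V → Finset V := fun z => Λ'.filter (fun z' => r z' z ∧ z ∉ Un (cl' z') z') with hPc
  set w : ℕ → ℕ := fun x => i + x * gap with hw
  have hclex : ∀ z, ∃ k, k < κ + (κ * M1 + 1) ∧
      ((k < κ ∧ M1 < (((Λ'.filter (fun z => cl' z = k)).filter
          (fun z' => r z' z ∧ z ∉ Un k z')).card)) ∨
        (κ ≤ k ∧ (Pc z).card ≤ κ * M1 ∧ ∀ e ∈ Pc z, e ∈ Vs (w (k - κ)) → e ∈ Vs (w (k - κ + 1)))) := by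
    intro z
    by_cases h : ∃ q < κ, M1 < (((Λ'.filter (fun z => cl' z = q)).filter
        (fun z' => r z' z ∧ z ∉ Un q z')).card)
    · obtain ⟨q, hq, hq2⟩ := h
      exact ⟨q, by omega, Or.inl ⟨hq, hq2⟩⟩
    · push Not at h
      have h1 : (Pc z).card ≤ κ * M1 := by
        have h2 : Pc z ⊆ (Finset.range κ).biUnion (fun q => (Λ'.filter (fun z => cl' z = q)).filter
            (fun z' => r z' z ∧ z ∉ Un q z')) := by
          intro z' hz'
          rw [hPc, Finset.mem_filter] at hz'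
          refine Finset.mem_biUnion.2 ⟨cl' z', Finset.mem_range.2 (hcl' z' hz'.1), ?_⟩
          exact Finset.mem_filter.2 ⟨Finset.mem_filter.2 ⟨hz'.1, rfl⟩, hz'.2⟩
        refine (Finset.card_le_card h2).trans ?_
        refine (Finset.card_biUnion_le_card_mul _ _ M1 fun q hq => h q (Finset.mem_range.1 hq)).trans ?_
        rw [Finset.card_range]
      have h3 : ∀ x, w x ≤ w (x + 1) := by
        intro x
        simp only [hw]
        have : (x + 1) * gap = x * gap + gap := by ring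
        omega
      obtain ⟨x, hx, hx2⟩ := Level_pig (fun x => Pc z ∩ Vs (w x))
        (fun x => Finset.inter_subset_inter_left (hc.anti _ _ (h3 x))) (κ * M1)
        ((Finset.card_le_card Finset.inter_subset_left).trans h1)
      refine ⟨κ + x, by omega, Or.inr ⟨by omega, h1, ?_⟩⟩
      intro e he he2
      rw [Nat.add_sub_cancel_left] at he2 ⊢
      exact (Finset.mem_inter.1 (hx2 (Finset.mem_inter.2 ⟨he, he2⟩))).2
  choose cls hcls using hclex
  have hfin : ∀ k, ∃ (bb aa : ℕ) (L B Th : V → Finset V), k < κ + (κ * M1 + 1) →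
      bb + gap ≤ aa ∧ aa ≤ j ∧ Lab r Vs bb aa (max c1 c2) (Λ.filter (fun z => cls z = k)) L B Th := by
    intro k
    by_cases hk : k < κ
    · obtain ⟨h1, h2, h3⟩ := hL' k hk
      obtain ⟨L1, B1, Th1, h4⟩ := (hUn k hk).2 (Λ.filter (fun z => cls z = k))
        ((Finset.filter_subset _ _).trans (hΛ.trans (hc.anti (a' k) j (by omega)))) (by
          intro z hz
          rw [Finset.mem_filter] at hz
          rcases (hcls z).2 with h5 | h5
          · rw [hz.2] at h5
            exact h5.2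
          · rw [hz.2] at h5
            exact absurd hk (by omega))
      exact ⟨b' k + 2, a' k - 1, L1, B1, Th1, fun _ =>
        ⟨by omega, by omega, h4.mono (le_max_left _ _)⟩⟩
    · by_cases hk2 : k < κ + (κ * M1 + 1)
      · have h6 : w (k - κ + 1) + 3 ≤ j := by
          have h7 : (k - κ + 1) * gap ≤ (κ * M1 + 1) * gap := Nat.mul_le_mul_right _ (by omega)
          simp only [hw]
          omega
        have h8 : w (k - κ) + gap = w (k - κ + 1) := by
          simp only [hw]
          ring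
        have h9 : i ≤ w (k - κ) := by
          simp only [hw]
          omega
        obtain ⟨L1, B1, Th1, h4⟩ := hfew V r n Vs hc (w (k - κ)) (w (k - κ + 1)) j Λ'
          (Λ.filter (fun z => cls z = k)) (fun z' => Un (cl' z') z') (by omega) (by omega) (by omega)
          hjn ((Finset.filter_subset _ _).trans hΛ) (by
            intro e he
            exact ((hUn (cl' e) (hcl' e he)).1 e (Finset.mem_filter.2 ⟨he, rfl⟩)).trans
              (le_max_right _ _)) (by
            intro e he he2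
            obtain ⟨G, hG1, hG2, hG3⟩ := hcov e (hc.anti i _ h9 he) he2
            refine ⟨G, hG1, hG2.trans (le_max_left _ _), ?_⟩
            refine le_trans (Finset.card_le_card ?_) (hG3.trans (le_max_left _ _))
            exact Finset.sdiff_subset_sdiff (Finset.inter_subset_inter_left
              (Finset.filter_subset _ _)) le_rfl) (by
            intro z hz
            rw [Finset.mem_filter] at hz
            rcases (hcls z).2 with h5 | h5
            · rw [hz.2] at h5
              exact absurd h5.1 hk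
            · exact h5.2.1) (by
            intro z hz e he hez hez2 hew
            rw [Finset.mem_filter] at hz
            rcases (hcls z).2 with h5 | h5
            · rw [hz.2] at h5
              exact absurd h5.1 hk
            · rw [hz.2] at h5
              exact h5.2.2 e (Finset.mem_filter.2 ⟨he, hez, hez2⟩) hew)
        exact ⟨w (k - κ), w (k - κ + 1), L1, B1, Th1, fun _ =>
          ⟨by omega, by omega, h4.mono (le_max_right _ _)⟩⟩
      · exact ⟨0, 0, fun _ => ∅, fun _ => ∅, fun _ => ∅, fun h => absurd h hk2⟩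
  choose bb aa LL BB TT hfin2 using hfin
  refine ⟨cls, bb, aa, fun z => LL (cls z) z, BB, TT, fun z _ => (hcls z).1, ?_⟩
  intro k hk
  obtain ⟨h1, h2, h3⟩ := hfin2 k hk
  refine ⟨h1, h2, h3.congr ?_⟩
  intro z hz
  rw [(Finset.mem_filter.1 hz).2]

end Pool.Agent.Lib.MP_b0c2b5_co.R3
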