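import Pool.Agent.Lib.MP_b0c2b5_co.R3.OT
import Pool.Agent.Lib.MP_b0c2b5_co.R3.Level
import Pool.Agent.Lib.MP_b0c2b5_co.R3.Fin0

/-!
# R3, ThmA: a long chain ends in a set of bounded chromatic number

PROOF. `M` from `out_empty 3 t a b K`. `level K M 0 0 8` gives `L3, κ2, c2` (start with `Lev r Vs 0 0 11 i3 ∅`, which is trivial: no classes). `level K M κ2 c2 5` gives `L2, κ1, c1`. `level K M κ1 c1 2` gives `L1, κ0, c0`. `fin0 K κ0 c0` gives `C`.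
SCALES: `i3 := 0`, `j3 := L3 + 1`, `i2 := j3 + 1`, `j2 := i2 + L2 + 1`, `i1 := j2 + 1`, `j1 := i1 + L1 + 1`, `n := j1 + 1`. So `i3 < j3 < i2 < j2 < i1 < j1 < n`.
`Λ0 := Vs n`, `Λ1 := Lam r Vs M i1 j1 Λ0`, `Λ2 := Lam r Vs M i2 j2 Λ1`, `Λ3 := Lam r Vs M i3 j3 Λ2`. `out_empty` (with `ii 0 = n`, `ii 1 = i1`, ..) gives `Λ3 = ∅`. By the definition of `Lam`: every `e ∈ Vs (i_(k+1))` which is not in `Λ (k+1)` has its children in `Λ k` covered by `M` sets `oN r g`, `g ∈ Vs (j_(k+1))`, up to `M` points.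
`Λ2 ⊆ Vs i2 ⊆ Vs j3`: `level` (with `i = i3`, `j = j3`, `Λ' = Λ3 = ∅`, `Λ = Λ2`) gives `Lev r Vs κ2 c2 8 j3 Λ2`; as `j3 ≤ i2` this is `Lev r Vs κ2 c2 8 i2 Λ2` (`Lev` is monotone in `a0`). `level` (`i = i2`, `j = j2`, `Λ' = Λ2`, `Λ = Λ1 ⊆ Vs i1 ⊆ Vs j2`): `Lev r Vs κ1 c1 5 j2 Λ1`, so with `i1` in the place of `j2`.
`level` (`i = i1`, `j = j1`, `Λ' = Λ1`, `Λ = Λ0 = Vs n ⊆ Vs j1`): `Lev r Vs κ0 c0 2 j1 (Vs n)`. `fin0` with `a0 = j1`.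
-/

set_option autoImplicit false

namespace Pool.Agent.Lib.MP_b0c2b5_co.R3

open Finset LS
open scoped Classical

universe u

private theorem ThmA_mono {V : Type u} [Fintype V] {r : V → V → Prop} {Vs : ℕ → Finset V} {κ c gap a0 a1 : ℕ}
    {Λ : Finset V} (h : Lev r Vs κ c gap a0 Λ) (ha : a0 ≤ a1) : Lev r Vs κ c gap a1 Λ := by
  obtain ⟨cl, b, a, L, B, Th, h1, h2⟩ := h
  exact ⟨cl, b, a, L, B, Th, h1, fun i hi => ⟨(h2 i hi).1, (h2 i hi).2.1.trans ha, (h2 i hi).2.2⟩⟩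

private theorem ThmA_cov {V : Type u} [Fintype V] {r : V → V → Prop} {Vs : ℕ → Finset V} {M i j : ℕ}
    {Λ : Finset V} : ∀ e ∈ Vs i, e ∉ Lam r Vs M i j Λ →
      ∃ G ⊆ Vs j, G.card ≤ M ∧ ((oN r e ∩ Λ) \ G.biUnion (oN r)).card ≤ M := by
  intro e he he'
  by_contra h
  apply he'
  unfold Lam
  exact Finset.mem_filter.2 ⟨he, h⟩

private theorem ThmA_sub {V : Type u} [Fintype V] {r : V → V → Prop} {Vs : ℕ → Finset V} {M i j : ℕ}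
    {Λ : Finset V} : Lam r Vs M i j Λ ⊆ Vs i := Finset.filter_subset _ _

theorem thmA (t a b K : ℕ) : ∃ n C : ℕ, ∀ (V : Type u) [Fintype V] (r lt : V → V → Prop), HO r lt → Trc (iN r) a b →
    ¬ Nonempty (treeG 3 t ↪g Gr r) → ∀ Vs : ℕ → Finset V, Chn r K n Vs → ColOn r (Vs n : Set V) C := by
  obtain ⟨M, hM⟩ := out_empty.{u} 3 t a b K
  obtain ⟨L3, κ2, c2, h3⟩ := level.{u} K M 0 0 8
  obtain ⟨L2, κ1, c1, h2⟩ := level.{u} K M κ2 c2 5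
  obtain ⟨L1, κ0, c0, h1⟩ := level.{u} K M κ1 c1 2
  obtain ⟨C, hC⟩ := fin0.{u} K κ0 c0
  obtain ⟨j3, hj3⟩ : ∃ j3, j3 = L3 + 1 := ⟨_, rfl⟩
  obtain ⟨i2, hi2⟩ : ∃ i2, i2 = j3 + 1 := ⟨_, rfl⟩
  obtain ⟨j2, hj2⟩ : ∃ j2, j2 = i2 + L2 + 1 := ⟨_, rfl⟩
  obtain ⟨i1, hi1⟩ : ∃ i1, i1 = j2 + 1 := ⟨_, rfl⟩
  obtain ⟨j1, hj1⟩ : ∃ j1, j1 = i1 + L1 + 1 := ⟨_, rfl⟩
  refine ⟨j1 + 1, C, ?_⟩
  intro V _ r lt hr htr hfree Vs hch
  obtain ⟨n, hn⟩ : ∃ n, n = j1 + 1 := ⟨_, rfl⟩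
  rw [← hn] at hch ⊢
  obtain ⟨Λ1, hΛ1⟩ : ∃ Λ1, Λ1 = Lam r Vs M i1 j1 (Vs n) := ⟨_, rfl⟩
  obtain ⟨Λ2, hΛ2⟩ : ∃ Λ2, Λ2 = Lam r Vs M i2 j2 Λ1 := ⟨_, rfl⟩
  have hempty : Lam r Vs M 0 j3 Λ2 = ∅ := by
    have h := hM V r lt hr htr hfree n Vs hch
      (fun k => if k = 0 then n else if k = 1 then i1 else if k = 2 then i2 else 0)
      (fun k => if k = 1 then j1 else if k = 2 then j2 else j3)
      (fun k => if k = 0 then Vs n else if k = 1 then Λ1 else if k = 2 then Λ2 else Lam r Vs M 0 j3 Λ2)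
      (by simp) (by simp) (by
        intro k hk
        have hk3 : k = 0 ∨ k = 1 ∨ k = 2 := by omega
        rcases hk3 with rfl | rfl | rfl
        · simp only [Nat.zero_add, if_true, one_ne_zero, if_false]
          exact ⟨by omega, by omega, hΛ1⟩
        · simp only [Nat.reduceAdd, one_ne_zero, if_false, if_true, OfNat.ofNat_ne_zero, OfNat.ofNat_ne_one]
          exact ⟨by omega, by omega, hΛ2⟩
        · simp only [Nat.reduceAdd, if_false, if_true, OfNat.ofNat_ne_zero, OfNat.ofNat_ne_one, Nat.reduceEqDiff]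
          exact ⟨by omega, by omega, trivial⟩)
    simpa using h
  have s2 : Λ2 ⊆ Vs i2 := by
    rw [hΛ2]
    exact ThmA_sub
  have s1 : Λ1 ⊆ Vs i1 := by
    rw [hΛ1]
    exact ThmA_sub
  have l2 : Lev r Vs κ2 c2 8 j3 Λ2 := by
    refine h3 V r n Vs hch 0 j3 (Lam r Vs M 0 j3 Λ2) Λ2 (by omega) (by omega) ThmA_sub
      (s2.trans (hch.anti _ _ (by omega))) ThmA_cov ?_
    rw [hempty]
    refine ⟨fun _ => 0, fun _ => 0, fun _ => 0, fun _ => ∅, fun _ _ => ∅, fun _ _ => ∅, ?_, ?_⟩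
    · intro z hz
      exact absurd hz (Finset.notMem_empty z)
    · intro i hi
      exact absurd hi (Nat.not_lt_zero i)
  have l1 : Lev r Vs κ1 c1 5 j2 Λ1 := by
    refine h2 V r n Vs hch i2 j2 Λ2 Λ1 (by omega) (by omega) s2
      (s1.trans (hch.anti _ _ (by omega))) ?_ (ThmA_mono l2 (by omega))
    rw [hΛ2]
    exact ThmA_cov
  have l0 : Lev r Vs κ0 c0 2 j1 (Vs n) := by
    refine h1 V r n Vs hch i1 j1 Λ1 (Vs n) (by omega) (by omega) s1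
      (hch.anti _ _ (by omega)) ?_ (ThmA_mono l1 (by omega))
    rw [hΛ1]
    exact ThmA_cov
  exact hC V r lt hr n Vs hch j1 (Vs n) (by omega) (Finset.Subset.refl _) l0

end Pool.Agent.Lib.MP_b0c2b5_co.R3
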