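import Pool.Agent.Lib.MP_b0c2b5_co.Mg.G001

/-!
# R3, VC: cover graphs without an induced copy of a bipartite graph have few traces

Notation: `G = Gr r` (`x`, `y` adjacent iff `r x y` or `r y x`; `x ≠ y` is automatic because `lt` is irreflexive). FACTS: `G` is triangle free: the three vertices are comparable, say `x → y → z` and `x → z`: this contradicts `HO.sf` (all other orientations of a triangle are this one after renaming or a directed cycle).

PROOF of `vc_free`. Suppose `|X| > card W`; subsets of a shattered set are shattered (by the same family), so let `X` be shattered by the family `N` (one of `aN r`, `oN r`, `iN r`), `|X| = card W + 1` (`W` is nonempty, otherwise `T ↪g Gr r` trivially), so for every `S ⊆ X` there is `g_S` with `X ∩ N g_S = S`. For `S ≠ ∅`: `aN r g_S ∩ X = S`: clear for `aN`; for `oN`: if `y ∈ X`, `y → g_S` and `x0 ∈ S` (so `g_S → x0`), then `g_{y, x0} → y` and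
`g_{y,x0} → x0` although `g_{y,x0} → y → g_S → x0`: contradiction with `HO.sf`; `iN` is the case of `rev r`. Any two points of `X` have a common neighbour, so `X` is independent (triangle free), and `g_S ∉ X` for `S ≠ ∅` (it has a neighbour in `X`). Fix `x0 ∈ X`. The vertices `g_S` with `x0 ∈ S` are pairwise not adjacent
(common neighbour `x0`) and pairwise different for different `S`. Let `c : W → Fin 2` be a proper colouring of `T`, `W0 = c⁻¹ 0`, `W1 = c⁻¹ 1`, and `e : W → X \ {x0}` injective (`|X \ {x0}| = card W`). Map `x ∈ W0` to `e x` and `y ∈ W1` to `g_{S y}`, `S y = {x0, e y} ∪ {e x : x ∈ W0, T.Adj x y}`. The sets `S y` are different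
for different `y` (`e y` is in `S y'` only if `y' = y`, since `e` is injective and `y ∉ W0`). `e x` is adjacent to `g_{S y}` iff `e x ∈ S y` iff `T.Adj x y`. So this is an embedding `T ↪g Gr r`.

PROOF of `trc_of_vc` (Sauer-Shelah). Let `X` be a finite set, `𝒜 = {X ∩ S i}` as a `Finset (Finset Y)` (finite: subsets of `X`). `Finset.card_le_card_shatterer` and `Finset.card_shatterer_le_sum_vcDim` of Mathlib (`Mathlib/Combinatorics/SetFamily/Shatter.lean`; it is `Finset.card_shatterer_le_sum_vcDim : 𝒜.shatterer.card ≤ ∑ k ∈ Iic 𝒜.vcDim, (Fintype.card α).choose k`)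
are for a `Fintype`; if this is inconvenient bound the shatterer directly: its members are subsets of `X` with at most `D` elements, and there are at most `(|X| + 1) ^ D` of them (inject: a subset with at most `D` elements is the range (without the extra symbol) of a function `Fin D → Option X`).
-/

set_option autoImplicit false

namespace Pool.Agent.Lib.MP_b0c2b5_co.R3

open Finset LS
open scoped Classical

universe u v

/-- `X` is shattered by the family `S` -/
def Shat {Y : Type u} {ι : Type v} (S : ι → Finset Y) (X : Finset Y) : Prop := ∀ Z ⊆ X, ∃ i, X ∩ S i = Z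

private theorem VC_count {Y : Type u} (X : Finset Y) (D : ℕ) :
    (X.powerset.filter fun Z => Z.card ≤ D).card ≤ (X.card + 1) ^ D := by
  induction D with
  | zero =>
    rw [pow_zero]
    refine (Finset.card_le_card (t := {∅}) fun Z hZ => ?_).trans (Finset.card_singleton _).le
    rw [Finset.mem_filter] at hZ
    rw [Finset.mem_singleton]
    exact Finset.card_eq_zero.1 (Nat.le_zero.1 hZ.2)
  | succ D ih =>
    have hsub : (X.powerset.filter fun Z => Z.card ≤ D + 1) ⊆
        (X.powerset.filter fun Z => Z.card ≤ D) ∪ X.powersetCard (D + 1) := by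
      intro Z hZ
      rw [Finset.mem_filter, Finset.mem_powerset] at hZ
      rw [Finset.mem_union, Finset.mem_filter, Finset.mem_powerset, Finset.mem_powersetCard]
      rcases Nat.lt_or_ge Z.card (D + 1) with h | h
      · exact Or.inl ⟨hZ.1, Nat.lt_succ_iff.1 h⟩
      · exact Or.inr ⟨hZ.1, le_antisymm hZ.2 h⟩
    refine (Finset.card_le_card hsub).trans ((Finset.card_union_le _ _).trans ?_)
    rw [Finset.card_powersetCard]
    have h1 : X.card.choose (D + 1) ≤ X.card * (X.card + 1) ^ D := by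
      refine (Nat.choose_le_pow _ _).trans ?_
      rw [pow_succ, mul_comm]
      exact Nat.mul_le_mul_left _ (Nat.pow_le_pow_left (Nat.le_succ _) _)
    calc (X.powerset.filter fun Z => Z.card ≤ D).card + X.card.choose (D + 1)
        ≤ (X.card + 1) ^ D + X.card * (X.card + 1) ^ D := Nat.add_le_add ih h1
      _ = (X.card + 1) ^ (D + 1) := by ring

theorem trc_of_vc {Y : Type u} {ι : Type v} (S : ι → Finset Y) (D : ℕ) (h : ∀ X : Finset Y, Shat S X → X.card ≤ D) :
    Trc S 1 D := by
  intro X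
  set A : Finset (Finset Y) := X.powerset.filter fun Z => ∃ i, X ∩ S i = Z with hA
  have hmem : ∀ Z, Z ∈ A ↔ ∃ i, X ∩ S i = Z := by
    intro Z
    rw [hA, Finset.mem_filter, Finset.mem_powerset]
    constructor
    · exact fun hZ => hZ.2
    · rintro ⟨i, rfl⟩
      exact ⟨Finset.inter_subset_left, i, rfl⟩
  have hrange : Set.range (fun i => X ∩ S i) = (A : Set (Finset Y)) := by
    ext Z
    rw [Set.mem_range, Finset.mem_coe, hmem]
  rw [hrange, Set.ncard_coe_finset, one_mul]
  refine (Finset.card_le_card_shatterer A).trans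
    ((Finset.card_le_card fun s hs => ?_).trans (VC_count X D))
  rw [Finset.mem_shatterer] at hs
  have hsX : s ⊆ X := by
    obtain ⟨u, hu, hsu⟩ := hs (Finset.Subset.refl s)
    obtain ⟨i, rfl⟩ := (hmem u).1 hu
    exact (Finset.inter_eq_left.1 hsu).trans Finset.inter_subset_left
  refine Finset.mem_filter.2 ⟨Finset.mem_powerset.2 hsX, h s fun Z hZ => ?_⟩
  obtain ⟨u, hu, hsu⟩ := hs hZ
  obtain ⟨i, rfl⟩ := (hmem u).1 hu
  refine ⟨i, ?_⟩
  rw [← hsu, ← Finset.inter_assoc, Finset.inter_eq_left.2 hsX]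

private theorem VC_tri {V : Type u} {r lt : V → V → Prop} (h : HO r lt) {x y z : V}
    (hxy : r x y ∨ r y x) (hyz : r y z ∨ r z y) (hxz : r x z ∨ r z x) : False := by
  rcases hxy with hxy | hxy <;> rcases hyz with hyz | hyz <;> rcases hxz with hxz | hxz
  · exact h.sf x z y hxz (h.arc _ _ hxy) (h.arc _ _ hyz)
  · exact h.irr x (h.trans _ _ _ (h.arc _ _ hxy) (h.trans _ _ _ (h.arc _ _ hyz) (h.arc _ _ hxz)))
  · exact h.sf x y z hxy (h.arc _ _ hxz) (h.arc _ _ hyz)
  · exact h.sf z y x hyz (h.arc _ _ hxz) (h.arc _ _ hxy)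
  · exact h.sf y z x hyz (h.arc _ _ hxy) (h.arc _ _ hxz)
  · exact h.sf y x z hxy (h.arc _ _ hyz) (h.arc _ _ hxz)
  · exact h.irr y (h.trans _ _ _ (h.arc _ _ hxy) (h.trans _ _ _ (h.arc _ _ hxz) (h.arc _ _ hyz)))
  · exact h.sf z x y hxz (h.arc _ _ hyz) (h.arc _ _ hxy)

private theorem VC_out {V : Type u} [Fintype V] {r lt : V → V → Prop} (h : HO r lt)
    (X : Finset V) (hX : Shat (oN r) X) : ∃ g : Finset V → V, ∀ S ⊆ X, S.Nonempty → ∀ y ∈ X,
      ((r (g S) y ∨ r y (g S)) ↔ y ∈ S) := by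
  have hex : ∀ S : Finset V, ∃ v, S ⊆ X → X ∩ oN r v = S := by
    intro S
    by_cases hS : S ⊆ X
    · obtain ⟨v, hv⟩ := hX S hS
      exact ⟨v, fun _ => hv⟩
    · obtain ⟨v, _⟩ := hX ∅ (Finset.empty_subset X)
      exact ⟨v, fun h => absurd h hS⟩
  choose g hg using hex
  have hg' : ∀ S ⊆ X, ∀ y ∈ X, (r (g S) y ↔ y ∈ S) := by
    intro S hS y hy
    have := hg S hS
    constructor
    · intro hr
      rw [← this]
      exact Finset.mem_inter.2 ⟨hy, mem_oN.2 hr⟩
    · intro hyS
      rw [← this] at hyS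
      exact mem_oN.1 (Finset.mem_inter.1 hyS).2
  refine ⟨g, fun S hS hne y hy => ⟨?_, fun hyS => Or.inl ((hg' S hS y hy).2 hyS)⟩⟩
  rintro (hr | hr)
  · exact (hg' S hS y hy).1 hr
  · exfalso
    obtain ⟨x0, hx0⟩ := hne
    have hx0X := hS hx0
    have h1 : r (g S) x0 := (hg' S hS x0 hx0X).2 hx0
    have hP : ({y, x0} : Finset V) ⊆ X := by
      intro a ha
      rcases Finset.mem_insert.1 ha with rfl | ha
      · exact hy
      · rw [Finset.mem_singleton.1 ha]; exact hx0X
    have h2 : r (g {y, x0}) y := (hg' _ hP y hy).2 (by simp)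
    have h3 : r (g {y, x0}) x0 := (hg' _ hP x0 hx0X).2 (by simp)
    exact h.sf _ _ _ h3 (h.arc _ _ h2) (h.trans _ _ _ (h.arc _ _ hr) (h.arc _ _ h1))

private theorem VC_all {V : Type u} [Fintype V] {r lt : V → V → Prop} (h : HO r lt)
    (X : Finset V) (hX : Shat (aN r) X ∨ Shat (oN r) X ∨ Shat (iN r) X) :
    ∃ g : Finset V → V, ∀ S ⊆ X, S.Nonempty → ∀ y ∈ X, ((r (g S) y ∨ r y (g S)) ↔ y ∈ S) := by
  rcases hX with hX | hX | hX
  · have hex : ∀ S : Finset V, ∃ v, S ⊆ X → X ∩ aN r v = S := by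
      intro S
      by_cases hS : S ⊆ X
      · obtain ⟨v, hv⟩ := hX S hS
        exact ⟨v, fun _ => hv⟩
      · obtain ⟨v, _⟩ := hX ∅ (Finset.empty_subset X)
        exact ⟨v, fun h => absurd h hS⟩
    choose g hg using hex
    refine ⟨g, fun S hS _ y hy => ?_⟩
    have := hg S hS
    constructor
    · intro hr
      rw [← this]
      exact Finset.mem_inter.2 ⟨hy, mem_aN.2 hr⟩
    · intro hyS
      rw [← this] at hyS
      exact mem_aN.1 (Finset.mem_inter.1 hyS).2
  · exact VC_out h X hX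
  · obtain ⟨g, hg⟩ := VC_out (r := rev r) h.flip X hX
    exact ⟨g, fun S hS hne y hy => Or.comm.trans (hg S hS hne y hy)⟩

private theorem VC_emb {W : Type v} [Fintype W] (T : SimpleGraph W) (hT : T.Colorable 2)
    {V : Type u} [Fintype V] {r lt : V → V → Prop} (h : HO r lt) (X : Finset V)
    (hc : X.card = Fintype.card W + 1) (g : Finset V → V)
    (hg : ∀ S ⊆ X, S.Nonempty → ∀ y ∈ X, ((r (g S) y ∨ r y (g S)) ↔ y ∈ S)) :
    Nonempty (T ↪g Gr r) := by
  obtain ⟨C⟩ := hT
  -- independence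
  have hind : ∀ y ∈ X, ∀ z ∈ X, ¬ (r y z ∨ r z y) := by
    intro y hy z hz hyz
    have hP : ({y, z} : Finset V) ⊆ X := by
      intro a ha
      rcases Finset.mem_insert.1 ha with rfl | ha
      · exact hy
      · rw [Finset.mem_singleton.1 ha]; exact hz
    have hne : ({y, z} : Finset V).Nonempty := ⟨y, by simp⟩
    exact VC_tri h ((hg _ hP hne y hy).2 (by simp)) hyz ((hg _ hP hne z hz).2 (by simp))
  have hout : ∀ S ⊆ X, S.Nonempty → g S ∉ X := by
    intro S hS hne hgX
    obtain ⟨x, hx⟩ := hne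
    exact hind _ hgX x (hS hx) ((hg S hS ⟨x, hx⟩ x (hS hx)).2 hx)
  obtain ⟨x0, hx0⟩ : X.Nonempty := by
    rw [← Finset.card_pos, hc]; exact Nat.succ_pos _
  have hcard : Fintype.card W ≤ Fintype.card (X.erase x0) := by
    rw [Fintype.card_coe, Finset.card_erase_of_mem hx0, hc, Nat.add_sub_cancel]
  obtain ⟨e⟩ := Function.Embedding.nonempty_of_card_le hcard
  have heX : ∀ w, (e w : V) ∈ X := fun w => Finset.mem_of_mem_erase (e w).2
  have he0 : ∀ w, (e w : V) ≠ x0 := fun w => Finset.ne_of_mem_erase (e w).2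
  have heinj : ∀ a b, (e a : V) = e b → a = b := fun a b hab => e.injective (Subtype.ext hab)
  set S : W → Finset V := fun y => {x0, (e y : V)} ∪
    ((univ.filter fun x => C x = 0 ∧ T.Adj x y).image fun x => (e x : V)) with hSdef
  have hSmem : ∀ y v, v ∈ S y ↔ v = x0 ∨ v = e y ∨ ∃ x, (C x = 0 ∧ T.Adj x y) ∧ (e x : V) = v := by
    intro y v
    simp only [hSdef, Finset.mem_union, Finset.mem_insert, Finset.mem_singleton, Finset.mem_image,
      Finset.mem_filter, Finset.mem_univ, true_and, or_assoc]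
  have hSX : ∀ y, S y ⊆ X := by
    intro y v hv
    rcases (hSmem y v).1 hv with rfl | rfl | ⟨x, _, rfl⟩
    · exact hx0
    · exact heX y
    · exact heX x
  have hSx0 : ∀ y, x0 ∈ S y := fun y => (hSmem y x0).2 (Or.inl rfl)
  have hSne : ∀ y, (S y).Nonempty := fun y => ⟨x0, hSx0 y⟩
  have hgS : ∀ w, ∀ y ∈ X, ((r (g (S w)) y ∨ r y (g (S w))) ↔ y ∈ S w) :=
    fun w => hg (S w) (hSX w) (hSne w)
  have hfin2 : ∀ c : Fin 2, c = 0 ∨ c = 1 := by decide
  -- adjacency of a vertex of colour 0 and one of colour 1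
  have hkey : ∀ a b, C a = 0 → C b ≠ 0 → ((e a : V) ∈ S b ↔ T.Adj a b) := by
    intro a b ha hb
    rw [hSmem]
    constructor
    · rintro (h1 | h1 | ⟨x, ⟨hx, hadj⟩, h1⟩)
      · exact absurd h1 (he0 a)
      · exact absurd (heinj _ _ h1 ▸ ha) hb
      · rw [← heinj _ _ h1]; exact hadj
    · intro hadj
      exact Or.inr (Or.inr ⟨a, ⟨ha, hadj⟩, rfl⟩)
  have hnadj : ∀ a b, C a = C b → ¬ T.Adj a b := fun a b hab hadj => C.valid hadj hab
  let φ : W → V := fun w => if C w = 0 then (e w : V) else g (S w)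
  have hφ0 : ∀ w, C w = 0 → φ w = e w := fun w hw => if_pos hw
  have hφ1 : ∀ w, C w ≠ 0 → φ w = g (S w) := fun w hw => if_neg hw
  have hne01 : ∀ a b, C a = 0 → C b ≠ 0 → φ a ≠ φ b := by
    intro a b ha hb hab
    rw [hφ0 a ha, hφ1 b hb] at hab
    exact hout _ (hSX b) (hSne b) (hab ▸ heX a)
  have hinj : Function.Injective φ := by
    intro a b hab
    by_cases ha : C a = 0
    · by_cases hb : C b = 0
      · rw [hφ0 a ha, hφ0 b hb] at hab
        exact heinj _ _ hab
      · exact absurd hab (hne01 a b ha hb)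
    · by_cases hb : C b = 0
      · exact absurd hab.symm (hne01 b a hb ha)
      · rw [hφ1 a ha, hφ1 b hb] at hab
        have h1 : (e a : V) ∈ S b := by
          rw [← hgS b _ (heX a), ← hab, hgS a _ (heX a)]
          exact (hSmem a _).2 (Or.inr (Or.inl rfl))
        rcases (hSmem b _).1 h1 with h2 | h2 | ⟨x, ⟨hx, _⟩, h2⟩
        · exact absurd h2 (he0 a)
        · exact heinj _ _ h2
        · exact absurd (heinj _ _ h2 ▸ hx) ha
  have hG : ∀ x y : V, (Gr r).Adj x y ↔ x ≠ y ∧ (r x y ∨ r y x) := fun x y =>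
    SimpleGraph.fromRel_adj r x y
  have h01 : ∀ a b, C a = 0 → C b ≠ 0 → ((Gr r).Adj (φ a) (φ b) ↔ T.Adj a b) := by
    intro a b ha hb
    rw [hG, ← hkey a b ha hb, ← hgS b _ (heX a)]
    constructor
    · rintro ⟨_, h1⟩
      rw [hφ0 a ha, hφ1 b hb] at h1
      exact h1.symm
    · intro h1
      refine ⟨hne01 a b ha hb, ?_⟩
      rw [hφ0 a ha, hφ1 b hb]
      exact h1.symm
  refine ⟨⟨⟨φ, hinj⟩, ?_⟩⟩
  intro a b
  change (Gr r).Adj (φ a) (φ b) ↔ T.Adj a b
  by_cases ha : C a = 0
  · by_cases hb : C b = 0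
    · constructor
      · intro h1
        rw [hG, hφ0 a ha, hφ0 b hb] at h1
        exact absurd h1.2 (hind _ (heX a) _ (heX b))
      · intro h1
        exact absurd h1 (hnadj a b (ha.trans hb.symm))
    · exact h01 a b ha hb
  · by_cases hb : C b = 0
    · rw [SimpleGraph.adj_comm, T.adj_comm]
      exact h01 b a hb ha
    · constructor
      · intro h1
        rw [hG, hφ1 a ha, hφ1 b hb] at h1
        exfalso
        have h2 := (hgS a x0 hx0).2 (hSx0 a)
        have h3 := (hgS b x0 hx0).2 (hSx0 b)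
        exact VC_tri h h1.2 h3 h2
      · intro h1
        have ha1 : C a = 1 := (hfin2 _).resolve_left ha
        have hb1 : C b = 1 := (hfin2 _).resolve_left hb
        exact absurd h1 (hnadj a b (ha1.trans hb1.symm))

theorem vc_free {W : Type v} [Fintype W] (T : SimpleGraph W) (hT : T.Colorable 2) {V : Type u} [Fintype V]
    {r lt : V → V → Prop} (h : HO r lt) (hfree : ¬ Nonempty (T ↪g Gr r)) (X : Finset V)
    (hX : Shat (aN r) X ∨ Shat (oN r) X ∨ Shat (iN r) X) : X.card ≤ Fintype.card W := by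
  by_contra hlt
  obtain ⟨X', hsub, hcard⟩ := Finset.exists_subset_card_eq (Nat.succ_le_of_lt (not_le.1 hlt))
  obtain ⟨g, hg⟩ := VC_all h X hX
  exact hfree (VC_emb T hT h X' hcard g fun S hS hne y hy =>
    hg S (hS.trans hsub) hne y (hsub hy))

theorem trc_free {W : Type v} [Fintype W] (T : SimpleGraph W) (hT : T.Colorable 2) {V : Type u} [Fintype V]
    {r lt : V → V → Prop} (h : HO r lt) (hfree : ¬ Nonempty (T ↪g Gr r)) :
    Trc (aN r) 1 (Fintype.card W) ∧ Trc (oN r) 1 (Fintype.card W) ∧ Trc (iN r) 1 (Fintype.card W) :=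
  ⟨trc_of_vc _ _ fun X hX => vc_free T hT h hfree X (Or.inl hX),
    trc_of_vc _ _ fun X hX => vc_free T hT h hfree X (Or.inr (Or.inl hX)),
    trc_of_vc _ _ fun X hX => vc_free T hT h hfree X (Or.inr (Or.inr hX))⟩

end Pool.Agent.Lib.MP_b0c2b5_co.R3
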