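import Pool.Agent.Lib.MP_b0c2b5_co.R3.Stage
import Pool.Agent.Lib.MP_b0c2b5_co.R3.ThmA
import Pool.Agent.Lib.MP_b0c2b5_co.R3.VC
import Pool.Agent.Lib.MP_b0c2b5_co.Mg.G001

/-!
# R3, Main: trees of radius three

PROOF of `main`. `a = 1`, `b = card of the vertex set of treeG 3 t` (`trc_free` with `treeG_col`; a `Fintype` instance by `Fintype.ofFinite` and `treeG_finite`). `K, Q` from `stage t a b`, `n, CA` from `thmA t a b K`. CLAIM for `i ≤ n`: for every `Vs` with `Vs j = Vs i` for `j ≥ i`, antitone, and `Stp r K (Vs j) (Vs (j+1))` for `j < i`: `ColOn r (Vs i) (Q ^ (n - i) * CA)`. `i = n`: `thmA`.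
`i < n`: `stage` for `U = Vs i` gives `f` with values `< Q`; for `q < Q` let `Vs' j = Vs j` for `j ≤ i` and `Vs' j = (Vs i).filter (f = q)` for `j > i`; the claim for `i + 1` gives `ColOn r ((Vs i).filter (f = q)) (Q ^ (n-i-1) * CA)`, and `ColOn.classes` gives the claim for `i`. `i = 0`: `Vs j = univ` for all `j`: `ColOn r univ (Q ^ n * CA)`.
(Descending induction: `Nat.decreasingInduction` or induction on `n - i`.) If `V` is empty everything is trivial.
-/

set_option autoImplicit false

namespace Pool.Agent.Lib.MP_b0c2b5_co.R3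

open Finset LS
open scoped Classical

universe u

theorem main (t : ℕ) : ∃ C : ℕ, ∀ (V : Type u) [Fintype V] (r lt : V → V → Prop), HO r lt →
    ¬ Nonempty (treeG 3 t ↪g Gr r) → ColOn r (Set.univ : Set V) C := by
  have hfin : Finite {l : List (Fin t) // l.length ≤ 3} := treeG_finite 3 t
  let inst : Fintype {l : List (Fin t) // l.length ≤ 3} := Fintype.ofFinite _
  obtain ⟨K, Q, hst⟩ := stage.{u} t 1 (Fintype.card {l : List (Fin t) // l.length ≤ 3})
  obtain ⟨n, CA, hA⟩ := thmA.{u} t 1 (Fintype.card {l : List (Fin t) // l.length ≤ 3}) K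
  refine ⟨Q ^ n * CA, ?_⟩
  intro V _ r lt hr hfree
  obtain ⟨ta, _, ti⟩ := trc_free (treeG 3 t) (treeG_col 3 t) hr hfree
  have key : ∀ m i, i + m = n → ∀ Vs : ℕ → Finset V, (∀ i j, i ≤ j → Vs j ⊆ Vs i) → (∀ j, i ≤ j → Vs j = Vs i) →
      (∀ j < i, Stp r K (Vs j) (Vs (j + 1))) → ColOn r (Vs i : Set V) (Q ^ m * CA) := by
    intro m
    induction m with
    | zero =>
      intro i hi Vs h1 h2 h3
      have hin : i = n := by omega
      subst hin
      rw [pow_zero, one_mul]
      exact hA V r lt hr ti hfree Vs ⟨h1, h3⟩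
    | succ m ih =>
      intro i hi Vs h1 h2 h3
      obtain ⟨f, hf, hf2⟩ := hst V r lt hr ta ti hfree (Vs i)
      have h4 : Q ^ (m + 1) * CA = Q * (Q ^ m * CA) := by
        rw [pow_succ]
        ring
      rw [h4]
      refine ColOn.classes f (fun v hv => hf v hv) ?_
      intro q hq
      obtain ⟨Vs', hVs'⟩ : ∃ Vs' : ℕ → Finset V, Vs' = fun j => if j ≤ i then Vs j else (Vs i).filter (fun x => f x = q) := ⟨_, rfl⟩
      have e1 : ∀ j, j ≤ i → Vs' j = Vs j := by
        intro j hj
        rw [hVs']
        simp only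
        rw [if_pos hj]
      have e2 : ∀ j, i < j → Vs' j = (Vs i).filter (fun x => f x = q) := by
        intro j hj
        rw [hVs']
        simp only
        rw [if_neg (by omega)]
      have h5 := ih (i + 1) (by omega) Vs' (by
          intro a b hab
          rcases Nat.lt_or_ge i b with h | h
          · rw [e2 b h]
            rcases Nat.lt_or_ge i a with h' | h'
            · rw [e2 a h']
            · rw [e1 a h']
              exact (Finset.filter_subset _ _).trans (h1 a i h')
          · rw [e1 b h, e1 a (by omega)]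
            exact h1 a b hab) (by
          intro j hj
          rw [e2 j (by omega), e2 (i + 1) (by omega)]) (by
          intro j hj
          rcases Nat.lt_or_ge j i with h | h
          · rw [e1 j h.le, e1 (j + 1) h]
            exact h3 j h
          · have hji : j = i := by omega
            subst hji
            rw [e1 j le_rfl, e2 (j + 1) (by omega)]
            exact hf2 q hq)
      rw [e2 (i + 1) (by omega)] at h5
      refine ColOn.mono h5 ?_ le_rfl
      intro v hv
      rw [Finset.coe_filter]
      exact hv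
  have h := key n 0 (by omega) (fun _ => Finset.univ) (fun _ _ _ => Finset.Subset.refl _) (fun _ _ => rfl)
    (fun j hj => absurd hj (Nat.not_lt_zero j))
  refine ColOn.mono h ?_ le_rfl
  intro v _
  exact Finset.mem_coe.2 (Finset.mem_univ v)

end Pool.Agent.Lib.MP_b0c2b5_co.R3
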