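import Pool.Agent.Lib.MP_b0c2b5_co.R3.ChB

/-!
# R3, Many: vertices with many clean parents in a labelled class inherit labels

`Y'` is labelled (`Lab r Vs b a c Y' L B Th`), `Y' ⊆ Vs a`. For `g ∈ Vs a` let `D g ⊆ Vs (a-1)` be the set of (C) of the step `a - 1` (so `a ≥ 1`): `|D g| ≤ K`, `|(aN r v ∩ Vs (a-1)) \ (D g).biUnion (aN r)| ≤ K` for all `v ∈ Vs a`, `v ∈ aN r g`. (For `g ∉ Vs a`: `D g = ∅`.)
UNCLEAN: `Un z' := (L z').biUnion (fun h => ((B h).filter (fun g => z' ∈ aN r g)).biUnion (fun g => (aN r z' ∩ Vs (a-1)) \ (D g).biUnion (aN r)))`, at most `c * c * K` elements for `z' ∈ Y' ⊆ Vs a` (`B h ⊆ Vs a`).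
CONSTANTS: `M1 := K + K * (K+1) * c`, `c' := max ((M1 + 1) * c) (max (c * K) (max (K * (K + 1) * c) (c * c * K)))`.
PROOF. Let `Y` be a set as in the statement: every `z ∈ Y` has more than `M1` parents `z' ∈ Y'` with `z ∉ Un z'`; choose a set `S z` of exactly `M1 + 1` of them (`Finset.exists_subset_card_eq`), `L1 z := (S z).biUnion L`, at most `(M1+1) * c` elements. `B1 h := (B h).biUnion D ⊆ Vs (a-1)`, at most `c * K` elements.
`adj`: `h ∈ L1 z`: `h ∈ L z'`, `z' ∈ S z`, `z' ∈ aN r g` for some `g ∈ B h` (`Lab.adj`), and `z ∈ aN r z' ∩ Vs (a-1)`, `z ∉ Un z'`, so `z ∈ (D g).biUnion (aN r)`.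
`hit`: let `e ∈ Vs (b+2)`, and `D' ⊆ Vs b` the set of `Chn.cn` (`i = b`): `|D'| ≤ K (K+1)`, and `|(aN r v ∩ Vs (b+1)) \ D'.biUnion (oN r)| ≤ K` for `v ∈ Vs (b+2)`, `v ∈ aN r e`. `Th1 e := D'.biUnion Th`, at most `K (K+1) c` elements. CLAIM: `¬ Disjoint (L1 z) (Th1 e)` for ALL `z ∈ oN r e ∩ Y`: the elements of `S z` are in
`aN r z ∩ Vs (b+1)` (`Y' ⊆ Vs a ⊆ Vs (b+1)`), so at most `K` of them are not in `D'.biUnion (oN r)`; and by `Lab.hit` for every `g ∈ D'` at most `c` elements `z'` of `oN r g ∩ Y'` have `Disjoint (L z') (Th g)`. As `|S z| > K + K (K+1) c`, some `z' ∈ S z` is in `oN r g` for a `g ∈ D'` and `¬ Disjoint (L z') (Th g)`. (For `e ∉ Vs (b+2)` let `Th1 e = ∅`.)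
-/

set_option autoImplicit false

namespace Pool.Agent.Lib.MP_b0c2b5_co.R3

open Finset LS
open scoped Classical

universe u

theorem many (K c : ℕ) : ∃ M1 c' : ℕ, ∀ (V : Type u) [Fintype V] (r : V → V → Prop) (n : ℕ) (Vs : ℕ → Finset V),
    Chn r K n Vs → ∀ (b a : ℕ) (Y' : Finset V) (L B Th : V → Finset V), b + 3 ≤ a → a ≤ n → Y' ⊆ Vs a →
    Lab r Vs b a c Y' L B Th → ∃ Un : V → Finset V, (∀ z' ∈ Y', (Un z').card ≤ c') ∧
      ∀ Y : Finset V, Y ⊆ Vs a →
        (∀ z ∈ Y, M1 < ((Y'.filter (fun z' => r z' z ∧ z ∉ Un z')).card)) →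
        ∃ L1 B1 Th1 : V → Finset V, Lab r Vs (b+2) (a-1) c' Y L1 B1 Th1 := by
  refine ⟨K + K * (K + 1) * c,
    (K + K * (K + 1) * c + 1) * c + c * K + K * (K + 1) * c + c * (c * K), ?_⟩
  intro V _ r n Vs hc b a Y' L B Th hba han hY' hL
  obtain ⟨a', rfl⟩ : ∃ a', a = a' + 1 := ⟨a - 1, by omega⟩
  have hst := hc.stp a' (by omega)
  have hDex : ∀ g, ∃ D ⊆ Vs a', D.card ≤ K ∧ (g ∈ Vs (a' + 1) → ∀ v ∈ Vs (a' + 1), v ∈ aN r g →
      ((aN r v ∩ Vs a') \ D.biUnion (aN r)).card ≤ K) := by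
    intro g
    by_cases hg : g ∈ Vs (a' + 1)
    · obtain ⟨D, h1, h2, h3⟩ := hst.c g hg
      exact ⟨D, h1, h2, fun _ => h3⟩
    · exact ⟨∅, by simp, by simp, fun h => absurd h hg⟩
  choose D hD1 hD2 hD3 using hDex
  refine ⟨fun z' => (L z').biUnion (fun h => ((B h).filter (fun g => z' ∈ aN r g)).biUnion
    (fun g => (aN r z' ∩ Vs a') \ (D g).biUnion (aN r))), ?_, ?_⟩
  · intro z' hz'
    have h1 : ((L z').biUnion (fun h => ((B h).filter (fun g => z' ∈ aN r g)).biUnion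
        (fun g => (aN r z' ∩ Vs a') \ (D g).biUnion (aN r)))).card ≤ c * (c * K) := by
      refine (Finset.card_biUnion_le_card_mul _ _ (c * K) ?_).trans
        (Nat.mul_le_mul_right _ (hL.Lc z' hz'))
      intro h _
      refine (Finset.card_biUnion_le_card_mul _ _ K ?_).trans
        (Nat.mul_le_mul_right _ ((Finset.card_filter_le _ _).trans (hL.Bc h)))
      intro g hg
      rw [Finset.mem_filter] at hg
      exact hD3 g (hL.Bs h hg.1) z' (hY' hz') hg.2
    refine h1.trans ?_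
    omega
  intro Y hY hM
  have hSex : ∀ z, ∃ S : Finset V, z ∈ Y → S ⊆ Y'.filter (fun z' => r z' z ∧
      z ∉ (L z').biUnion (fun h => ((B h).filter (fun g => z' ∈ aN r g)).biUnion
        (fun g => (aN r z' ∩ Vs a') \ (D g).biUnion (aN r)))) ∧
      S.card = K + K * (K + 1) * c + 1 := by
    intro z
    by_cases hz : z ∈ Y
    · obtain ⟨S, h1, h2⟩ := Finset.exists_subset_card_eq (Nat.succ_le_of_lt (hM z hz))
      exact ⟨S, fun _ => ⟨h1, h2⟩⟩
    · exact ⟨∅, fun h => absurd h hz⟩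
  choose S hS using hSex
  have hDpex : ∀ e, ∃ D' ⊆ Vs b, D'.card ≤ K * (K + 1) ∧ (e ∈ Vs (b + 2) → ∀ v ∈ Vs (b + 2),
      v ∈ aN r e → ((aN r v ∩ Vs (b + 1)) \ D'.biUnion (oN r)).card ≤ K) := by
    intro e
    by_cases he : e ∈ Vs (b + 2)
    · obtain ⟨D', h1, h2, h3⟩ := hc.cn (i := b) (by omega) he
      exact ⟨D', h1, h2, fun _ => h3⟩
    · exact ⟨∅, by simp, by simp, fun h => absurd h he⟩
  choose D' hD'1 hD'2 hD'3 using hDpex
  refine ⟨fun z => if z ∈ Y then (S z).biUnion L else ∅, fun h => (B h).biUnion D,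
    fun e => (D' e).biUnion Th, ?_⟩
  refine ⟨?_, ?_, ?_, ?_, ?_, ?_⟩
  · intro z hz
    rw [if_pos hz]
    obtain ⟨h1, h2⟩ := hS z hz
    have h3 : ((S z).biUnion L).card ≤ (S z).card * c :=
      Finset.card_biUnion_le_card_mul _ _ c fun z' hz' =>
        hL.Lc z' (Finset.mem_filter.1 (h1 hz')).1
    rw [h2] at h3
    omega
  · intro h
    have h1 : ((B h).biUnion D).card ≤ c * K :=
      (Finset.card_biUnion_le_card_mul _ _ K fun g _ => hD2 g).trans
        (Nat.mul_le_mul_right _ (hL.Bc h))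
    omega
  · intro h
    rw [Finset.biUnion_subset]
    intro g _
    exact hD1 g
  · intro e
    have h1 : ((D' e).biUnion Th).card ≤ K * (K + 1) * c :=
      (Finset.card_biUnion_le_card_mul _ _ c fun g _ => hL.Tc g).trans
        (Nat.mul_le_mul_right _ (hD'2 e))
    omega
  · intro e he
    have hemp : ((oN r e ∩ Y).filter (fun z => Disjoint
        (if z ∈ Y then (S z).biUnion L else ∅) ((D' e).biUnion Th))) = ∅ := by
      rw [Finset.filter_eq_empty_iff]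
      intro z hz hdis
      rw [Finset.mem_inter] at hz
      obtain ⟨hze, hzY⟩ := hz
      rw [if_pos hzY] at hdis
      obtain ⟨h1, h2⟩ := hS z hzY
      have hzV : z ∈ Vs (b + 2) := hc.anti (b + 2) (a' + 1) (by omega) (hY hzY)
      have h3 := hD'3 e he z hzV (oN_sub_aN r e hze)
      have h4 : S z ⊆ ((aN r z ∩ Vs (b + 1)) \ (D' e).biUnion (oN r)) ∪
          (D' e).biUnion (fun g => (oN r g ∩ Y').filter (fun z' => Disjoint (L z') (Th g))) := by
        intro z' hz'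
        have h5 := Finset.mem_filter.1 (h1 hz')
        by_cases h6 : z' ∈ (D' e).biUnion (oN r)
        · obtain ⟨g, hg, hzg⟩ := Finset.mem_biUnion.1 h6
          refine Finset.mem_union_right _ (Finset.mem_biUnion.2 ⟨g, hg, ?_⟩)
          refine Finset.mem_filter.2 ⟨Finset.mem_inter.2 ⟨hzg, h5.1⟩, ?_⟩
          exact hdis.mono (Finset.subset_biUnion_of_mem L hz') (Finset.subset_biUnion_of_mem Th hg)
        · refine Finset.mem_union_left _ (Finset.mem_sdiff.2 ⟨Finset.mem_inter.2 ⟨?_, ?_⟩, h6⟩)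
          · exact mem_aN.2 (Or.inr h5.2.1)
          · exact hc.anti (b + 1) (a' + 1) (by omega) (hY' h5.1)
      have h7 := Finset.card_le_card h4
      have h8 := Finset.card_union_le ((aN r z ∩ Vs (b + 1)) \ (D' e).biUnion (oN r))
        ((D' e).biUnion (fun g => (oN r g ∩ Y').filter (fun z' => Disjoint (L z') (Th g))))
      have h9 : ((D' e).biUnion (fun g => (oN r g ∩ Y').filter
          (fun z' => Disjoint (L z') (Th g)))).card ≤ K * (K + 1) * c :=
        (Finset.card_biUnion_le_card_mul _ _ c fun g hg => hL.hit g (hD'1 e hg)).trans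
          (Nat.mul_le_mul_right _ (hD'2 e))
      rw [h2] at h7
      omega
    rw [hemp]
    simp
  · intro z hz h hh
    rw [if_pos hz] at hh
    obtain ⟨z', hz', hhz'⟩ := Finset.mem_biUnion.1 hh
    obtain ⟨h1, h2⟩ := hS z hz
    have h5 := Finset.mem_filter.1 (h1 hz')
    obtain ⟨g, hg, hzg⟩ := hL.adj z' h5.1 h hhz'
    have h6 : z ∈ (D g).biUnion (aN r) := by
      by_contra h7
      apply h5.2.2
      refine Finset.mem_biUnion.2 ⟨h, hhz', Finset.mem_biUnion.2 ⟨g, Finset.mem_filter.2 ⟨hg, hzg⟩, ?_⟩⟩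
      refine Finset.mem_sdiff.2 ⟨Finset.mem_inter.2 ⟨mem_aN.2 (Or.inl h5.2.1), ?_⟩, h7⟩
      exact hc.anti a' (a' + 1) (by omega) (hY hz)
    obtain ⟨d, hd, hzd⟩ := Finset.mem_biUnion.1 h6
    exact ⟨d, Finset.mem_biUnion.2 ⟨g, hg, hd⟩, hzd⟩

end Pool.Agent.Lib.MP_b0c2b5_co.R3
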