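import Pool.Agent.Lib.MP_b0c2b5_co.R3.CoS
import Pool.Agent.Lib.MP_b0c2b5_co.R3.TG

/-!
# R3, OT: the loose sets of depth `d` are empty

PROOF. `m0` from `tree_gen d t`, `m := m0 * (K + 1)`, `M` = the `k` of `cov_or_spread a b m`. Suppose `Λ d ≠ ∅`. `cov_or_spread` with `N = oN r`, `N' = iN r`, `G0 = Vs (jj (k+1))`, `B = oN r z ∩ Λ k` for `z ∈ Λ (k+1) = Lam ..` (unfold `Lam`), for a common `T > 0`: lists `ℓ k z` with values in `oN r z ∩ Λ k`,
`m * #{s : r g (ℓ k z s)} ≤ T` for `g ∈ Vs (jj (k+1))`, `m * #{s : ℓ k z s = y} ≤ T`. `Λ k ⊆ Vs (ii k)` for all `k ≤ d`. The numbers `ii k` are decreasing in `k` (`ii (k+1) < jj (k+1) < ii k`).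
Apply `tree_gen` to `r`. `hc` for `k, l < d`: if `l < k`: FIRST alternative: `z ∈ Λ (k+1)`, `q ∈ Λ l`. The condition (P) of the step `i := ii k - 1` of the chain (`ii k ≥ 1`, as `k + 1 ≤ d` gives `jj (k+1) < ii k`; `ii k - 1 < n`): `q ∈ Vs (ii l) ⊆ Vs (ii k)`: there is `Z ⊆ Vs (ii k - 1)`, `|Z| ≤ K`, such that all `y ∈ Vs (ii k)` with `r y q` are in `Z.biUnion (oN r)`. So
`r (ℓ k z s) q` implies `ℓ k z s ∈ Z.biUnion (oN r)` (as `ℓ k z s ∈ Λ k ⊆ Vs (ii k)`), and `Z ⊆ Vs (ii k - 1) ⊆ Vs (jj (k+1))`, so `m * #{s : ..} ≤ K * T`, and `m0 * #{..} ≤ T`. If `k ≤ l`: SECOND alternative: `z ∈ Λ (l+1)`, `q ∈ Λ k ⊆ Vs (ii k) ⊆ Vs (jj (l+1))` since `jj (l+1) < ii l ≤ ii k`: `m * #{s : r q (ℓ l z s)} ≤ T`.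
`he`: clear. So `treeG d t ↪g Gr r`: contradiction.
-/

set_option autoImplicit false

namespace Pool.Agent.Lib.MP_b0c2b5_co.R3

open Finset LS
open scoped Classical

universe u

theorem out_empty (d t a b K : ℕ) : ∃ M : ℕ, ∀ (V : Type u) [Fintype V] (r lt : V → V → Prop), HO r lt →
    Trc (iN r) a b → ¬ Nonempty (treeG d t ↪g Gr r) → ∀ (n : ℕ) (Vs : ℕ → Finset V), Chn r K n Vs →
    ∀ (ii jj : ℕ → ℕ) (Λ : ℕ → Finset V), ii 0 ≤ n → Λ 0 ⊆ Vs (ii 0) →
    (∀ k < d, ii (k+1) < jj (k+1) ∧ jj (k+1) < ii k ∧ Λ (k+1) = Lam r Vs M (ii (k+1)) (jj (k+1)) (Λ k)) →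
    Λ d = ∅ := by
  obtain ⟨m0, hm0, htree⟩ := tree_gen.{u} d t
  obtain ⟨M, hcov⟩ := cov_or_spread.{u} a b (m0 * (K + 1)) (Nat.mul_pos hm0 (Nat.succ_pos K))
  refine ⟨M, ?_⟩
  intro V _ r lt hHO hTrc hno n Vs hChn ii jj Λ hi0 hL0 hstep
  by_contra hne
  obtain ⟨z0, hz0⟩ := Finset.nonempty_iff_ne_empty.2 hne
  obtain ⟨T0, hT0⟩ := hcov V (oN r) (iN r) (fun g x => by rw [mem_oN, mem_iN]) hTrc
  have hTle : T0 ≤ T0 + 1 := Nat.le_succ _
  have hTpos : 0 < T0 + 1 := Nat.succ_pos _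
  revert hTle hTpos
  generalize T0 + 1 = T
  intro hTle hTpos
  have hm0m : m0 ≤ m0 * (K + 1) := Nat.le_mul_of_pos_right _ (Nat.succ_pos K)
  have hsp : ∀ (k : ℕ) (z : V), ∃ ℓ : Fin T → V, k < d → z ∈ Λ (k + 1) →
      (∀ s, ℓ s ∈ oN r z ∩ Λ k) ∧
      (∀ g ∈ Vs (jj (k + 1)), (m0 * (K + 1)) * (univ.filter (fun s => ℓ s ∈ oN r g)).card ≤ T) ∧
      ∀ y, (m0 * (K + 1)) * (univ.filter (fun s => ℓ s = y)).card ≤ T := by
    intro k z
    by_cases h : k < d ∧ z ∈ Λ (k + 1)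
    · obtain ⟨h1, h2⟩ := h
      have h3 := h2
      rw [(hstep k h1).2.2] at h3
      unfold Lam at h3
      rw [Finset.mem_filter] at h3
      obtain ⟨ℓ, hℓ⟩ := hT0 (Vs (jj (k + 1))) (oN r z ∩ Λ k) h3.2 T hTle
      exact ⟨ℓ, fun _ _ => hℓ⟩
    · exact ⟨fun _ => z0, fun h1 h2 => absurd ⟨h1, h2⟩ h⟩
  choose ℓ hℓ using hsp
  have hLV : ∀ k, k ≤ d → Λ k ⊆ Vs (ii k) := by
    intro k hk
    cases k with
    | zero => exact hL0
    | succ k =>
      rw [(hstep k (by omega)).2.2]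
      unfold Lam
      exact Finset.filter_subset _ _
  have hdec : ∀ l j, l + j ≤ d → ii (l + j) ≤ ii l := by
    intro l j
    induction j with
    | zero => intro _; exact le_rfl
    | succ j ih =>
      intro h
      have h1 := ih (by omega)
      have h2 := hstep (l + j) (by omega)
      have h3 : ii (l + (j + 1)) = ii (l + j + 1) := rfl
      omega
  have hdec' : ∀ l k, l ≤ k → k ≤ d → ii k ≤ ii l := by
    intro l k hlk hk
    have h := hdec l (k - l) (by omega)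
    rw [show l + (k - l) = k by omega] at h
    exact h
  apply hno
  refine htree V r lt hHO Λ T hTpos ℓ ?_ ?_ ?_ z0 hz0
  · intro k hk z hz s
    have h := (hℓ k z hk hz).1 s
    rw [Finset.mem_inter, mem_oN] at h
    exact ⟨h.2, h.1⟩
  · intro k hk l hl
    by_cases hlk : l < k
    · left
      intro z hz q hq
      have h1 := hstep k hk
      have h2 := hdec' 0 k (Nat.zero_le _) (by omega)
      have hi : ii k - 1 < n := by omega
      have hq' : q ∈ Vs (ii k - 1 + 1) := by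
        rw [show ii k - 1 + 1 = ii k by omega]
        exact hChn.anti _ _ (hdec' l k (by omega) (by omega)) (hLV l (by omega) hq)
      obtain ⟨Z, hZ, hZc, hZ'⟩ := (hChn.stp (ii k - 1) hi).p q hq'
      have h3 := hℓ k z hk hz
      have hsub : (univ.filter (fun s : Fin T => r (ℓ k z s) q)) ⊆
          Z.biUnion (fun g => univ.filter (fun s : Fin T => ℓ k z s ∈ oN r g)) := by
        intro s hs
        rw [Finset.mem_filter] at hs
        have h4 : ℓ k z s ∈ Vs (ii k - 1 + 1) := by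
          rw [show ii k - 1 + 1 = ii k by omega]
          exact hLV k (by omega) (Finset.mem_inter.1 (h3.1 s)).2
        have h5 := hZ' _ h4 hs.2
        rw [Finset.mem_biUnion] at h5 ⊢
        obtain ⟨g, hg, hg'⟩ := h5
        exact ⟨g, hg, Finset.mem_filter.2 ⟨Finset.mem_univ _, hg'⟩⟩
      have hcard : (m0 * (K + 1)) * (univ.filter (fun s : Fin T => r (ℓ k z s) q)).card ≤ K * T := by
        calc (m0 * (K + 1)) * (univ.filter (fun s : Fin T => r (ℓ k z s) q)).card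
            ≤ (m0 * (K + 1)) * ∑ g ∈ Z, (univ.filter (fun s : Fin T => ℓ k z s ∈ oN r g)).card :=
              Nat.mul_le_mul_left _ (le_trans (Finset.card_le_card hsub) Finset.card_biUnion_le)
          _ = ∑ g ∈ Z, (m0 * (K + 1)) * (univ.filter (fun s : Fin T => ℓ k z s ∈ oN r g)).card :=
              Finset.mul_sum _ _ _
          _ ≤ ∑ g ∈ Z, T := by
              apply Finset.sum_le_sum
              intro g hg
              exact h3.2.1 g (hChn.anti _ _ (by omega) (hZ hg))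
          _ = Z.card * T := by rw [Finset.sum_const, smul_eq_mul]
          _ ≤ K * T := Nat.mul_le_mul_right _ hZc
      have h6 : (K + 1) * (m0 * (univ.filter (fun s : Fin T => r (ℓ k z s) q)).card) ≤ (K + 1) * T := by
        calc (K + 1) * (m0 * (univ.filter (fun s : Fin T => r (ℓ k z s) q)).card)
            = (m0 * (K + 1)) * (univ.filter (fun s : Fin T => r (ℓ k z s) q)).card := by ring
          _ ≤ K * T := hcard
          _ ≤ (K + 1) * T := Nat.mul_le_mul_right _ (Nat.le_succ K)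
      exact Nat.le_of_mul_le_mul_left h6 (Nat.succ_pos K)
    · right
      intro z hz q hq
      have h1 := hstep l hl
      have h2 := hdec' k l (by omega) (by omega)
      have h3 := (hℓ l z hl hz).2.1 q (hChn.anti _ _ (by omega) (hLV k (by omega) hq))
      have h4 : (univ.filter (fun s : Fin T => r q (ℓ l z s))) =
          univ.filter (fun s : Fin T => ℓ l z s ∈ oN r q) :=
        Finset.filter_congr (fun s _ => by rw [mem_oN])
      rw [h4]
      exact le_trans (Nat.mul_le_mul_right _ hm0m) h3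
  · intro k hk z hz q
    exact le_trans (Nat.mul_le_mul_right _ hm0m) ((hℓ k z hk hz).2.2 q)

end Pool.Agent.Lib.MP_b0c2b5_co.R3
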