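import Pool.Agent.Lib.MP_b0c2b5_co.R3.E4
import Pool.Agent.Lib.MP_b0c2b5_co.R3.MWU
import Pool.Agent.Lib.MP_b0c2b5_co.R3.SmB

/-!
# R3, Ob: a set which is not `j`-small carries a spread object of depth `j + 1`

PROOF by induction on `j`. `j = 0`: `k := m`. `B` has more than `m` elements: let `pt : Fin m → V` be injective with values in `B`; for `T` divisible by `m` let `φ [s] = pt (s mod m)` (all other values arbitrary). `base` clear; `edge`, `pair` are void (depth 1); `last`: `l = []`, every value occurs `T / m` times or never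
(`Nat.count_modEq_card` or: the map `s ↦ (s / m, s mod m)` is injective on `Fin T`, so at most `T / m` numbers `s < T` have a given residue); `few`: the image is contained in the image of `pt`. `T0 = 0` (also `m = 0` is excluded by `0 < m`).
`j → j + 1`: `k := max (k of j) (k of epsnet a b (2 * m))`. `T0 := max (T0 of j) (T0 of mwu with N = card V, α = 1 / (2 m))` and at least `1`. Let `¬ Sm r U (j+1) k B`, `T ≥ T0`, `m ∣ T`. ACTIONS: the pairs `(v, ψ)` with `v ∈ B` and `Obj r U T m (j+1) ((aN r v) ∩ U) ψ`. CONSTRAINTS: `g : V`;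
value `a (v, ψ) g = (number of s with ψ [s] ∈ aN r g) / T` if `g ∈ U` and `0` otherwise (in `[0,1]`). Let `w ≥ 0` be a weight on `V`. `epsnet` for the family `fun x => aN r x ∩ U` (`Trc.inter`) and the weight `w`: net `E`, `D := E ∩ U ⊆ U`, `|D| ≤ k`. As `¬ Sm r U (j+1) k B` there is `v ∈ B` with
`¬ Sm r U j k ((aN r v ∩ U) \ D.biUnion (aN r))`; by induction (`Scl.mono`) there is an object `ψ` of depth `j+1` on this set, so also on `aN r v ∩ U` (only `base` changes), and all `x = ψ [s]` have `x ∉ D.biUnion (aN r)`, so `D` does not meet `aN r x ∩ U`, so `2 m * ∑ g ∈ aN r x ∩ U, w g ≤ ∑ g, w g` (otherwise the sum is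
positive and `E` meets the set). Hence `∑ g, w g * a (v, ψ) g = (1/T) * ∑ s, ∑ g ∈ aN r (ψ [s]) ∩ U, w g ≤ (1 / (2 m)) * ∑ w`. By `mwu` there are actions `(v s, ψ s)`, `s : Fin T`, with `∑ s, a (v s, ψ s) g ≤ 2 α T = T / m` for all `g`.
`φ l` for `l = l' ++ [s]`: `φ [s] = v s`, `φ (l' ++ [s]) = ψ s l'` for `l' ≠ []` (define with `l.getLast`, `l.dropLast`). `base`: clear. `edge` for `s' :: l`, `l = l' ++ [s]`: if `l' = []`: `ψ s [s'] ∈ aN r (v s) ∩ U` (`base` of `ψ s`); otherwise `edge` of `ψ s`. `pair`: `l = []`, `g ∈ U`: the number of pairs `(s, s')` with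
`ψ s [s'] ∈ aN r g` is `T * ∑ s, a (v s, ψ s) g ≤ T * T / m`; `l = l' ++ [s]`: `pair` of `ψ s` for `l'`. `last`, `few`: `l` has length `j + 1 ≥ 1`, so `l = l' ++ [s]`: `last`, `few` of `ψ s` for `l'`.
-/

set_option autoImplicit false

namespace Pool.Agent.Lib.MP_b0c2b5_co.R3

open Finset LS
open scoped Classical

universe u

private theorem Ob_pt {V : Type u} (m : ℕ) (B : Finset V) (hB : m < B.card) :
    ∃ pt : Fin m → V, Function.Injective pt ∧ ∀ i, pt i ∈ B := by
  refine ⟨fun i => (B.equivFin.symm (Fin.castLE hB.le i)).1, ?_, fun i => (B.equivFin.symm _).2⟩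
  intro i i' h
  have h1 := B.equivFin.symm.injective (Subtype.ext h)
  exact Fin.castLE_injective _ h1

private theorem Ob_mod {V : Type u} {m q : ℕ} (hm : 0 < m) (pt : Fin m → V)
    (hpt : Function.Injective pt) (g : V) :
    (univ.filter (fun s : Fin (m * q) => pt ⟨s.val % m, Nat.mod_lt _ hm⟩ = g)).card ≤ q := by
  have h1 : (univ.filter (fun s : Fin (m * q) => pt ⟨s.val % m, Nat.mod_lt _ hm⟩ = g)).card ≤
      (range q).card := by
    refine card_le_card_of_injOn (fun s => s.val / m) ?_ ?_
    · intro s _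
      simp only [coe_range, Set.mem_Iio]
      exact Nat.div_lt_of_lt_mul s.2
    · intro s hs s' hs' h
      simp only [coe_filter, mem_univ, true_and, Set.mem_ofPred_eq] at hs hs'
      have h2 := hpt (hs.trans hs'.symm)
      have h3 : s.val % m = s'.val % m := congrArg Fin.val h2
      have h4 : s.val / m = s'.val / m := h
      apply Fin.ext
      rw [← Nat.div_add_mod s.val m, ← Nat.div_add_mod s'.val m, h3, h4]
  rwa [card_range] at h1

theorem obj_zero (m : ℕ) (hm : 0 < m) (V : Type u) [Fintype V] (r : V → V → Prop) (U B : Finset V) (hB : m < B.card)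
    (T : ℕ) (hT : m ∣ T) : ∃ φ, Obj r U T m 1 B φ := by
  obtain ⟨pt, hinj, hpt⟩ := Ob_pt m B hB
  obtain ⟨q, rfl⟩ := hT
  refine ⟨fun l => match l with
    | [] => pt ⟨0, hm⟩
    | s :: _ => pt ⟨s.val % m, Nat.mod_lt _ hm⟩, ?_, ?_, ?_, ?_, ?_⟩
  · intro s
    exact hpt _
  · intro s l h1 h2
    omega
  · intro l h1
    omega
  · intro l hl g
    exact Nat.mul_le_mul_left m (Ob_mod hm pt hinj g)
  · intro l hl
    have h1 : (univ.image (fun s : Fin (m * q) => pt ⟨s.val % m, Nat.mod_lt _ hm⟩)) ⊆
        univ.image pt := by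
      intro x hx
      obtain ⟨s, -, rfl⟩ := mem_image.1 hx
      exact mem_image_of_mem _ (mem_univ _)
    refine (card_le_card h1).trans (card_image_le.trans ?_)
    rw [card_univ, Fintype.card_fin]

theorem obj_exists (a b m : ℕ) (hm : 0 < m) (j : ℕ) : ∃ k : ℕ, ∀ (V : Type u) [Fintype V] (r : V → V → Prop),
    Trc (aN r) a b → ∀ U : Finset V, ∃ T0 : ℕ, ∀ B : Finset V, ¬ Sm r U j k B → ∀ T ≥ T0, m ∣ T →
      ∃ φ, Obj r U T m (j+1) B φ := by
  induction j with
  | zero =>
    refine ⟨m, fun V _ r _ U => ⟨0, fun B hB T _ hmT => ?_⟩⟩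
    exact obj_zero m hm V r U B (not_le.1 hB) T hmT
  | succ j ih =>
    obtain ⟨k₁, h₁⟩ := ih
    obtain ⟨k₂, h₂⟩ := epsnet.{u, u} a b (2 * m) (by omega)
    refine ⟨max k₁ k₂, fun V _ r htr U => ?_⟩
    obtain ⟨T₁, h₁⟩ := h₁ V r htr U
    have hmR : (0 : ℝ) < m := by exact_mod_cast hm
    obtain ⟨T₂, h₃⟩ := mwu.{u, u} (Fintype.card V) (1 / (2 * m)) (by positivity)
    refine ⟨max (max T₁ T₂) 1, fun B hB T hT hmT => ?_⟩
    have hT1 : T₁ ≤ T := (le_max_left _ _).trans ((le_max_left _ _).trans hT)
    have hT2 : T₂ ≤ T := (le_max_right _ _).trans ((le_max_left _ _).trans hT)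
    have hTpos : 1 ≤ T := (le_max_right _ _).trans hT
    have hTR : (0 : ℝ) < T := by exact_mod_cast hTpos
    let Act : Type u := {x : V × (List (Fin T) → V) // x.1 ∈ B ∧
      Obj r U T m (j + 1) (aN r x.1 ∩ U) x.2}
    let val : Act → V → ℝ := fun o g =>
      if g ∈ U then ((univ.filter (fun s : Fin T => o.1.2 [s] ∈ aN r g)).card : ℝ) / T else 0
    have hval : ∀ o g, val o g =
        if g ∈ U then ((univ.filter (fun s : Fin T => o.1.2 [s] ∈ aN r g)).card : ℝ) / T else 0 :=
      fun _ _ => rfl
    have hv0 : ∀ o g, 0 ≤ val o g := by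
      intro o g
      rw [hval]
      split_ifs
      · positivity
      · exact le_rfl
    have hv1 : ∀ o g, val o g ≤ 1 := by
      intro o g
      rw [hval]
      split_ifs
      · rw [div_le_one hTR]
        have : (univ.filter (fun s : Fin T => o.1.2 [s] ∈ aN r g)).card ≤ T := by
          refine (card_filter_le _ _).trans ?_
          rw [card_univ, Fintype.card_fin]
        exact_mod_cast this
      · exact zero_le_one
    have hmain : ∀ w : V → ℝ, (∀ g, 0 ≤ w g) →
        ∃ o, ∑ g, w g * val o g ≤ (1 / (2 * m) : ℝ) * ∑ g, w g := by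
      intro w hw
      obtain ⟨E, hE, hnet⟩ := h₂ V V (fun x => aN r x ∩ U) (Trc.inter htr U) w hw
      have hD1 : E ∩ U ⊆ U := inter_subset_right
      have hD2 : (E ∩ U).card ≤ max k₁ k₂ :=
        (card_le_card inter_subset_left).trans (hE.trans (le_max_right _ _))
      have hex : ∃ v ∈ B, ¬ Sm r U j (max k₁ k₂) ((aN r v ∩ U) \ (E ∩ U).biUnion (aN r)) := by
        by_contra hc
        push Not at hc
        exact hB ⟨E ∩ U, hD1, hD2, hc⟩
      obtain ⟨v, hv, hns⟩ := hex
      have hns' : ¬ Sm r U j k₁ ((aN r v ∩ U) \ (E ∩ U).biUnion (aN r)) := fun h =>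
        hns ((scl_sm r U j).mono k₁ (max k₁ k₂) _ _ (le_max_left _ _) (Subset.refl _) h)
      obtain ⟨ψ, hψ⟩ := h₁ _ hns' T hT1 hmT
      have hψ' : Obj r U T m (j + 1) (aN r v ∩ U) ψ :=
        ⟨fun s => (mem_sdiff.1 (hψ.base s)).1, hψ.edge, hψ.pair, hψ.last, hψ.few⟩
      refine ⟨⟨(v, ψ), hv, hψ'⟩, ?_⟩
      have hW : 0 ≤ ∑ g, w g := sum_nonneg fun g _ => hw g
      have hS : ∀ s : Fin T, ∑ g ∈ aN r (ψ [s]) ∩ U, w g ≤ (1 / (2 * m) : ℝ) * ∑ g, w g := by
        intro s
        have hno : ¬ ∃ y ∈ E, y ∈ aN r (ψ [s]) ∩ U := by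
          rintro ⟨y, hyE, hy⟩
          obtain ⟨hy1, hy2⟩ := mem_inter.1 hy
          apply (mem_sdiff.1 (hψ.base s)).2
          exact mem_biUnion.2 ⟨y, mem_inter.2 ⟨hyE, hy2⟩, aN_comm.1 hy1⟩
        have h4 : (2 * m : ℝ) * ∑ g ∈ aN r (ψ [s]) ∩ U, w g ≤ ∑ g, w g := by
          by_contra hc
          rw [not_le] at hc
          have h5 : 0 < ∑ g ∈ aN r (ψ [s]) ∩ U, w g := by
            by_contra h6
            rw [not_lt] at h6
            have : (2 * m : ℝ) * ∑ g ∈ aN r (ψ [s]) ∩ U, w g ≤ 0 :=
              mul_nonpos_of_nonneg_of_nonpos (by positivity) h6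
            linarith
          refine hno (hnet _ h5 ?_)
          push_cast
          exact hc.le
        rw [one_div, inv_mul_eq_div, le_div_iff₀ (by positivity)]
        linarith
      have hg : ∀ g, w g * val ⟨(v, ψ), hv, hψ'⟩ g =
          (∑ s : Fin T, if g ∈ aN r (ψ [s]) ∩ U then w g else 0) / T := by
        intro g
        rw [hval]
        by_cases hgU : g ∈ U
        · rw [if_pos hgU]
          have h6 : ∀ s : Fin T, (if g ∈ aN r (ψ [s]) ∩ U then w g else 0) =
              w g * (if ψ [s] ∈ aN r g then 1 else 0) := by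
            intro s
            by_cases h7 : ψ [s] ∈ aN r g
            · rw [if_pos h7, if_pos (mem_inter.2 ⟨aN_comm.1 h7, hgU⟩), mul_one]
            · rw [if_neg h7, if_neg, mul_zero]
              intro h8
              exact h7 (aN_comm.1 (mem_inter.1 h8).1)
          rw [sum_congr rfl fun s _ => h6 s, ← mul_sum, mul_div_assoc]
          congr 2
          rw [sum_boole]
        · rw [if_neg hgU, mul_zero]
          rw [sum_eq_zero, zero_div]
          intro s _
          rw [if_neg]
          intro h8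
          exact hgU (mem_inter.1 h8).2
      rw [sum_congr rfl fun g _ => hg g, ← sum_div, sum_comm, div_le_iff₀ hTR]
      calc ∑ s : Fin T, ∑ g, (if g ∈ aN r (ψ [s]) ∩ U then w g else 0)
          = ∑ s : Fin T, ∑ g ∈ aN r (ψ [s]) ∩ U, w g := by
            refine sum_congr rfl fun s _ => ?_
            rw [sum_ite_mem, univ_inter]
        _ ≤ ∑ s : Fin T, (1 / (2 * m) : ℝ) * ∑ g, w g := sum_le_sum fun s _ => hS s
        _ = (1 / (2 * m) : ℝ) * (∑ g, w g) * T := by
            rw [sum_const, card_univ, Fintype.card_fin, nsmul_eq_mul]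
            ring
    obtain ⟨o, ho⟩ := h₃ V Act le_rfl val hv0 hv1 hmain T hT2
    let φ : List (Fin T) → V := fun l =>
      if h : l = [] then (o ⟨0, hTpos⟩).1.1
      else if l.dropLast = [] then (o (l.getLast h)).1.1 else (o (l.getLast h)).1.2 l.dropLast
    have hφ1 : ∀ s, φ [s] = (o s).1.1 := by
      intro s
      show (if h : [s] = [] then _ else _) = _
      rw [dif_neg (List.cons_ne_nil _ _)]
      simp
    have hφ2 : ∀ (l : List (Fin T)) (s : Fin T), l ≠ [] → φ (l ++ [s]) = (o s).1.2 l := by
      intro l s hl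
      show (if h : l ++ [s] = [] then _ else _) = _
      rw [dif_neg (by simp)]
      simp [hl]
    have hφ3 : ∀ (l : List (Fin T)) (s s' : Fin T), φ (s' :: (l ++ [s])) = (o s).1.2 (s' :: l) := by
      intro l s s'
      rw [← List.cons_append]
      exact hφ2 _ _ (List.cons_ne_nil _ _)
    have hφ4 : ∀ (l : List (Fin T)) (s s' s'' : Fin T),
        φ (s'' :: s' :: (l ++ [s])) = (o s).1.2 (s'' :: s' :: l) := by
      intro l s s' s''
      rw [← List.cons_append, ← List.cons_append]
      exact hφ2 _ _ (List.cons_ne_nil _ _)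
    refine ⟨φ, ?_, ?_, ?_, ?_, ?_⟩
    · intro s
      rw [hφ1]
      exact (o s).2.1
    · intro s' l hl1 hl2
      rcases List.eq_nil_or_concat l with rfl | ⟨l', s, rfl⟩
      · simp at hl1
      · rw [List.concat_eq_append] at *
        rw [List.length_append, List.length_singleton] at hl1 hl2
        rw [hφ3]
        rcases l' with _ | ⟨t, l'⟩
        · rw [List.nil_append, hφ1]
          exact (o s).2.2.base s'
        · rw [hφ2 _ _ (List.cons_ne_nil _ _)]
          exact (o s).2.2.edge s' _ (by simp) (by omega)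
    · intro l hl g hgU
      rcases List.eq_nil_or_concat l with rfl | ⟨l', s, rfl⟩
      · have h5 : ∀ p : Fin T × Fin T, φ [p.2, p.1] = (o p.1).1.2 [p.2] := fun p => hφ3 [] p.1 p.2
        have h6 : ((univ.filter (fun p : Fin T × Fin T => φ [p.2, p.1] ∈ aN r g)).card : ℝ) =
            T * ∑ s, val (o s) g := by
          rw [mul_sum]
          have h7 : ∀ s, (T : ℝ) * val (o s) g =
              ∑ s' : Fin T, if (o s).1.2 [s'] ∈ aN r g then (1 : ℝ) else 0 := by
            intro s
            rw [hval, if_pos hgU, mul_div_cancel₀ _ hTR.ne', sum_boole]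
          rw [sum_congr rfl fun s _ => h7 s, ← sum_boole, Fintype.sum_prod_type]
          refine sum_congr rfl fun s _ => sum_congr rfl fun s' _ => ?_
          rw [h5]
        have h8 := ho g
        have h9 : (m : ℝ) * ((univ.filter (fun p : Fin T × Fin T =>
            φ (p.2 :: p.1 :: []) ∈ aN r g)).card : ℝ) ≤ T * T := by
          rw [h6]
          have h10 : (2 : ℝ) * (1 / (2 * m)) * T = T / m := by
            field_simp
          rw [h10] at h8
          calc (m : ℝ) * (T * ∑ s, val (o s) g) ≤ m * (T * (T / m)) := by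
                refine mul_le_mul_of_nonneg_left ?_ hmR.le
                exact mul_le_mul_of_nonneg_left h8 hTR.le
            _ = T * T := by
                field_simp
        exact_mod_cast h9
      · rw [List.concat_eq_append] at *
        rw [List.length_append, List.length_singleton] at hl
        have h5 : ∀ p : Fin T × Fin T, φ (p.2 :: p.1 :: (l' ++ [s])) =
            (o s).1.2 (p.2 :: p.1 :: l') := fun p => hφ4 l' s p.1 p.2
        have h6 : (univ.filter (fun p : Fin T × Fin T => φ (p.2 :: p.1 :: (l' ++ [s])) ∈ aN r g)) =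
            univ.filter (fun p : Fin T × Fin T => (o s).1.2 (p.2 :: p.1 :: l') ∈ aN r g) := by
          refine filter_congr fun p _ => ?_
          rw [h5]
        rw [h6]
        exact (o s).2.2.pair l' (by omega) g hgU
    · intro l hl g
      rcases List.eq_nil_or_concat l with rfl | ⟨l', s, rfl⟩
      · simp at hl
      · rw [List.concat_eq_append] at *
        rw [List.length_append, List.length_singleton] at hl
        have h6 : (univ.filter (fun s' : Fin T => φ (s' :: (l' ++ [s])) = g)) =
            univ.filter (fun s' : Fin T => (o s).1.2 (s' :: l') = g) := by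
          refine filter_congr fun p _ => ?_
          rw [hφ3]
        rw [h6]
        exact (o s).2.2.last l' (by omega) g
    · intro l hl
      rcases List.eq_nil_or_concat l with rfl | ⟨l', s, rfl⟩
      · simp at hl
      · rw [List.concat_eq_append] at *
        rw [List.length_append, List.length_singleton] at hl
        have h6 : (univ.image (fun s' : Fin T => φ (s' :: (l' ++ [s])))) =
            univ.image (fun s' : Fin T => (o s).1.2 (s' :: l')) := by
          refine image_congr fun p _ => ?_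
          exact hφ3 _ _ _
        rw [h6]
        exact (o s).2.2.few l' (by omega)

end Pool.Agent.Lib.MP_b0c2b5_co.R3
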