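import Pool.Agent.Lib.MP_b0c2b5_co.Mg.G001

/-!
# R3, RkB: elementary properties of the rank

All by induction on `q` (generalizing the sets). `Rk.anti`: `q = 0`: `Scl.mono`. `q + 1`: let `G` with `|G| ≤ k` cover for the constant `k` (all `f` with `Rk P A q k (Z ∩ A f)` have `P k (A f \ G.biUnion A)`); for the constant `l ≥ k` the same `G` covers (`Rk P A q l (Z ∩ A f)` implies `Rk P A q k (Z ∩ A f)` by induction).
`Rk.mono`: clear. `Rk.small`: `q = 0` clear; `q + 1`: `Z ∩ A f ⊆ Z` is small, so no `f` has `Rk P A q k (Z ∩ A f)`, `G = ∅` covers.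
`Rk.add`: `q = 0`: if `P k (Z i)` for all `i ∈ s` then `P (s.card * k) (s.biUnion Z)` (induction on `s` with `Scl.union`, `Scl.emp`), so `P (m * k) ..` by `Scl.mono`. `q + 1`: suppose for every `i ∈ s` there is `G i`, `|G i| ≤ k`, which covers all `f` with `Rk P A q k (Z i ∩ A f)`. Let `G = s.biUnion G`, at most `m * k` elements.
Let `f` have `Rk P A q (m * k) ((s.biUnion Z) ∩ A f)`; `(s.biUnion Z) ∩ A f = s.biUnion (fun i => Z i ∩ A f)`, so by induction `Rk P A q k (Z i ∩ A f)` for some `i ∈ s`, hence `P k (A f \ (G i).biUnion A)` and `P (m * k) (A f \ G.biUnion A)` (`m ≥ 1` because `s` is nonempty). So `G` covers: contradiction.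
`Rk.addn`: `W` is contained in the union of the `Z i`, `i ∈ s`, and one more set `N` with `P k N`: apply `Rk.mono` and `Rk.add` to the index set `Option ι` (`insertNone s`, `m + 1`), `Rk.small` excludes `none`.
-/

set_option autoImplicit false

namespace Pool.Agent.Lib.MP_b0c2b5_co.R3

open Finset
open scoped Classical

universe u v w

variable {X : Type u} {F : Type v} {P : ℕ → Finset X → Prop} {A : F → Finset X}

theorem Rk.anti (hP : Scl P) {q k l : ℕ} {Z : Finset X} (hkl : k ≤ l) (h : Rk P A q l Z) : Rk P A q k Z := by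
  induction q generalizing Z with
  | zero => exact fun h1 => h (hP.mono k l Z Z hkl (Subset.refl _) h1)
  | succ q ih =>
    rintro ⟨G, hG, hf⟩
    exact h ⟨G, hG.trans hkl, fun f hf' => hP.mono k l _ _ hkl (Subset.refl _) (hf f (ih hf'))⟩

theorem Rk.mono (hP : Scl P) {q k : ℕ} {Z Z' : Finset X} (hZ : Z ⊆ Z') (h : Rk P A q k Z) : Rk P A q k Z' := by
  induction q generalizing Z Z' with
  | zero => exact fun h1 => h (hP.mono k k Z' Z le_rfl hZ h1)
  | succ q ih =>
    rintro ⟨G, hG, hf⟩
    exact h ⟨G, hG, fun f hf' => hf f (ih (inter_subset_inter hZ (Subset.refl _)) hf')⟩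

theorem Rk.small (hP : Scl P) {q k : ℕ} {Z : Finset X} (h : P k Z) : ¬ Rk P A q k Z := by
  induction q generalizing Z with
  | zero => exact fun h1 => h1 h
  | succ q ih =>
    intro h1
    exact h1 ⟨∅, by simp, fun f hf => (ih (hP.mono k k Z _ le_rfl inter_subset_left h) hf).elim⟩

private theorem RkB_un (hP : Scl P) {ι : Type w} {k : ℕ} (s : Finset ι) (Z : ι → Finset X)
    (h : ∀ i ∈ s, P k (Z i)) : P (s.card * k) (s.biUnion Z) := by
  induction s using Finset.induction_on with
  | empty => simpa using hP.emp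
  | insert i s hi ih =>
    rw [card_insert_of_notMem hi, biUnion_insert, add_mul, one_mul, add_comm]
    exact hP.union _ _ _ _ (h i (mem_insert_self i s)) (ih fun j hj => h j (mem_insert_of_mem hj))

theorem Rk.add (hP : Scl P) {ι : Type w} {q k m : ℕ} (s : Finset ι) (hs : s.card ≤ m) (Z : ι → Finset X)
    (h : Rk P A q (m * k) (s.biUnion Z)) : ∃ i ∈ s, Rk P A q k (Z i) := by
  induction q generalizing Z with
  | zero =>
    by_contra h0
    push Not at h0
    refine h (hP.mono _ _ _ _ (Nat.mul_le_mul_right k hs) (Subset.refl _) (RkB_un hP s Z fun i hi => ?_))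
    exact not_not.1 (h0 i hi)
  | succ q ih =>
    by_contra h0
    push Not at h0
    have h1 : ∀ i, ∃ G : Finset F, i ∈ s → G.card ≤ k ∧
        ∀ f, Rk P A q k (Z i ∩ A f) → P k (A f \ G.biUnion A) := by
      intro i
      by_cases hi : i ∈ s
      · obtain ⟨G, hG⟩ := not_not.1 (h0 i hi)
        exact ⟨G, fun _ => hG⟩
      · exact ⟨∅, fun h2 => (hi h2).elim⟩
    choose G hG using h1
    refine h ⟨s.biUnion G, ?_, fun f hf => ?_⟩
    · calc (s.biUnion G).card ≤ s.card * k := card_biUnion_le_card_mul _ _ _ fun i hi => (hG i hi).1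
        _ ≤ m * k := Nat.mul_le_mul_right k hs
    · rw [biUnion_inter] at hf
      obtain ⟨i, hi, h2⟩ := ih (fun i => Z i ∩ A f) hf
      have hm : 1 ≤ m := (card_pos.2 ⟨i, hi⟩).trans_le hs
      refine hP.mono k (m * k) _ _ (Nat.le_mul_of_pos_left k hm) ?_ ((hG i hi).2 f h2)
      exact sdiff_subset_sdiff (Subset.refl _) (biUnion_subset_biUnion_of_subset_left A
        (subset_biUnion_of_mem G hi))

theorem Rk.addn (hP : Scl P) {ι : Type w} {q k m : ℕ} (s : Finset ι) (hs : s.card ≤ m) (Z : ι → Finset X)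
    (W N : Finset X) (hW : W ⊆ s.biUnion Z ∪ N) (hN : P k N)
    (h : Rk P A q ((m + 1) * k) W) : ∃ i ∈ s, Rk P A q k (Z i) := by
  have h1 : W ⊆ (insertNone s).biUnion (fun o : Option ι => o.elim N Z) := by
    intro x hx
    rw [mem_biUnion]
    rcases mem_union.1 (hW hx) with h2 | h2
    · obtain ⟨i, hi, hx'⟩ := mem_biUnion.1 h2
      exact ⟨some i, some_mem_insertNone.2 hi, hx'⟩
    · exact ⟨none, none_mem_insertNone, h2⟩
  have h2 : (insertNone s).card ≤ m + 1 := by
    rw [card_insertNone]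
    omega
  obtain ⟨o, ho, h3⟩ := Rk.add hP (insertNone s) h2 (fun o : Option ι => o.elim N Z) (Rk.mono hP h1 h)
  cases o with
  | none => exact (Rk.small hP hN h3).elim
  | some i => exact ⟨i, some_mem_insertNone.1 ho, h3⟩

end Pool.Agent.Lib.MP_b0c2b5_co.R3
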