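import Pool.Agent.Lib.MP_b0c2b5_co.R3.Ob

/-!
# R3, Wit: finite witnesses for `Sm r U 1`

PROOF. `m := 4 * k + 4`, `w` := the `k` of `obj_exists a b m _ 1`. `a1 := a * (m + 1) + 2`, `b1 := (b + 1) * k`. `q := ` the constant of `epsnet a1 b1 2`. Let `¬ Sm r U 1 w B`, `T` = a positive multiple of `m`, `T ≥ T0`, and `φ` an object of depth 2 on `B`: `φ [s] ∈ B`, `φ [s', s] ∈ aN r (φ [s]) ∩ U`, for `g ∈ U`:
`m * #{(s,s') : φ [s', s] ∈ aN r g} ≤ T * T`, for every `s`, `g`: `m * #{s' : φ [s', s] = g} ≤ T`; the set `o s := {φ [s', s] : s'}` has at most `m` elements.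
For `D ⊆ U`, `|D| ≤ k` let `S D := {s : k < |o s \ D.biUnion (aN r)|}`. If `s ∉ S D` then at most `k` values of the list `φ [., s]` are outside `D.biUnion (aN r)`, each occurs at most `T / m` times, so at least `T - k T / m ≥ T / 2` of the `s'` have `φ [s', s] ∈ D.biUnion (aN r)`. The number of pairs with `φ [s', s] ∈ D.biUnion (aN r)` is at most `k T^2 / m`,
so the number of `s ∉ S D` is at most `2 k T / m ≤ T / 2`, and `T ≤ 2 * |S D|`.
TRACES: index type `ι := {D : Finset V // D ⊆ U ∧ D.card ≤ k}`, `Y := Fin T` (lifted to the right universe with `ULift` if necessary). For `X ⊆ Fin T` let `O := ⋃_{s ∈ X} o s`, at most `m |X|` elements. `X ∩ S D` is determined by `O ∩ D.biUnion (aN r)`, which is a union of at most `k` of the traces `O ∩ aN r g`; there are at most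
`N := (a (m |X| + 1))^b` traces, so at most `(N + 1) ^ k` such unions (functions `Fin k → Option (trace)`), and `N + 1 ≤ (a1 (|X|+1))^(b+1)`: with `y = |X| + 1`: `N ≤ (a (m+1) y)^b` and `((a(m+1)+2) y)^(b+1) ≥ 2 ((a(m+1)+2) y)^b ≥ (a (m+1) y)^b + 1`. So `Trc S a1 b1`. `epsnet` with the weight `1`: a set `E ⊆ Fin T` with at most `q` elements which
meets every `S D`. `Y := {φ [s] : s ∈ E} ⊆ B`. `¬ Sm r U 1 k Y`: for `D ⊆ U`, `|D| ≤ k` let `s ∈ E ∩ S D`; then `o s \ D.biUnion (aN r) ⊆ (aN r (φ [s]) ∩ U) \ D.biUnion (aN r)` has more than `k` elements.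
-/

set_option autoImplicit false

namespace Pool.Agent.Lib.MP_b0c2b5_co.R3

open Finset LS
open scoped Classical

universe u

/-- arithmetic for the number of traces -/
private theorem Wit_arith (a b k m x N : ℕ) (hN : N ≤ (a * (m * x + 1)) ^ b) :
    (N + 1) ^ k ≤ ((a * (m + 1) + 2) * (x + 1)) ^ ((b + 1) * k) := by
  rw [pow_mul]
  refine Nat.pow_le_pow_left ?_ k
  set c : ℕ := (a * (m + 1) + 2) * (x + 1) with hc
  have h1 : a * (m * x + 1) ≤ c := by
    rw [hc]
    nlinarith [Nat.zero_le (a * m), Nat.zero_le (a * x), Nat.zero_le a, Nat.zero_le x, Nat.zero_le (a * m * x)]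
  have h2 : 2 ≤ c := by
    rw [hc]
    nlinarith [Nat.zero_le (a * (m + 1)), Nat.zero_le x, Nat.zero_le (a * (m + 1) * x)]
  have h3 : N ≤ c ^ b := hN.trans (Nat.pow_le_pow_left h1 b)
  have h4 : 1 ≤ c ^ b := Nat.one_le_pow _ _ (by omega)
  calc N + 1 ≤ c ^ b + c ^ b := by omega
    _ = 2 * c ^ b := by ring
    _ ≤ c * c ^ b := Nat.mul_le_mul_right _ h2
    _ = c ^ (b + 1) := by ring

/-- unions of at most `k` traces -/
private theorem Wit_union {V : Type u} [Fintype V] (A : V → Finset V) (O D : Finset V) (k : ℕ) (hD : D.card ≤ k) :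
    ∃ F ∈ Fintype.piFinset (fun _ : Fin k => insert ∅ (univ.image fun g => O ∩ A g)),
      (univ : Finset (Fin k)).biUnion F = O ∩ D.biUnion A := by
  refine ⟨fun j => if h : j.val < D.card then O ∩ A (D.equivFin.symm ⟨j.val, h⟩).1 else ∅, ?_, ?_⟩
  · rw [Fintype.mem_piFinset]
    intro j
    by_cases h : j.val < D.card
    · simp only [h, dif_pos]
      exact mem_insert_of_mem (mem_image_of_mem _ (mem_univ _))
    · simp only [h, dif_neg, not_false_eq_true]
      exact mem_insert_self _ _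
  · ext x
    simp only [mem_biUnion, mem_univ, true_and, mem_inter]
    constructor
    · rintro ⟨j, hj⟩
      by_cases h : j.val < D.card
      · rw [dif_pos h, mem_inter] at hj
        exact ⟨hj.1, _, (D.equivFin.symm ⟨j.val, h⟩).2, hj.2⟩
      · rw [dif_neg h] at hj
        exact absurd hj (notMem_empty x)
    · rintro ⟨hx, g, hg, hxg⟩
      have hlt := (D.equivFin ⟨g, hg⟩).isLt
      refine ⟨⟨(D.equivFin ⟨g, hg⟩).val, lt_of_lt_of_le hlt hD⟩, ?_⟩
      rw [dif_pos hlt, mem_inter]
      refine ⟨hx, ?_⟩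
      have : D.equivFin.symm ⟨(D.equivFin ⟨g, hg⟩).val, hlt⟩ = ⟨g, hg⟩ := by
        rw [Fin.eta, Equiv.symm_apply_apply]
      rw [this]
      exact hxg

/-- the traces of the family `D ↦ {s : k < |o s \ D.biUnion A|}` -/
private theorem Wit_trc {V : Type u} [Fintype V] (A : V → Finset V) (a b k m T : ℕ) (hA : Trc A a b)
    (o : Fin T → Finset V) (ho : ∀ s, (o s).card ≤ m) (ι : Type u) (Df : ι → Finset V)
    (hDf : ∀ i, (Df i).card ≤ k) :
    Trc (fun i => (univ : Finset (Fin T)).filter (fun s => k < (o s \ (Df i).biUnion A).card))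
      (a * (m + 1) + 2) ((b + 1) * k) := by
  intro X
  set O : Finset V := X.biUnion o with hO
  have hOc : O.card ≤ m * X.card := by
    rw [hO, mul_comm]
    exact card_biUnion_le_card_mul X o m fun s _ => ho s
  set TT : Finset (Finset V) := univ.image fun g => O ∩ A g with hTT
  have hN : TT.card ≤ (a * (m * X.card + 1)) ^ b := by
    have h1 := hA O
    have h2 : Set.range (fun g => O ∩ A g) = (TT : Set (Finset V)) := by
      rw [hTT, coe_image, coe_univ, Set.image_univ]
    rw [h2, Set.ncard_coe_finset] at h1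
    refine h1.trans (Nat.pow_le_pow_left ?_ b)
    exact Nat.mul_le_mul_left a (by omega)
  set PP := Fintype.piFinset (fun _ : Fin k => insert ∅ TT) with hPP
  have hPc : PP.card ≤ (TT.card + 1) ^ k := by
    rw [hPP, Fintype.card_piFinset, prod_const, card_univ, Fintype.card_fin]
    exact Nat.pow_le_pow_left (card_insert_le _ _) k
  have hfin : ∀ W : Set (Finset (Fin T)), W ⊆
      ((PP.image fun F : Fin k → Finset V => X.filter
        (fun s => k < (o s \ (univ : Finset (Fin k)).biUnion F).card) : Finset (Finset (Fin T))) :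
          Set (Finset (Fin T))) → W.ncard ≤ ((a * (m + 1) + 2) * (X.card + 1)) ^ ((b + 1) * k) := by
    intro W hW
    calc W.ncard
        ≤ Set.ncard ((PP.image fun F : Fin k → Finset V => X.filter
          (fun s => k < (o s \ (univ : Finset (Fin k)).biUnion F).card) : Finset (Finset (Fin T))) :
            Set (Finset (Fin T))) := Set.ncard_le_ncard hW (Finset.finite_toSet _)
      _ = (PP.image fun F : Fin k → Finset V => X.filter
          (fun s => k < (o s \ (univ : Finset (Fin k)).biUnion F).card)).card := Set.ncard_coe_finset _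
      _ ≤ PP.card := card_image_le
      _ ≤ (TT.card + 1) ^ k := hPc
      _ ≤ ((a * (m + 1) + 2) * (X.card + 1)) ^ ((b + 1) * k) := Wit_arith a b k m X.card TT.card hN
  refine hfin _ ?_
  rintro _ ⟨i, rfl⟩
  obtain ⟨F, hF, hFe⟩ := Wit_union A O (Df i) k (hDf i)
  rw [mem_coe, mem_image]
  refine ⟨F, hF, ?_⟩
  ext s
  simp only [mem_filter, mem_inter, mem_univ, true_and]
  refine and_congr_right fun hs => ?_
  have : o s \ (univ : Finset (Fin k)).biUnion F = o s \ (Df i).biUnion A := by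
    rw [hFe]
    ext x
    simp only [mem_sdiff, mem_inter, not_and]
    constructor
    · rintro ⟨h1, h2⟩
      exact ⟨h1, h2 (mem_biUnion.2 ⟨s, hs, h1⟩)⟩
    · rintro ⟨h1, h2⟩
      exact ⟨h1, fun _ => h2⟩
  rw [this]

/-- at least half of the `s` are in `S D` -/
private theorem Wit_half {V : Type u} [Fintype V] (A : V → Finset V) (U D : Finset V) (k T : ℕ) (hT : 0 < T)
    (f : Fin T → Fin T → V) (hDU : D ⊆ U) (hD : D.card ≤ k)
    (hpair : ∀ g ∈ U, (4 * k + 4) * (univ.filter (fun p : Fin T × Fin T => f p.1 p.2 ∈ A g)).card ≤ T * T)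
    (hlast : ∀ s, ∀ g, (4 * k + 4) * (univ.filter (fun t : Fin T => f s t = g)).card ≤ T) :
    T ≤ 2 * ((univ : Finset (Fin T)).filter
      (fun s => k < ((univ.image (f s)) \ D.biUnion A).card)).card := by
  set m : ℕ := 4 * k + 4 with hm
  set bad : Finset (Fin T) := (univ : Finset (Fin T)).filter
      (fun s => ¬ k < ((univ.image (f s)) \ D.biUnion A).card) with hbad
  have hsplit : ((univ : Finset (Fin T)).filter
      (fun s => k < ((univ.image (f s)) \ D.biUnion A).card)).card + bad.card = T := by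
    rw [hbad, card_filter_add_card_filter_not, card_univ, Fintype.card_fin]
  -- for a bad `s` most of the `t` are in the union
  have h1 : ∀ s ∈ bad, (3 * k + 4) * T ≤ m * (univ.filter (fun t : Fin T => f s t ∈ D.biUnion A)).card := by
    intro s hs
    rw [hbad, mem_filter] at hs
    have hk : ((univ.image (f s)) \ D.biUnion A).card ≤ k := not_lt.1 hs.2
    have h2 : (univ.filter (fun t : Fin T => ¬ f s t ∈ D.biUnion A)) ⊆
        ((univ.image (f s)) \ D.biUnion A).biUnion (fun g => univ.filter (fun t : Fin T => f s t = g)) := by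
      intro t ht
      rw [mem_filter] at ht
      rw [mem_biUnion]
      exact ⟨f s t, mem_sdiff.2 ⟨mem_image_of_mem _ (mem_univ t), ht.2⟩, mem_filter.2 ⟨mem_univ _, rfl⟩⟩
    have h3 : m * (univ.filter (fun t : Fin T => ¬ f s t ∈ D.biUnion A)).card ≤ k * T := by
      calc m * (univ.filter (fun t : Fin T => ¬ f s t ∈ D.biUnion A)).card
          ≤ m * ∑ g ∈ (univ.image (f s)) \ D.biUnion A,
              (univ.filter (fun t : Fin T => f s t = g)).card :=
            Nat.mul_le_mul_left m ((card_le_card h2).trans card_biUnion_le)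
        _ = ∑ g ∈ (univ.image (f s)) \ D.biUnion A,
              m * (univ.filter (fun t : Fin T => f s t = g)).card := by rw [mul_sum]
        _ ≤ ∑ g ∈ (univ.image (f s)) \ D.biUnion A, T := sum_le_sum fun g _ => hlast s g
        _ = ((univ.image (f s)) \ D.biUnion A).card * T := by rw [sum_const, smul_eq_mul]
        _ ≤ k * T := Nat.mul_le_mul_right T hk
    have h4 : (univ.filter (fun t : Fin T => f s t ∈ D.biUnion A)).card +
        (univ.filter (fun t : Fin T => ¬ f s t ∈ D.biUnion A)).card = T := by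
      rw [card_filter_add_card_filter_not, card_univ, Fintype.card_fin]
    have h5 : m * T = m * (univ.filter (fun t : Fin T => f s t ∈ D.biUnion A)).card +
        m * (univ.filter (fun t : Fin T => ¬ f s t ∈ D.biUnion A)).card := by
      rw [← mul_add, h4]
    have h6 : m * T = (3 * k + 4) * T + k * T := by rw [hm]; ring
    omega
  -- the pairs
  have h2 : (univ.filter (fun p : Fin T × Fin T => f p.1 p.2 ∈ D.biUnion A)).card =
      ∑ s, (univ.filter (fun t : Fin T => f s t ∈ D.biUnion A)).card := by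
    simp only [card_filter]
    rw [Fintype.sum_prod_type]
  have h3 : m * (univ.filter (fun p : Fin T × Fin T => f p.1 p.2 ∈ D.biUnion A)).card ≤ k * (T * T) := by
    have h4 : (univ.filter (fun p : Fin T × Fin T => f p.1 p.2 ∈ D.biUnion A)) ⊆
        D.biUnion (fun g => univ.filter (fun p : Fin T × Fin T => f p.1 p.2 ∈ A g)) := by
      intro p hp
      rw [mem_filter, mem_biUnion] at hp
      obtain ⟨_, g, hg, hpg⟩ := hp
      exact mem_biUnion.2 ⟨g, hg, mem_filter.2 ⟨mem_univ _, hpg⟩⟩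
    calc m * (univ.filter (fun p : Fin T × Fin T => f p.1 p.2 ∈ D.biUnion A)).card
        ≤ m * ∑ g ∈ D, (univ.filter (fun p : Fin T × Fin T => f p.1 p.2 ∈ A g)).card :=
          Nat.mul_le_mul_left m ((card_le_card h4).trans card_biUnion_le)
      _ = ∑ g ∈ D, m * (univ.filter (fun p : Fin T × Fin T => f p.1 p.2 ∈ A g)).card := by rw [mul_sum]
      _ ≤ ∑ g ∈ D, T * T := sum_le_sum fun g hg => hpair g (hDU hg)
      _ = D.card * (T * T) := by rw [sum_const, smul_eq_mul]
      _ ≤ k * (T * T) := Nat.mul_le_mul_right _ hD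
  have h4 : bad.card * ((3 * k + 4) * T) ≤ k * (T * T) := by
    calc bad.card * ((3 * k + 4) * T) = ∑ s ∈ bad, (3 * k + 4) * T := by rw [sum_const, smul_eq_mul]
      _ ≤ ∑ s ∈ bad, m * (univ.filter (fun t : Fin T => f s t ∈ D.biUnion A)).card := sum_le_sum h1
      _ ≤ ∑ s, m * (univ.filter (fun t : Fin T => f s t ∈ D.biUnion A)).card :=
          sum_le_sum_of_subset (subset_univ _)
      _ = m * (univ.filter (fun p : Fin T × Fin T => f p.1 p.2 ∈ D.biUnion A)).card := by
          rw [h2, mul_sum]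
      _ ≤ k * (T * T) := h3
  have h5 : bad.card * (3 * k + 4) ≤ k * T := by
    refine Nat.le_of_mul_le_mul_right ?_ hT
    calc bad.card * (3 * k + 4) * T = bad.card * ((3 * k + 4) * T) := by ring
      _ ≤ k * (T * T) := h4
      _ = k * T * T := by ring
  have h6 : 2 * bad.card ≤ T := by
    refine Nat.le_of_mul_le_mul_right (c := 3 * k + 4) ?_ (by omega)
    calc 2 * bad.card * (3 * k + 4) = 2 * (bad.card * (3 * k + 4)) := by ring
      _ ≤ 2 * (k * T) := Nat.mul_le_mul_left 2 h5
      _ ≤ T * (3 * k + 4) := by nlinarith [Nat.zero_le (k * T), Nat.zero_le T]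
  omega

theorem wit (a b k : ℕ) : ∃ w q : ℕ, ∀ (V : Type u) [Fintype V] (r : V → V → Prop), Trc (aN r) a b →
    ∀ U B : Finset V, ¬ Sm r U 1 w B → ∃ Y ⊆ B, Y.card ≤ q ∧ ¬ Sm r U 1 k Y := by
  obtain ⟨w, hw⟩ := obj_exists.{u} a b (4 * k + 4) (by omega) 1
  obtain ⟨q, hq⟩ := epsnet.{0, u} (a * (4 * k + 4 + 1) + 2) ((b + 1) * k) 2 (by norm_num)
  refine ⟨w, q, ?_⟩
  intro V _ r hA U B hB
  obtain ⟨T0, hT0⟩ := hw V r hA U
  set T : ℕ := (4 * k + 4) * (T0 + 1) with hT
  have hTpos : 0 < T := by positivity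
  have hTge : T ≥ T0 := by
    rw [hT]
    nlinarith [Nat.zero_le (k * T0), Nat.zero_le T0, Nat.zero_le k]
  obtain ⟨φ, hφ⟩ := hT0 B hB T hTge ⟨T0 + 1, rfl⟩
  set o : Fin T → Finset V := fun s => univ.image (fun t => φ [t, s]) with ho
  have hoc : ∀ s, (o s).card ≤ 4 * k + 4 := fun s => hφ.few [s] rfl
  have htrc := Wit_trc (aN r) a b k (4 * k + 4) T hA o hoc {D : Finset V // D ⊆ U ∧ D.card ≤ k}
    (fun D => D.1) (fun D => D.2.2)
  obtain ⟨E, hE, hE2⟩ := hq (Fin T) {D : Finset V // D ⊆ U ∧ D.card ≤ k} _ htrc (fun _ => 1)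
    (fun _ => zero_le_one)
  refine ⟨E.image (fun s => φ [s]), ?_, card_image_le.trans hE, ?_⟩
  · intro v hv
    obtain ⟨s, _, rfl⟩ := mem_image.1 hv
    exact hφ.base s
  · rintro ⟨D, hDU, hD, hall⟩
    have hhalf := Wit_half (aN r) U D k T hTpos (fun s t => φ [t, s]) hDU hD
      (fun g hg => hφ.pair [] (by simp) g hg) (fun s g => hφ.last [s] rfl g)
    have h1 := hE2 ⟨D, hDU, hD⟩
    simp only [sum_const, nsmul_eq_mul, mul_one, card_univ, Fintype.card_fin] at h1
    have h2 : 0 < ((univ : Finset (Fin T)).filter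
        (fun s => k < (o s \ D.biUnion (aN r)).card)).card := by
      have : T ≤ 2 * ((univ : Finset (Fin T)).filter
        (fun s => k < (o s \ D.biUnion (aN r)).card)).card := hhalf
      omega
    obtain ⟨s, hsE, hsS⟩ := h1 (by exact_mod_cast h2) (by exact_mod_cast hhalf)
    rw [mem_filter] at hsS
    have h3 : ((aN r (φ [s]) ∩ U) \ D.biUnion (aN r)).card ≤ k :=
      hall (φ [s]) (mem_image_of_mem _ hsE)
    have h4 : o s \ D.biUnion (aN r) ⊆ (aN r (φ [s]) ∩ U) \ D.biUnion (aN r) := by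
      refine sdiff_subset_sdiff ?_ (Finset.Subset.refl _)
      intro x hx
      obtain ⟨t, _, rfl⟩ := mem_image.1 hx
      exact hφ.edge t [s] (by simp) (by simp)
    exact absurd (lt_of_lt_of_le hsS.2 (card_le_card h4)) (not_lt.2 h3)

theorem fw_sm (a b : ℕ) : ∃ w q : ℕ → ℕ, ∀ (V : Type u) [Fintype V] (r : V → V → Prop), Trc (aN r) a b →
    ∀ U : Finset V, FW (Sm r U 1) w q := by
  choose w q h using wit.{u} a b
  exact ⟨w, q, fun V _ r hA U k B hB => h k V r hA U B hB⟩

end Pool.Agent.Lib.MP_b0c2b5_co.R3
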