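import Pool.Agent.Lib.MP_b0c2b5_co.R3.Net
import Pool.Agent.Lib.MP_b0c2b5_co.R3.Wit
import Pool.Agent.Lib.MP_b0c2b5_co.R3.LK
import Pool.Agent.Lib.MP_b0c2b5_co.R3.LabL

/-!
# R3, StC: stage 1, condition (C)

PROOF. `C0` from `lemK 2 t a b`; `w, q` from `fw_sm a b`; `M` from `net C0 C0 w q`; `c1 := max M (C0 * M)` (size of the lists below, also of `Φ`), `C1` from `label c1`, `K := M + M * (C0 + C0 * M)` (or larger), `Q := (C1 * C1) + 1` (or `C1 * C1` and one more class).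
Let `U` be given. `X := V`, `F := V`, `P := Sm r U 1` (`scl_sm`), `A f := aN r f ∩ U` if `f ∈ U`, and `∅` otherwise, `Ub f := ∅`. `star`: let `x : V`. If `x ∈ U`: `lemK` gives `D x ⊆ U`, `|D x| ≤ C0`, `Sm r U 1 C0 ((aN r v ∩ U) \ (D x).biUnion (aN r))` for all `v ∈ aN r x ∩ U`; `W := D x`: if `x ∈ A f` then `f ∈ U`, `f ∈ aN r x`,
and `A f \ W.biUnion A = (aN r f ∩ U) \ (D x).biUnion (aN r)`. If `x ∉ U` then `x` is in no `A f`. `net` gives `H, Th`; replace them by `H ∩ U`, `Th f ∩ U` (the sets `A f`, `f ∉ U`, are empty). So: `Th u ⊆ H ⊆ U`, `|Th u| ≤ M`, `Sm r U 1 M ((aN r u ∩ U) \ (Th u).biUnion (aN r))` for `u ∈ U`; `L v := H ∩ aN r v` has at most `M` elements for `v ∈ U`.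
`Φ h := (D h).biUnion Th` (for `h ∈ U`, otherwise `∅`), at most `C0 * M` elements. `Ex u := {v ∈ aN r u ∩ U : Disjoint (Th u) (L v) ∨ ∃ h ∈ L u, Disjoint (Φ h) (L v)}` for `u ∈ U`. CLAIM: `Sm r U 1 K (Ex u)`: `{v ∈ aN r u ∩ U : Disjoint (Th u) (L v)} ⊆ (aN r u ∩ U) \ (Th u).biUnion (aN r)` (if `v ∈ aN r g`, `g ∈ Th u ⊆ H`, then `g ∈ L v`);
for `h ∈ L u`: `u ∈ aN r h`, so `(aN r u ∩ U) \ (D h).biUnion (aN r)` is small with constant `C0`, and `v ∈ aN r g`, `g ∈ D h`, is in `aN r g ∩ U`, so up to a set which is small with constant `M` it is in `aN r h'` for an `h' ∈ Th g ⊆ Φ h`, `h' ∈ L v`. Sum up (`Scl.union`; a finite union over `h ∈ L u`, `g ∈ D h`).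
COLOURING. `Y := {u ∈ U : (L u).Nonempty}`. `E1 u v := r u v ∧ v ∉ Ex u`, `E2 u v := r v u ∧ v ∉ Ex u`. `label` for `r` and `E1` on `Y` (`B h = {h}`, `u ∈ aN r h`; `v ∉ Ex u` gives `¬ Disjoint (Φ h) (L v)` for all `h ∈ L u`), and `label` for `rev r`, `rev lt` and `E2` (`aN (rev r) = aN r` up to `or_comm`). So there are `f1, f2 : V → ℕ`, values `< C1` on `Y`, proper for `E1`,
`E2` on `Y`. `f v := f1 v * C1 + f2 v` for `v ∈ Y`, `f v := C1 * C1` for `v ∈ U \ Y`. Let `u, v ∈ U` be adjacent with `f u = f v`; then `v ∈ Ex u`: if `u, v ∈ Y`: otherwise `E1 u v` or `E2 u v`, and the colours differ (`C1 > 0` because `Y` is nonempty). If both are not in `Y`: `L v = ∅`, so `Disjoint (Th u) (L v)`.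
So `{v ∈ U : v ∈ aN r u, f v = f u} ⊆ Ex u`, and `Sm r U 1 K` of it (unfold `Sm`) is the statement.
-/

set_option autoImplicit false

namespace Pool.Agent.Lib.MP_b0c2b5_co.R3

open Finset LS
open scoped Classical

universe u

private theorem StC_un {X : Type u} {P : ℕ → Finset X → Prop} (hP : Scl P) {ι : Type u} (s : Finset ι)
    (Z : ι → Finset X) (k : ℕ) (h : ∀ i ∈ s, P k (Z i)) : P (s.card * k) (s.biUnion Z) := by
  induction s using Finset.induction_on with
  | empty => simpa using hP.emp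
  | insert i s hi ih =>
    rw [Finset.biUnion_insert, Finset.card_insert_of_notMem hi]
    have h1 := ih (fun j hj => h j (mem_insert_of_mem hj))
    have h2 := hP.union _ _ _ _ (h i (mem_insert_self i s)) h1
    exact hP.mono _ _ _ _ (by ring_nf; exact le_refl _) (Finset.Subset.refl _) h2

private theorem StC_un' {X : Type u} {P : ℕ → Finset X → Prop} (hP : Scl P) {ι : Type u} (s : Finset ι)
    (Z : ι → Finset X) (k m : ℕ) (hm : s.card ≤ m) (h : ∀ i ∈ s, P k (Z i)) : P (m * k) (s.biUnion Z) :=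
  hP.mono _ _ _ _ (Nat.mul_le_mul_right _ hm) (Finset.Subset.refl _) (StC_un hP s Z k h)

private theorem StC_ex {V : Type u} [Fintype V] (r : V → V → Prop) (U : Finset V) (C0 M : ℕ) (D Th : V → Finset V)
    (H : Finset V) (hDU : ∀ u ∈ U, D u ⊆ U) (hDc : ∀ u, (D u).card ≤ C0)
    (hD : ∀ u ∈ U, ∀ v ∈ aN r u ∩ U, Sm r U 1 C0 ((aN r v ∩ U) \ (D u).biUnion (aN r)))
    (hHU : H ⊆ U) (hTh : ∀ u, Th u ⊆ H)
    (hThs : ∀ u ∈ U, Sm r U 1 M ((aN r u ∩ U) \ (Th u).biUnion (aN r)))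
    (hL : ∀ v ∈ U, (H ∩ aN r v).card ≤ M) (u : V) (hu : u ∈ U) :
    Sm r U 1 (M + M * (C0 + C0 * M)) ((aN r u ∩ U).filter (fun v => Disjoint (Th u) (H ∩ aN r v) ∨
      ∃ h ∈ H ∩ aN r u, Disjoint ((D h).biUnion Th) (H ∩ aN r v))) := by
  have hS := scl_sm r U 1
  have h1 := hThs u hu
  have h2 : Sm r U 1 (M * (C0 + C0 * M)) ((H ∩ aN r u).biUnion (fun h =>
      ((aN r u ∩ U) \ (D h).biUnion (aN r)) ∪ (D h).biUnion (fun g => (aN r g ∩ U) \ (Th g).biUnion (aN r)))) := by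
    apply StC_un' hS _ _ _ _ (hL u hu)
    intro h hh
    rw [mem_inter] at hh
    have hhU := hHU hh.1
    apply hS.union
    · exact hD h hhU u (mem_inter.2 ⟨aN_comm.1 hh.2, hu⟩)
    · apply StC_un' hS _ _ _ _ (hDc h)
      intro g hg
      exact hThs g (hDU h hhU hg)
  have h3 := hS.union _ _ _ _ h1 h2
  refine hS.mono _ _ _ _ (le_refl _) ?_ h3
  intro v hv
  rw [mem_filter, mem_inter] at hv
  obtain ⟨⟨hv1, hv2⟩, hv3⟩ := hv
  rw [mem_union]
  rcases hv3 with hv3 | ⟨h, hh, hv3⟩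
  · left
    rw [mem_sdiff, mem_inter]
    refine ⟨⟨hv1, hv2⟩, ?_⟩
    intro hc
    rw [mem_biUnion] at hc
    obtain ⟨g, hg, hg2⟩ := hc
    exact Finset.disjoint_left.1 hv3 hg (mem_inter.2 ⟨hTh u hg, aN_comm.1 hg2⟩)
  · right
    rw [mem_biUnion]
    refine ⟨h, hh, ?_⟩
    rw [mem_union]
    by_cases hc : v ∈ (D h).biUnion (aN r)
    · right
      rw [mem_biUnion] at hc
      obtain ⟨g, hg, hg2⟩ := hc
      rw [mem_biUnion]
      refine ⟨g, hg, ?_⟩
      rw [mem_sdiff, mem_inter]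
      refine ⟨⟨hg2, hv2⟩, ?_⟩
      intro hc
      rw [mem_biUnion] at hc
      obtain ⟨g', hg', hg2'⟩ := hc
      exact Finset.disjoint_left.1 hv3 (mem_biUnion.2 ⟨g, hg, hg'⟩) (mem_inter.2 ⟨hTh g hg', aN_comm.1 hg2'⟩)
    · left
      rw [mem_sdiff, mem_inter]
      exact ⟨⟨hv1, hv2⟩, hc⟩

theorem stage_c (t a b : ℕ) : ∃ K Q : ℕ, ∀ (V : Type u) [Fintype V] (r lt : V → V → Prop), HO r lt → Trc (aN r) a b →
    ¬ Nonempty (treeG 3 t ↪g Gr r) → ∀ U : Finset V, ∃ f : V → ℕ, (∀ x ∈ U, f x < Q) ∧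
      ∀ u ∈ U, ∃ D ⊆ U, D.card ≤ K ∧ ∀ v ∈ U, f v = f u → v ∈ aN r u →
        ((aN r v ∩ U) \ D.biUnion (aN r)).card ≤ K := by
  obtain ⟨C0, hC0⟩ := lemK.{u} 2 t a b
  obtain ⟨w, q, hwq⟩ := fw_sm.{u} a b
  obtain ⟨M, hM⟩ := net.{u, u} C0 C0 w q
  obtain ⟨C1, hC1⟩ := label.{u} (max M (C0 * M) + 1)
  refine ⟨M + M * (C0 + C0 * M), C1 * C1 + 1, ?_⟩
  intro V _ r lt hO hT hno U
  have hS := scl_sm r U 1
  have hKK := hC0 V r lt hO hT hno U
  have hDex : ∀ u : V, ∃ D : Finset V, D.card ≤ C0 ∧ (u ∈ U → D ⊆ U ∧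
      ∀ v ∈ aN r u ∩ U, Sm r U 1 C0 ((aN r v ∩ U) \ D.biUnion (aN r))) := by
    intro u
    by_cases hu : u ∈ U
    · obtain ⟨D, hD1, hD2, hD3⟩ := hKK u hu
      exact ⟨D, hD2, fun _ => ⟨hD1, hD3⟩⟩
    · exact ⟨∅, by simp, fun h => absurd h hu⟩
  choose D hDc hDD using hDex
  obtain ⟨H0, Th0, hn1, hn2, hn3, hn4⟩ := hM V V (Sm r U 1) hS (hwq V r hT U)
    (fun f => if f ∈ U then aN r f ∩ U else ∅) (fun _ => ∅)
    (fun f => hS.mono _ _ _ _ (Nat.zero_le _) (Finset.Subset.refl _) hS.emp) (by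
      intro x
      by_cases hx : x ∈ U
      · refine ⟨D x, hDc x, ?_⟩
        intro f hf _
        by_cases hfU : f ∈ U
        · simp only [if_pos hfU] at hf ⊢
          rw [mem_inter] at hf
          refine hS.mono _ _ _ _ (le_refl _) ?_ ((hDD x hx).2 f (mem_inter.2 ⟨aN_comm.1 hf.1, hfU⟩))
          intro y hy
          rw [mem_sdiff] at hy ⊢
          refine ⟨hy.1, ?_⟩
          intro hc
          apply hy.2
          rw [mem_biUnion] at hc ⊢
          obtain ⟨g, hg, hg2⟩ := hc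
          refine ⟨g, hg, ?_⟩
          rw [if_pos ((hDD x hx).1 hg), mem_inter]
          exact ⟨hg2, (mem_inter.1 hy.1).2⟩
        · simp only [if_neg hfU] at hf
          simp at hf
      · refine ⟨∅, by simp, ?_⟩
        intro f hf _
        by_cases hfU : f ∈ U
        · simp only [if_pos hfU] at hf
          exact absurd (mem_inter.1 hf).2 hx
        · simp only [if_neg hfU] at hf
          simp at hf)
  -- restrict to `U`
  set H : Finset V := H0 ∩ U with hH
  set Th : V → Finset V := fun f => Th0 f ∩ U with hThd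
  have hHU : H ⊆ U := inter_subset_right
  have hThH : ∀ u, Th u ⊆ H := fun u => inter_subset_inter_right (hn1 u)
  have hThc : ∀ u, (Th u).card ≤ M := fun u => (card_le_card inter_subset_left).trans (hn2 u)
  have hThs : ∀ u ∈ U, Sm r U 1 M ((aN r u ∩ U) \ (Th u).biUnion (aN r)) := by
    intro u hu
    have h1 := hn3 u
    simp only [if_pos hu] at h1
    refine hS.mono _ _ _ _ (le_refl _) ?_ h1
    intro y hy
    rw [mem_sdiff] at hy ⊢
    refine ⟨hy.1, ?_⟩
    intro hc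
    apply hy.2
    rw [mem_biUnion] at hc ⊢
    obtain ⟨g, hg, hg2⟩ := hc
    by_cases hgU : g ∈ U
    · rw [if_pos hgU] at hg2
      exact ⟨g, mem_inter.2 ⟨hg, hgU⟩, (mem_inter.1 hg2).1⟩
    · rw [if_neg hgU] at hg2
      simp at hg2
  have hL : ∀ v ∈ U, (H ∩ aN r v).card ≤ M := by
    intro v hv
    refine (card_le_card ?_).trans (hn4 v)
    intro h hh
    rw [mem_inter] at hh
    have hh1 := mem_inter.1 hh.1
    rw [mem_filter]
    refine ⟨hh1.1, ?_, by simp⟩
    simp only [if_pos hh1.2]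
    exact mem_inter.2 ⟨aN_comm.1 hh.2, hv⟩
  have hEx := StC_ex r U C0 M D Th H (fun u hu => (hDD u hu).1) hDc (fun u hu => (hDD u hu).2) hHU hThH hThs hL
  -- the colouring
  set Ex : V → Finset V := fun u => (aN r u ∩ U).filter (fun v => Disjoint (Th u) (H ∩ aN r v) ∨
      ∃ h ∈ H ∩ aN r u, Disjoint ((D h).biUnion Th) (H ∩ aN r v)) with hExd
  set Y : Finset V := U.filter (fun u => (H ∩ aN r u).Nonempty) with hYd
  have hYU : ∀ v ∈ Y, v ∈ U := fun v hv => (mem_filter.1 hv).1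
  have hphi : ∀ h : V, ((D h).biUnion Th).card ≤ max M (C0 * M) + 1 := by
    intro h
    have h1 : ((D h).biUnion Th).card ≤ (D h).card * M := card_biUnion_le_card_mul _ _ _ (fun x _ => hThc x)
    have h2 : (D h).card * M ≤ C0 * M := Nat.mul_le_mul_right _ (hDc h)
    have h3 := le_max_right M (C0 * M)
    omega
  have hLc : ∀ u ∈ Y, (H ∩ aN r u).card ≤ max M (C0 * M) + 1 := by
    intro u hu
    have h1 := hL u (hYU u hu)
    have h3 := le_max_left M (C0 * M)
    omega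
  have hcol1 : ColOn (fun u v => r u v ∧ v ∉ Ex u) (Y : Set V) C1 := by
    refine hC1 V r lt hO Y (fun v => H ∩ aN r v) (fun h => (D h).biUnion Th) (fun h => {h}) _ ?_ ?_ hLc hphi ?_ ?_ ?_
    · intro x y hxy; exact hxy.1
    · intro u hu; exact (mem_filter.1 hu).2
    · intro h; simp
    · intro u hu h hh
      exact ⟨h, by simp, aN_comm.1 (mem_inter.1 hh).2⟩
    · intro u hu v hv huv h hh hd
      apply huv.2
      rw [hExd]
      simp only [mem_filter, mem_inter]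
      exact ⟨⟨mem_aN.2 (Or.inl huv.1), hYU v hv⟩, Or.inr ⟨h, mem_inter.1 hh, hd⟩⟩
  have hcol2 : ColOn (fun u v => r v u ∧ v ∉ Ex u) (Y : Set V) C1 := by
    refine hC1 V (rev r) (rev lt) hO.flip Y (fun v => H ∩ aN r v) (fun h => (D h).biUnion Th) (fun h => {h}) _ ?_ ?_ hLc
      hphi ?_ ?_ ?_
    · intro x y hxy; exact hxy.1
    · intro u hu; exact (mem_filter.1 hu).2
    · intro h; simp
    · intro u hu h hh
      refine ⟨h, by simp, ?_⟩
      have h1 := mem_aN.1 (mem_inter.1 hh).2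
      exact mem_aN.2 h1
    · intro u hu v hv huv h hh hd
      apply huv.2
      rw [hExd]
      simp only [mem_filter, mem_inter]
      exact ⟨⟨mem_aN.2 (Or.inr huv.1), hYU v hv⟩, Or.inr ⟨h, mem_inter.1 hh, hd⟩⟩
  obtain ⟨f1, hf1, hf1'⟩ := hcol1
  obtain ⟨f2, hf2, hf2'⟩ := hcol2
  have hlt : ∀ v ∈ Y, f1 v * C1 + f2 v < C1 * C1 := by
    intro v hv
    have h1 := hf1 v (by exact_mod_cast hv)
    have h2 := hf2 v (by exact_mod_cast hv)
    nlinarith
  refine ⟨fun v => if v ∈ Y then f1 v * C1 + f2 v else C1 * C1, ?_, ?_⟩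
  · intro x _
    by_cases hx : x ∈ Y
    · simp only [if_pos hx]
      have := hlt x hx
      omega
    · simp only [if_neg hx]
      omega
  · intro u hu
    obtain ⟨E, hE1, hE2, hE3⟩ := hEx u hu
    refine ⟨E, hE1, hE2, ?_⟩
    intro v hv hfv hvu
    apply hE3 v
    by_contra hcon
    have hcon2 : v ∉ Ex u := hcon
    by_cases huY : u ∈ Y
    · by_cases hvY : v ∈ Y
      · simp only [if_pos huY, if_pos hvY] at hfv
        have a1 := hf1 u (by exact_mod_cast huY)
        have a2 := hf2 u (by exact_mod_cast huY)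
        have a3 := hf1 v (by exact_mod_cast hvY)
        have a4 := hf2 v (by exact_mod_cast hvY)
        have hC1pos : 0 < C1 := by omega
        have e1 : f1 v = f1 u := by
          have h1 : (f1 v * C1 + f2 v) / C1 = f1 v := by
            rw [mul_comm, Nat.mul_add_div hC1pos, Nat.div_eq_of_lt a4, add_zero]
          have h2 : (f1 u * C1 + f2 u) / C1 = f1 u := by
            rw [mul_comm, Nat.mul_add_div hC1pos, Nat.div_eq_of_lt a2, add_zero]
          rw [← h1, ← h2, hfv]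
        have e2 : f2 v = f2 u := by
          rw [e1] at hfv
          omega
        rcases mem_aN.1 hvu with h | h
        · exact hf1' u (by exact_mod_cast huY) v (by exact_mod_cast hvY) ⟨h, hcon2⟩ e1.symm
        · exact hf2' u (by exact_mod_cast huY) v (by exact_mod_cast hvY) ⟨h, hcon2⟩ e2.symm
      · simp only [if_pos huY, if_neg hvY] at hfv
        have := hlt u huY
        omega
    · by_cases hvY : v ∈ Y
      · simp only [if_neg huY, if_pos hvY] at hfv
        have := hlt v hvY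
        omega
      · apply hcon2
        have hem : H ∩ aN r v = ∅ := by
          by_contra hne
          exact hvY (mem_filter.2 ⟨hv, Finset.nonempty_iff_ne_empty.2 hne⟩)
        rw [hExd]
        simp only [mem_filter, mem_inter]
        refine ⟨⟨hvu, hv⟩, Or.inl ?_⟩
        rw [hem]
        exact Finset.disjoint_empty_right _

end Pool.Agent.Lib.MP_b0c2b5_co.R3
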