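import Pool.Agent.Lib.MP_b0c2b5_co.R3.StC
import Pool.Agent.Lib.MP_b0c2b5_co.R3.IP

/-!
# R3, Stage: one step of the chain

PROOF. `K1, Q1` from `stage_c t a b`, `K2` from `inpoor 3 t a b`; `K := max K1 K2`, `Q := Q1 * 4`. `f1` from `stage_c` for `U`. For every `i < Q1` let `U_i := U.filter (f1 = i)` and `g_i` the function of `inpoor` for `U_i`. `f x := f1 x * 4 + g_(f1 x) x`. A class of `f` is a set `U' = {x ∈ U : f1 x = i, g_i x = j}`. `Stp`: `c`: the `D` of `stage_c`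
(`v ∈ U'`, `u ∈ U'` have `f1 v = f1 u`). `p`: the `Z ⊆ U_i ⊆ U` of `inpoor`.
-/

set_option autoImplicit false

namespace Pool.Agent.Lib.MP_b0c2b5_co.R3

open Finset LS
open scoped Classical

universe u

theorem stage (t a b : ℕ) : ∃ K Q : ℕ, ∀ (V : Type u) [Fintype V] (r lt : V → V → Prop), HO r lt → Trc (aN r) a b →
    Trc (iN r) a b → ¬ Nonempty (treeG 3 t ↪g Gr r) → ∀ U : Finset V, ∃ f : V → ℕ, (∀ x ∈ U, f x < Q) ∧
      ∀ i < Q, Stp r K U (U.filter (fun x => f x = i)) := by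
  obtain ⟨K1, Q1, hC⟩ := stage_c t a b
  obtain ⟨K2, hP⟩ := inpoor 3 t a b
  refine ⟨max K1 K2, Q1 * 4, ?_⟩
  intro V _ r lt hHO hT1 hT2 hfree U
  obtain ⟨f1, hf1, hD⟩ := hC V r lt hHO hT1 hfree U
  have hg : ∀ i, ∃ g : V → ℕ, (∀ x ∈ U.filter (fun x => f1 x = i), g x < 3 + 1) ∧
      ∀ x ∈ U.filter (fun x => f1 x = i), ∃ Z ⊆ U.filter (fun x => f1 x = i), Z.card ≤ K2 ∧
        ∀ y ∈ U.filter (fun x => f1 x = i), g y = g x → r y x → y ∈ Z.biUnion (oN r) :=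
    fun i => hP V r lt hHO hT2 hfree _
  choose g hg1 hg2 using hg
  refine ⟨fun x => f1 x * 4 + g (f1 x) x, ?_, ?_⟩
  · intro x hx
    have h1 := hf1 x hx
    have h2 := hg1 (f1 x) x (Finset.mem_filter.2 ⟨hx, rfl⟩)
    show f1 x * 4 + g (f1 x) x < Q1 * 4
    omega
  · intro i _
    have key : ∀ x ∈ U, ∀ y ∈ U, f1 x * 4 + g (f1 x) x = i → f1 y * 4 + g (f1 y) y = i →
        f1 x = f1 y ∧ g (f1 x) x = g (f1 y) y := by
      intro x hx y hy h1 h2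
      have h3 := hg1 (f1 x) x (Finset.mem_filter.2 ⟨hx, rfl⟩)
      have h4 := hg1 (f1 y) y (Finset.mem_filter.2 ⟨hy, rfl⟩)
      constructor <;> omega
    refine ⟨Finset.filter_subset _ _, ?_, ?_⟩
    · intro u hu
      rw [Finset.mem_filter] at hu
      obtain ⟨D, hD1, hD2, hD3⟩ := hD u hu.1
      refine ⟨D, hD1, hD2.trans (le_max_left _ _), ?_⟩
      intro v hv hvu
      rw [Finset.mem_filter] at hv
      exact (hD3 v hv.1 (key v hv.1 u hu.1 hv.2 hu.2).1 hvu).trans (le_max_left _ _)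
    · intro x hx
      rw [Finset.mem_filter] at hx
      obtain ⟨Z, hZ1, hZ2, hZ3⟩ := hg2 (f1 x) x (Finset.mem_filter.2 ⟨hx.1, rfl⟩)
      refine ⟨Z, hZ1.trans (Finset.filter_subset _ _), hZ2.trans (le_max_right _ _), ?_⟩
      intro y hy hyx
      rw [Finset.mem_filter] at hy
      obtain ⟨h5, h6⟩ := key y hy.1 x hx.1 hy.2 hx.2
      exact hZ3 y (Finset.mem_filter.2 ⟨hy.1, h5⟩) (by rw [← h6, h5]) hyx

end Pool.Agent.Lib.MP_b0c2b5_co.R3
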