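import Pool.Agent.Lib.MP_b0c2b5_co.R3.Core

/-!
# R3, Step: from schemes of order `q + 1` to schemes of order `q`

PROOF. Let `hi1 := hi lo`, `M1 := M lo`, `lo2 := max lo hi1`, `hi2 := max (hi lo2) hi1`, `M2 := M lo2`, `t0 := (M2 + 1) * max hi1 hi2`, and `hi3, M3` from `core q lo hi1 hi2 t0`. `hi' := hi3`, `M' := M1 + M2 + M3`.
Let `(D1, Th1)` be the scheme for `lo` and `(D2, Th2)` the scheme for `lo2`. `f1 f := A f \ (Th1 f).biUnion A`, `f2 f := A f \ (Th2 f).biUnion A`; `¬ Rk P A (q+1) hi1 (f1 f)`, `¬ Rk P A (q+1) hi2 (f2 f)` (`Rk.anti`).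
`Th12 f := D2.filter (fun d => Rk P A q hi1 (f1 f ∩ A d))`. As `¬ Rk P A (q+1) hi1 (f1 f)` there is `G`, `|G| ≤ hi1 ≤ lo2`, with `P hi1 (A d \ G.biUnion A)` (so `P lo2`) for all these `d`: `|Th12 f| ≤ M2` by `low` for `D2`. `fp f := f1 f \ (Th12 f).biUnion A`. So (i) `fp f ⊆ A f`; (ii) `¬ Rk P A (q+1) hi1 (fp f)` (`Rk.mono`);
(iii) `¬ Rk P A q hi1 (fp f ∩ A d)` for ALL `d ∈ D2` (if `d ∈ Th12 f` the set is empty: `Rk.small` with `Scl.emp`, `Scl.mono`; otherwise `Rk.mono`).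
`C1 g` := a set of at most `hi1` elements from (ii) for `g`: `P hi1 (A b \ (C1 g).biUnion A)` for all `b` with `Rk P A q hi1 (fp g ∩ A b)`. `C g` := a set of at most `hi2` elements from `¬ Rk P A (q+1) hi2 (f2 g)`: `P hi2 (A b \ (C g).biUnion A)` for all `b` with `Rk P A q hi2 (f2 g ∩ A b)`.
(2a) If `Rk P A q t0 (fp f ∩ A g ∩ Y)` then `Rk P A q hi2 (f2 g ∩ (fp f ∩ Y))`: `A g ⊆ f2 g ∪ ⋃_{d ∈ Th2 g} A d` with `|Th2 g| ≤ M2`; by `Rk.add` (`m = M2 + 1`, `k = max hi1 hi2`, index set `insertNone (Th2 g)`) one of the pieces `f2 g ∩ (fp f ∩ Y)`, `fp f ∩ A d` (`d ∈ Th2 g ⊆ D2`) has `Rk P A q (max hi1 hi2)`; not the second by (iii).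
Hence `h2` of `core`: take `Y = univ` or use `fp f ⊆ A f`: `Rk P A q hi2 (f2 g ∩ A f)` and so `C g` covers `f`; `h3`: `Y = A h`: `Rk P A q hi2 (f2 g ∩ A h)`, `C g` covers `h`. `h1` of `core`: the choice of `C1`.
`core` gives `D3, Th3`. Now `D := D1 ∪ D2 ∪ D3`, `Th f := Th1 f ∪ Th12 f ∪ Th3 f`. `low`: for `|G| ≤ lo` the elements `d` of `D1`, `D2`, `D3` with `P lo (A d \ G.biUnion A)` are at most `M1`, `M2` (`lo ≤ lo2`, `P lo2`), `M3`. `rk`: `A f \ (Th f).biUnion A = fp f \ (Th3 f).biUnion A` (or `⊆`, with `Rk.mono`).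
-/

set_option autoImplicit false

namespace Pool.Agent.Lib.MP_b0c2b5_co.R3

open Finset
open scoped Classical

universe u v

private theorem Step_cover {X : Type u} {F : Type v} {P : ℕ → Finset X → Prop} {A : F → Finset X}
    {q k : ℕ} {Z : Finset X} (h : ¬ Rk P A (q + 1) k Z) :
    ∃ G : Finset F, G.card ≤ k ∧ ∀ f, Rk P A q k (Z ∩ A f) → P k (A f \ G.biUnion A) := by
  by_contra hc
  exact h hc

private theorem Step_2a {X : Type u} {F : Type v} {P : ℕ → Finset X → Prop} (hP : Scl P)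
    {A : F → Finset X} {q hi1 hi2 M2 : ℕ} {fpf Ag Y f2g : Finset X} {T : Finset F}
    (hT : T.card ≤ M2) (hf2 : f2g = Ag \ T.biUnion A)
    (h3 : ∀ d ∈ T, ¬ Rk P A q hi1 (fpf ∩ A d))
    (h : Rk P A q ((M2 + 1) * max hi1 hi2) (fpf ∩ Ag ∩ Y)) :
    Rk P A q hi2 (f2g ∩ (fpf ∩ Y)) := by
  have hsub : fpf ∩ Ag ∩ Y ⊆ (Finset.insertNone T).biUnion
      (fun o : Option F => o.elim (f2g ∩ (fpf ∩ Y)) (fun d => fpf ∩ A d)) := by
    intro x hx
    rw [Finset.mem_inter, Finset.mem_inter] at hx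
    rw [Finset.mem_biUnion]
    by_cases hxT : x ∈ T.biUnion A
    · rw [Finset.mem_biUnion] at hxT
      obtain ⟨d, hd, hxd⟩ := hxT
      exact ⟨some d, Finset.some_mem_insertNone.2 hd, Finset.mem_inter.2 ⟨hx.1.1, hxd⟩⟩
    · refine ⟨none, Finset.none_mem_insertNone, ?_⟩
      show x ∈ f2g ∩ (fpf ∩ Y)
      rw [Finset.mem_inter, Finset.mem_inter, hf2, Finset.mem_sdiff]
      exact ⟨⟨hx.1.2, hxT⟩, hx.1.1, hx.2⟩
  have h' := Rk.mono hP hsub h
  have hcard : (Finset.insertNone T).card ≤ M2 + 1 := by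
    rw [Finset.card_insertNone]
    omega
  obtain ⟨i, hi, hR⟩ := Rk.add hP (Finset.insertNone T) hcard _ h'
  cases i with
  | none => exact Rk.anti hP (le_max_right _ _) hR
  | some d =>
    exact absurd (Rk.anti hP (le_max_left _ _) hR) (h3 d (Finset.some_mem_insertNone.1 hi))

theorem step (q lo : ℕ) (hi M : ℕ → ℕ) : ∃ hi' M' : ℕ,
    ∀ (X : Type u) (F : Type v) [Finite F] (P : ℕ → Finset X → Prop), Scl P → ∀ (A : F → Finset X),
      (∀ l, ∃ (D : Finset F) (Th : F → Finset F), Sch P A l (q + 1) (hi l) (M l) D Th) →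
      ∃ (D : Finset F) (Th : F → Finset F), Sch P A lo q hi' M' D Th := by
  obtain ⟨hi3, M3, hcore⟩ := core.{u, v} q lo (hi lo) (max (hi (max lo (hi lo))) (hi lo))
    ((M (max lo (hi lo)) + 1) * max (hi lo) (max (hi (max lo (hi lo))) (hi lo)))
    (le_trans (le_max_left _ _) (Nat.le_mul_of_pos_left _ (Nat.succ_pos _)))
    (le_trans (le_max_right _ _) (Nat.le_mul_of_pos_left _ (Nat.succ_pos _)))
  refine ⟨hi3, M lo + M (max lo (hi lo)) + M3, ?_⟩
  intro X F _ P hP A hS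
  obtain ⟨D1, Th1, S1⟩ := hS lo
  obtain ⟨D2, Th2, S2⟩ := hS (max lo (hi lo))
  revert hcore
  generalize hlo2 : max lo (hi lo) = lo2 at *
  generalize hhi2 : max (hi lo2) (hi lo) = hi2
  intro hcore
  have hlolo2 : lo ≤ lo2 := by rw [← hlo2]; exact le_max_left _ _
  have hhilo2 : hi lo ≤ lo2 := by rw [← hlo2]; exact le_max_right _ _
  have hhi22 : hi lo2 ≤ hi2 := by rw [← hhi2]; exact le_max_left _ _
  have h2rk : ∀ f, ¬ Rk P A (q + 1) hi2 (A f \ (Th2 f).biUnion A) :=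
    fun f h => S2.rk f (Rk.anti hP hhi22 h)
  -- the second part of the assignment
  let Th12 : F → Finset F := fun f =>
    D2.filter (fun d => Rk P A q (hi lo) ((A f \ (Th1 f).biUnion A) ∩ A d))
  have hTh12 : ∀ f, (Th12 f).card ≤ M lo2 := by
    intro f
    obtain ⟨G, hG, hG'⟩ := Step_cover (S1.rk f)
    refine le_trans (Finset.card_le_card ?_) (S2.low G (le_trans hG hhilo2))
    intro d hd
    rw [Finset.mem_filter] at hd ⊢
    exact ⟨hd.1, hP.mono _ _ _ _ hhilo2 (Finset.Subset.refl _) (hG' d hd.2)⟩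
  let fp : F → Finset X := fun f => (A f \ (Th1 f).biUnion A) \ (Th12 f).biUnion A
  have hfp0 : ∀ f, fp f ⊆ A f \ (Th1 f).biUnion A := fun f => Finset.sdiff_subset
  have hfp1 : ∀ f, fp f ⊆ A f := fun f => (hfp0 f).trans Finset.sdiff_subset
  have hfp2 : ∀ f, ¬ Rk P A (q + 1) (hi lo) (fp f) := fun f h => S1.rk f (Rk.mono hP (hfp0 f) h)
  have hfp3 : ∀ f, ∀ d ∈ D2, ¬ Rk P A q (hi lo) (fp f ∩ A d) := by
    intro f d hd
    by_cases hd' : d ∈ Th12 f
    · have he : fp f ∩ A d = ∅ := by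
        rw [Finset.eq_empty_iff_forall_notMem]
        intro x hx
        rw [Finset.mem_inter] at hx
        exact (Finset.mem_sdiff.1 hx.1).2 (Finset.mem_biUnion.2 ⟨d, hd', hx.2⟩)
      rw [he]
      exact Rk.small hP (hP.mono 0 _ ∅ ∅ (Nat.zero_le _) (Finset.Subset.refl _) hP.emp)
    · intro hR
      apply hd'
      show d ∈ D2.filter _
      rw [Finset.mem_filter]
      exact ⟨hd, Rk.mono hP (Finset.inter_subset_inter_right (hfp0 f)) hR⟩
  choose C1 hC1c hC1 using fun g => Step_cover (hfp2 g)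
  choose C hCc hC using fun g => Step_cover (h2rk g)
  have h2a : ∀ f g Y, Rk P A q ((M lo2 + 1) * max (hi lo) hi2) (fp f ∩ A g ∩ Y) →
      Rk P A q hi2 ((A g \ (Th2 g).biUnion A) ∩ (fp f ∩ Y)) := by
    intro f g Y h
    exact Step_2a hP (S2.card g) rfl (fun d hd => hfp3 f d (S2.sub g hd)) h
  obtain ⟨D3, Th3, c1, c2, c3, c4⟩ := hcore X F P hP A fp C C1 hfp1 hCc hC1c hC1
    (by
      intro f g h
      apply hC g f
      have h1 := h2a f g (A f) (Rk.mono hP (by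
        intro x hx
        rw [Finset.mem_inter]
        exact ⟨hx, hfp1 f (Finset.mem_inter.1 hx).1⟩) h)
      exact Rk.mono hP (Finset.inter_subset_inter_left Finset.inter_subset_right) h1)
    (by
      intro f g h' h
      apply hC g h'
      exact Rk.mono hP (Finset.inter_subset_inter_left Finset.inter_subset_right)
        (h2a f g (A h') h))
  refine ⟨D1 ∪ D2 ∪ D3, fun f => Th1 f ∪ Th12 f ∪ Th3 f, ?_, ?_, ?_, ?_⟩
  · intro f
    exact Finset.union_subset_union (Finset.union_subset_union (S1.sub f)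
      (Finset.filter_subset _ _)) (c1 f)
  · intro f
    calc (Th1 f ∪ Th12 f ∪ Th3 f).card ≤ (Th1 f ∪ Th12 f).card + (Th3 f).card :=
          Finset.card_union_le _ _
      _ ≤ (Th1 f).card + (Th12 f).card + (Th3 f).card :=
          Nat.add_le_add_right (Finset.card_union_le _ _) _
      _ ≤ M lo + M lo2 + M3 :=
          Nat.add_le_add (Nat.add_le_add (S1.card f) (hTh12 f)) (c2 f)
  · intro G hG
    rw [Finset.filter_union, Finset.filter_union]
    refine le_trans (Finset.card_union_le _ _) (Nat.add_le_add (le_trans (Finset.card_union_le _ _)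
      (Nat.add_le_add (S1.low G hG) ?_)) (c3 G hG))
    refine le_trans (Finset.card_le_card ?_) (S2.low G (le_trans hG hlolo2))
    intro d hd
    rw [Finset.mem_filter] at hd ⊢
    exact ⟨hd.1, hP.mono _ _ _ _ hlolo2 (Finset.Subset.refl _) hd.2⟩
  · intro f h
    apply c4 f
    refine Rk.mono hP ?_ h
    intro x hx
    rw [Finset.mem_sdiff, Finset.mem_biUnion] at hx
    have hn : ∀ d, d ∈ Th1 f ∪ Th12 f ∪ Th3 f → x ∉ A d := fun d hd hxd => hx.2 ⟨d, hd, hxd⟩
    rw [Finset.mem_sdiff, Finset.mem_biUnion]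
    refine ⟨?_, ?_⟩
    · show x ∈ (A f \ (Th1 f).biUnion A) \ (Th12 f).biUnion A
      rw [Finset.mem_sdiff, Finset.mem_sdiff, Finset.mem_biUnion, Finset.mem_biUnion]
      refine ⟨⟨hx.1, ?_⟩, ?_⟩
      · rintro ⟨d, hd, hxd⟩
        exact hn d (Finset.mem_union_left _ (Finset.mem_union_left _ hd)) hxd
      · rintro ⟨d, hd, hxd⟩
        exact hn d (Finset.mem_union_left _ (Finset.mem_union_right _ hd)) hxd
    · rintro ⟨d, hd, hxd⟩
      exact hn d (Finset.mem_union_right _ hd) hxd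

end Pool.Agent.Lib.MP_b0c2b5_co.R3
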